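import Pool.Agent.Lib.RAA.Tools

/-! Algebra of Kronecker products. -/

open scoped Classical ComplexOrder Matrix
open Function

set_option linter.unusedVariables false

noncomputable section

namespace Pool.Agent.Lib.RAA

namespace KQB

variable {m : ℕ} {ι κ κ' : Type}

theorem kq_apply (A : Fin m → Matrix ι κ ℂ) (f : Fin m → ι) (g : Fin m → κ) :
    kq A f g = ∏ a, A a (f a) (g a) := rfl

theorem kq_mul [Fintype κ] (A : Fin m → Matrix ι κ ℂ) (B : Fin m → Matrix κ κ' ℂ) :
    kq A * kq B = kq fun a => A a * B a := by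
  ext f h
  simp only [Matrix.mul_apply, kq_apply, Fintype.prod_sum, Finset.prod_mul_distrib]

theorem kq_ct (A : Fin m → Matrix ι κ ℂ) : (kq A)ᴴ = kq fun a => (A a)ᴴ := by
  ext f g
  simp only [Matrix.conjTranspose_apply, kq_apply, star_prod]

theorem kq_one [DecidableEq ι] : (kq fun _ : Fin m => (1 : Matrix ι ι ℂ)) = 1 := by
  ext f g
  simp only [kq_apply, Matrix.one_apply, Fintype.prod_boole, funext_iff]
  congr

theorem kq_update (X : Fin m → Matrix ι κ ℂ) (a : Fin m) (P : Matrix ι κ ℂ) (f : Fin m → ι)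
    (g : Fin m → κ) : kq (update X a P) f g =
      (∏ a' ∈ Finset.univ.erase a, X a' (f a') (g a')) * P (f a) (g a) := by
  rw [kq_apply, ← Finset.prod_erase_mul _ _ (Finset.mem_univ a), update_self]
  congr 1
  exact Finset.prod_congr rfl fun a' h => by rw [update_of_ne (Finset.ne_of_mem_erase h)]

theorem kq_add (X : Fin m → Matrix ι κ ℂ) (a : Fin m) (P Q : Matrix ι κ ℂ) :
    kq (update X a (P + Q)) = kq (update X a P) + kq (update X a Q) := by
  ext f g
  simp only [kq_update, Matrix.add_apply, mul_add]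

theorem kq_sub (X : Fin m → Matrix ι κ ℂ) (a : Fin m) (P Q : Matrix ι κ ℂ) :
    kq (update X a (P - Q)) = kq (update X a P) - kq (update X a Q) := by
  ext f g
  simp only [kq_update, Matrix.sub_apply, mul_sub]

theorem kq_smul (X : Fin m → Matrix ι κ ℂ) (a : Fin m) (c : ℝ) (P : Matrix ι κ ℂ) :
    kq (update X a (c • P)) = c • kq (update X a P) := by
  ext f g
  simp only [kq_update, Matrix.smul_apply, mul_smul_comm]

open scoped MatrixOrder in
theorem kq_psd [Fintype ι] {A : Fin m → Matrix ι ι ℂ} (h : ∀ a, (A a).PosSemidef) :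
    (kq A).PosSemidef := by
  choose W hW using fun a => CStarAlgebra.nonneg_iff_eq_star_mul_self.1 (h a).nonneg
  rw [show A = fun a => (W a)ᴴ * W a from funext hW, ← kq_mul, ← kq_ct]
  exact Matrix.posSemidef_conjTranspose_mul_self _

theorem kq_pd [Fintype ι] [DecidableEq ι] {A : Fin m → Matrix ι ι ℂ} (h : ∀ a, (A a).PosDef) :
    (kq A).PosDef := by
  refine (kq_psd fun a => (h a).posSemidef).posDef_iff_isUnit.2
    (IsUnit.of_mul_eq_one (kq fun a => (A a)⁻¹) ?_)
  rw [kq_mul, ← kq_one]
  exact congrArg kq (funext fun a => Matrix.mul_nonsing_inv _ (h a).det_pos.ne'.isUnit)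

theorem psd_update [Fintype ι] {X : Fin m → Matrix ι ι ℂ} (h : ∀ a, (X a).PosSemidef) (a : Fin m)
    {P : Matrix ι ι ℂ} (hP : P.PosSemidef) : (kq (update X a P)).PosSemidef :=
  kq_psd fun a' => by
    by_cases e : a' = a
    · rw [e, update_self]; exact hP
    · rw [update_of_ne e]; exact h a'

theorem kq_mono [Fintype ι] {A B : Fin m → Matrix ι ι ℂ} (hA : ∀ a, (A a).PosSemidef)
    (h : ∀ a, (B a - A a).PosSemidef) : (kq B - kq A).PosSemidef := by
  have hB : ∀ a, (B a).PosSemidef := fun a => by simpa using (h a).add (hA a)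
  have key : ∀ s : Finset (Fin m), (kq (s.piecewise B A) - kq A).PosSemidef := by
    intro s
    induction s using Finset.induction_on with
    | empty => simpa using Matrix.PosSemidef.zero
    | insert a s ha ih =>
      have h1 := psd_update (X := s.piecewise B A) (fun a' => by
        by_cases e : a' ∈ s
        · rw [Finset.piecewise_eq_of_mem _ _ _ e]; exact hB a'
        · rw [Finset.piecewise_eq_of_notMem _ _ _ e]; exact hA a') a (h a)
      rw [kq_sub, ← Finset.piecewise_insert, ← Finset.piecewise_eq_of_notMem s B A ha,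
        update_eq_self] at h1
      simpa using h1.add ih
  simpa using key Finset.univ

end KQB

open KQB

theorem st_KQ : St_KQ := by
  intro m ι κ κ' _ _ _ _
  refine ⟨kq_mul, fun A => ⟨kq_ct A, rfl⟩, kq_one, fun c A => ?_, fun A => ⟨kq_psd, kq_pd⟩,
    fun A B hA h => kq_mono (fun _ => hA) fun _ => h, fun h A c hh hA => ?_,
    fun h κ₁ _ A => ?_, fun h A b hh hA h0 t a s ht => ?_⟩
  · ext f g
    simp [kp, kq_apply, Finset.prod_mul_distrib]
  · have h1 : der m h A + (m * c) • kp m h = ∑ a, kq (update (fun _ : Fin m => h) a (A + c • h)) := by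
      simp only [der, kp, kq_add, kq_smul, Finset.sum_add_distrib, update_eq_self_iff.2 rfl,
        Finset.sum_const, Finset.card_univ, Fintype.card_fin, mul_smul, Nat.cast_smul_eq_nsmul]
    rw [h1]
    exact Matrix.posSemidef_sum _ fun a _ => psd_update (fun _ => hh.posSemidef) a hA
  · rw [der]
    simp only [der]
    rw [Finset.sum_comm]
    refine Finset.sum_congr rfl fun a _ => ?_
    ext f g
    simp only [kq_update, Matrix.sum_apply, Finset.mul_sum]
  · have p := fun a => psd_update (X := fun _ : Fin m => h) (fun _ => hh.posSemidef) a hA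
    have h1 : ∑ a, (star b ⬝ᵥ kq (update (fun _ : Fin m => h) a A) *ᵥ b).re = 0 := by
      rw [← h0, hq, der, Matrix.sum_mulVec, dotProduct_sum, Complex.re_sum]
    have h2 := (Finset.sum_eq_zero_iff_of_nonneg fun a _ =>
      (Complex.nonneg_iff.1 ((p a).dotProduct_mulVec_nonneg b)).1).1 h1 a (Finset.mem_univ a)
    have h3 := ((p a).dotProduct_mulVec_zero_iff b).1
      (Complex.ext h2 (Complex.nonneg_iff.1 ((p a).dotProduct_mulVec_nonneg b)).2.symm)
    set s' : Fin m → ι → ℂ := update (fun a' => t a' ᵥ* h⁻¹) a s with hs'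
    have h4 : ∀ a', t a' = s' a' ᵥ* update (fun _ : Fin m => h) a A a' := fun a' => by
      by_cases e : a' = a
      · rw [e, hs', update_self, update_self, ht]
      · rw [hs', update_of_ne e, update_of_ne e, Matrix.vecMul_vecMul,
          Matrix.nonsing_inv_mul _ hh.det_pos.ne'.isUnit, Matrix.vecMul_one]
    have h5 := congrArg (fun x => (fun g : Fin m → ι => ∏ a', s' a' (g a')) ⬝ᵥ x) h3
    rw [Matrix.dotProduct_mulVec, dotProduct_zero, dotProduct_comm] at h5
    rw [← h5]
    refine Finset.sum_congr rfl fun f _ => congrArg _ ?_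
    simp only [Matrix.vecMul, dotProduct, kq_apply, ← Finset.prod_mul_distrib]
    rw [← Fintype.prod_sum fun a' k => s' a' k * update (fun _ : Fin m => h) a A a' k (f a')]
    exact Finset.prod_congr rfl fun a' _ => congrFun (h4 a') _

end Pool.Agent.Lib.RAA
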