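import Pool.Agent.Lib.RAA.Blue
import Pool.Agent.Lib.HS32.MAll
import Pool.Agent.Lib.HS.Top

/-! Project ra1, step A: the inequality for the classes `η + ε G`. -/

open scoped Topology ComplexOrder Matrix
open Set MeasureTheory Metric Filter

noncomputable section

namespace Pool.Agent.Lib.RAA

open Pool.Agent.Lib.SV (E)
open Pool.Agent.Lib.HS32 Pool.Agent.Lib.RA

namespace A6c

variable {n : ℕ} {M : Mf n}

theorem qf_kae {G : M.Fam (Mat n)} (hG : M.Kae G) (V : M.Cov) {ι : Type}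
    (σ : Fin V.r → E n → ι → ℂ) : QF M V σ G where
  ten := ⟨fun x _ e he hx => hG.sm e he _ (e.map_source hx),
    fun e he e' he' x hx hx' _ => hG.cmp e he e' he' x hx hx'⟩
  psd := fun x _ e he hx =>
    ⟨(hG.pos e he _ (e.map_source hx)).posSemidef, hG.cl e he _ (e.map_source hx)⟩
  int := fun a L hL hs i j => by
    refine (ContinuousOn.integrableOn_compact hL fun z hz => ?_).mono_set inter_subset_left
    exact (hG.sm _ (V.mem a) z (V.sub a (ball_subset_closedBall (hs hz))) i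
      j).continuousAt.continuousWithinAt

theorem ric_low [M.Cpt] (AU : HS.St_AUBIN) {G : M.Fam (Mat n)} {φ : M.Fam ℝ} {ε : ℝ} (hn : 0 < n)
    (hφ : M.Wt 1 φ) (hT : M.Kae (M.hw φ + ε • G)) : ∃ v, M.Sm v ∧ M.Kae (M.hw φ + ε • G + M.hs v) ∧
      M.All fun e z => (M.hw φ + ε • G + M.hs v + M.ric (M.hw φ + ε • G + M.hs v)) e z =
        (ε • G) e z := by
  set T := M.hw φ + ε • G with hTd
  have H := mHES n M
  have w1 := (mINV n M T hT.toMet).2.2.2.2.2.2.1
  obtain ⟨-, w2, w3⟩ := H.2.2.2.2.1 1 1 _ _ (-1) w1 w1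
  obtain ⟨w4, -, w5⟩ := H.2.2.2.2.1 1 (-1 * 1) _ _ 1 hφ w2
  rw [show (1 : ℝ) + -1 * 1 = 0 by norm_num] at w4
  obtain ⟨f1, f2⟩ := H.2.2.2.2.2.2.1 _ w4
  obtain ⟨v, hv, hK, hq⟩ := AU n M T _ 1 hn hT f1 one_pos
  refine ⟨v, hv, hK, fun e he z hz => ?_⟩
  have r1 := (H.2.2.2.2.2.2.2.2.2 _ T hK.toMet hT.toMet).2 e he z hz
  simp only [hq, Real.log_exp, one_mul] at r1
  have r2 := ((mLAP n M v _ hv f1).1 0 e he z hz).2.1
  have r3 : M.hs (M.ev (φ + (-1 : ℝ) • fun e z => Real.log (T e z).det.re)) e z =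
      M.hw (φ + (-1 : ℝ) • fun e z => Real.log (T e z).det.re) e z := by
    refine hess_congr ?_
    filter_upwards [f2.ev he hz] with w hw
    exact congrArg _ hw
  have r4 : M.ric T e z = -M.hw (fun e z => Real.log (T e z).det.re) e z := rfl
  have r5 : T e z = M.hw φ e z + (ε • G) e z := rfl
  rw [r2, r3, (w5 e he z hz).1, (w3 e he z hz).2, r4] at r1
  simp only [Pi.add_apply]
  rw [r1, r5, neg_one_smul]
  abel

end A6c

open A6c in
theorem st_A6c (AU : HS.St_AUBIN) (A6r : St_A6r) (A6a : St_A6a) : St_A6c := by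
  intro n ρ M _ G q φ V σ C ε hn hG hφ h0 hL hC hQ hε
  have c1 := ((mHES n M).2.2.2.1 1 φ hφ).add (hG.toClo.smul ε)
  have m1 : M.Met (M.hw φ + ε • G) := (hG.toMet.smul hε).of_le c1.toForm fun e he z hz => by
    simpa using h0 e he z hz
  have hT : M.Kae (M.hw φ + ε • G) := ⟨c1, m1.pos⟩
  obtain ⟨v, hv, hK, hr⟩ := ric_low AU hn hφ hT
  have h := A6r n ρ M G _ q V σ C hG hK (fun e he z hz => by
    beta_reduce
    rw [hr e he z hz]
    exact (hG.toMet.smul hε).nonneg e he z hz) hL hC hQ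
  rw [A6a n M G _ _ V _ σ v hG.toMet hT hL.toAn hQ hv hK,
    A6a n M G _ _ V _ σ v hG.toMet hT hL.toAn (qf_kae hG V σ) hv hK,
    mCOH n M G _ v hG.toMet c1 hv] at h
  exact ⟨hT, h⟩

end Pool.Agent.Lib.RAA
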