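import Pool.Agent.Lib.RAA.T_TEN
import Pool.Agent.Lib.RAA.T_KQ
import Pool.Agent.Lib.HS32.MAll
import Pool.Agent.Lib.HS76.Diag

/-! Project ra1, step A: curvature of the norm of a holomorphic covariant tensor. -/

open scoped Classical Topology ContDiff ComplexOrder Matrix
open Set Complex Metric Filter

set_option linter.unusedVariables false

noncomputable section

namespace Pool.Agent.Lib.RAA.A4

open Pool.Agent.Lib.SV (E)
open Pool.Agent.Lib.HS32 Pool.Agent.Lib.HS32.Mf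

/-- The dual metric on covectors. -/
def dm {n : ℕ} (T : E n → Mat n) (w : E n) : Mat n := ((T w)ᵀ)⁻¹

/-- The squared norm of a covariant tensor. -/
def un {n : ℕ} (ρ : ℕ) (T : E n → Mat n) (s : E n → (Fin ρ → Fin n) → ℂ) (w : E n) : ℝ :=
  hq (kp ρ (dm T w)) (s w)

/-- Smooth at `z` and positive near `z`. -/
def Ok {n : ℕ} (T : E n → Mat n) (z : E n) : Prop := SmM T z ∧ ∀ᶠ w in 𝓝 z, (T w).PosDef

/-- Curvature of the norm of a holomorphic covariant tensor. -/
def St : Prop :=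
  (∀ (n ρ : ℕ) (T : E n → Mat n) (s : E n → (Fin ρ → Fin n) → ℂ) (z : E n),
    Ok T z →
    ((∀ K, ContDiffAt ℝ ∞ (fun w => s w K) z) → ContDiffAt ℝ ∞ (un ρ T s) z) ∧
    0 ≤ un ρ T s z ∧ (un ρ T s z = 0 ↔ s z = 0) ∧
    ((∀ᶠ w in 𝓝 z, ClM T w) → HolN s z → s z ≠ 0 → (T z - hess (ld T) z).PosSemidef →
      -(ρ * (T z).det.re) ≤ tp (T z).adjugate (hl (un ρ T s) z))) ∧
  ∀ (n ρ : ℕ) (M : Mf n) [M.Cpt] (H : M.Fam (Mat n)), M.Met H →
    (∃ C : ℝ, 0 < C ∧ M.All fun e z => ∀ s : E n → (Fin ρ → Fin n) → ℂ, HolN s z → s z ≠ 0 →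
      (hl (un ρ (H e) s) z + C • H e z).PosSemidef) ∧
    ∀ T, M.Met T → ∃ C : ℝ, 0 < C ∧ M.All fun e z => ∀ s : E n → (Fin ρ → Fin n) → ℂ,
      un ρ (T e) s z ≤ C * un ρ (H e) s z

variable {n : ℕ} {T : E n → Mat n} {z : E n}

/-- The coefficients of minus the curvature. -/
def am (T : E n → Mat n) (k l : Fin n) (z : E n) : Mat n :=
  dMb l (dM k T) z - dMb l T z * (T z)⁻¹ * dM k T z

theorem cv_eq (T : E n → Mat n) (v z : E n) :
    cv T v z = ∑ k, ∑ l, (v k * star (v l)) • am T k l z := by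
  have h1 : (Matrix.of fun i j => hV v (fun w => T w i j) z) =
      ∑ k, ∑ l, (v k * star (v l)) • dMb l (dM k T) z := by
    ext i j
    simp only [Matrix.of_apply, hV, dotProduct, Matrix.mulVec, hess_apply, Matrix.sum_apply,
      Matrix.smul_apply, smul_eq_mul, dMb_apply, Pi.star_apply, Finset.mul_sum]
    rw [Finset.sum_comm]
    refine Finset.sum_congr rfl fun k _ => Finset.sum_congr rfl fun l _ => ?_
    have : (fun w => dM k T w i j) = dz k fun w => T w i j := rfl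
    rw [this]
    ring
  have h2 : (Matrix.of fun i j => dVb v (fun w => T w i j) z) =
      ∑ l, star (v l) • dMb l T z := by
    ext i j
    simp only [Matrix.of_apply, dVb, Matrix.sum_apply, Matrix.smul_apply, smul_eq_mul, dMb_apply]
  have h3 : (Matrix.of fun i j => dV v (fun w => T w i j) z) = ∑ k, v k • dM k T z := by
    ext i j
    simp only [Matrix.of_apply, dV, Matrix.sum_apply, Matrix.smul_apply, smul_eq_mul, dM_apply]
  rw [cv, h1, h2, h3]
  simp only [am, smul_sub, Finset.sum_sub_distrib, Finset.sum_mul, Finset.mul_sum,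
    Matrix.smul_mul, Matrix.mul_smul, smul_smul]

theorem am_th (h : SmM T z) (h0 : (T z).det ≠ 0) (k l : Fin n) :
    T z * th T k l z = -am T k l z := by
  have c := (mCOF n T z h).2.2.2.2.1 h0
  have e : gam T k = fun w => (T w)⁻¹ * dM k T w := rfl
  rw [th, e, dMb_mul c.1 (h.dM k), (c.2 l).2, am]
  simp only [Matrix.mul_neg, Matrix.mul_add, Matrix.neg_mul, ← Matrix.mul_assoc,
    Matrix.mul_nonsing_inv _ h0.isUnit, Matrix.one_mul]
  abel

theorem Ok.pos (h : Ok T z) : (T z).PosDef := h.2.self_of_nhds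

theorem Ok.loc (h : Ok T z) : HS68.Loc T z := ⟨h.1, h.2.mono fun _ hw => hw.1, h.pos⟩

theorem am_ct (h : Ok T z) (k l : Fin n) : (am T k l z)ᴴ = am T l k z := by
  have := h.loc.mul_th_herm k l
  rwa [am_th h.1 (pd_det_ne h.pos), am_th h.1 (pd_det_ne h.pos), Matrix.conjTranspose_neg,
    neg_inj] at this

theorem cv_herm (h : Ok T z) (v : E n) :
    (cv T v z).IsHermitian := by
  rw [Matrix.IsHermitian, cv_eq]
  simp only [Matrix.conjTranspose_sum, Matrix.conjTranspose_smul, am_ct h]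
  rw [Finset.sum_comm]
  refine Finset.sum_congr rfl fun k _ => Finset.sum_congr rfl fun l _ => ?_
  rw [star_mul', star_star, mul_comm]

theorem smM_tr (h : SmM T z) : SmM (fun w => (T w)ᵀ) z := fun i j => h j i

theorem dm_ok (h : Ok T z) : Ok (dm T) z :=
  ⟨(smM_tr h.1).inv (pd_det_ne h.pos.transpose), h.2.mono fun w hw => hw.transpose.inv⟩

theorem am_dm (h : Ok T z) (k l : Fin n) :
    am (dm T) k l z = -(dm T z * (am T k l z)ᵀ * dm T z) := by
  set S : E n → Mat n := fun w => (T w)ᵀ with hS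
  have s0 : SmM S z := smM_tr h.1
  have c0 : SmM (dm T) z ∧ ∀ a, dM a (dm T) z = -(dm T z * dM a S z * dm T z) ∧
      dMb a (dm T) z = -(dm T z * dMb a S z * dm T z) :=
    (mCOF n S z s0).2.2.2.2.1 (pd_det_ne h.pos.transpose)
  have u : IsUnit (S z).det := (pd_det_ne h.pos.transpose).isUnit
  have c : ∀ᶠ w in 𝓝 z, dM k (dm T) w = -(dm T w * dM k S w * dm T w) := by
    filter_upwards [h.2.eventually_nhds, c0.1.ev_diff, s0.ev_diff] with w h1 h2 h3
    have e : (fun y => dm T y * S y) =ᶠ[𝓝 w] fun _ => 1 := h1.mono fun y hy =>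
      Matrix.nonsing_inv_mul _ (pd_det_ne hy.transpose).isUnit
    have e1 := dM_mul' (k := k) h2 h3
    have e2 : dM k (fun _ : E n => (1 : Mat n)) w = 0 := by
      ext i j
      simp [dz]
    have e3 : S w * dm T w = 1 :=
      Matrix.mul_nonsing_inv _ (pd_det_ne h1.self_of_nhds.transpose).isUnit
    rw [dM_congr e, e2] at e1
    rw [← Matrix.neg_mul, neg_eq_of_add_eq_zero_left e1.symm, Matrix.mul_assoc, e3, Matrix.mul_one]
  have e1 : dMb l (dM k (dm T)) z =
      dMb l (fun w => -(dm T w * dM k S w * dm T w)) z := dMb_congr c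
  have e2 : (am T k l z)ᵀ = dMb l (dM k S) z - dM k S z * dm T z * dMb l S z := by
    rw [am, Matrix.transpose_sub, Matrix.transpose_mul, Matrix.transpose_mul,
      Matrix.transpose_nonsing_inv, ← Matrix.mul_assoc]
    rfl
  have e3 : (dm T z)⁻¹ = S z := Matrix.nonsing_inv_nonsing_inv _ u
  have e4 : dm T z * S z = 1 := Matrix.nonsing_inv_mul _ u
  rw [am, e1, dMb_neg, dMb_mul (c0.1.mul (s0.dM k)) c0.1, dMb_mul c0.1 (s0.dM k), (c0.2 l).2,
    (c0.2 k).1, e2, e3]
  have e5 : -(dm T z * dMb l S z * dm T z) * S z = -(dm T z * dMb l S z) := by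
    rw [Matrix.neg_mul, Matrix.mul_assoc, e4, Matrix.mul_one]
  rw [e5]
  noncomm_ring

theorem cv_dm (h : Ok T z) (v : E n) :
    cv (dm T) v z = -(dm T z * (cv T v z)ᵀ * dm T z) := by
  rw [cv_eq, cv_eq]
  simp only [am_dm h, Matrix.transpose_sum, Matrix.transpose_smul, Finset.mul_sum, Finset.sum_mul,
    Matrix.mul_smul, Matrix.smul_mul, smul_neg, Finset.sum_neg_distrib]

theorem ric_eq (h : Ok T z) (hc : ∀ᶠ w in 𝓝 z, ClM T w) :
    ∑ k, ∑ l, (T z)⁻¹ k l • am T k l z = hess (ld T) z := by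
  have d0 := pd_det_ne h.pos
  have := congrArg (fun A => T z * A) (h.loc.ctr_th hc)
  simp only [Finset.mul_sum, Matrix.mul_smul, am_th h.1 d0, smul_neg, Finset.sum_neg_distrib,
    ← Matrix.mul_assoc, Matrix.mul_nonsing_inv _ d0.isUnit, Matrix.one_mul, HS68.ricF,
    neg_inj] at this
  exact this

theorem hq_add {ι : Type} [Fintype ι] (A B : Matrix ι ι ℂ) (b : ι → ℂ) :
    hq (A + B) b = hq A b + hq B b := by
  simp only [hq, Matrix.add_mulVec, dotProduct_add, add_re]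

theorem hq_smul {ι : Type} [Fintype ι] (c : ℝ) (A : Matrix ι ι ℂ) (b : ι → ℂ) :
    hq (c • A) b = c * hq A b := by
  simp only [hq, Matrix.smul_mulVec, dotProduct_smul, real_smul, re_ofReal_mul]

theorem hq_sum {ι κ : Type} [Fintype ι] [Fintype κ] (A : κ → Matrix ι ι ℂ) (b : ι → ℂ) :
    hq (∑ k, A k) b = ∑ k, hq (A k) b := by
  simp only [hq, Matrix.sum_mulVec, dotProduct_sum, re_sum]

theorem hq_nonneg {ι : Type} [Fintype ι] {A : Matrix ι ι ℂ} (h : A.PosSemidef) (b : ι → ℂ) :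
    0 ≤ hq A b := h.re_dotProduct_nonneg b

variable {ρ : ℕ} {s : E n → (Fin ρ → Fin n) → ℂ}

theorem base (h0 : St_TEN0) (h1 : St_TEN1) (hk : St_KQ)
    (h : Ok T z) :
    SmI (fun w => kp ρ (dm T w)) z ∧ (∀ᶠ w in 𝓝 z, (kp ρ (dm T w)).PosDef) ∧
    ∀ v, cv (fun w => kp ρ (dm T w)) v z = der ρ (dm T z) (cv (dm T) v z) := by
  have d := dm_ok h
  have t := fun v => h1 n ρ 0 (Fin n) (dm T) z v d.1 (pd_det_ne d.pos)
  exact ⟨(t 0).1, d.2.mono fun w hw =>
    ((hk ρ (Fin n) (Fin n) (Fin n)).2.2.2.2.1 fun _ => dm T w).2 fun _ => hw, fun v => (t v).2.1⟩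

theorem hol_cd (hs : HolN s z) (K : Fin ρ → Fin n) : HolN (fun w => s w K) z :=
  hs.mono fun w hw => differentiableAt_pi.1 hw K

theorem gram (h0 : St_TEN0) (h1 : St_TEN1) (hk : St_KQ)
    (h : Ok T z) (hs : HolN s z) (hz : s z ≠ 0) (v : E n) :
    hq (der ρ (dm T z) (cv (dm T) v z)) (s z) / un ρ T s z ≤ nq (hl (un ρ T s) z) v := by
  obtain ⟨b1, b2, b3⟩ := base (ρ := ρ) h0 h1 hk h
  have g := fun K => (mHOL n _ z).2.2 (hol_cd hs K)
  have := (h0 n _ (fun w => kp ρ (dm T w)) s z v b1 b2 fun K => (g K).1).2 (fun K => ?_) hz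
  · rwa [b3] at this
  · have a := ((mHOL n (fun w => s w K) z).1 (cd_diff (g K).1)).1 (hol_cd hs K).self_of_nhds
    exact ⟨by simp only [dVb, a, mul_zero, Finset.sum_const_zero],
      by rw [hV, (g K).2.2.1, Matrix.zero_mulVec, dotProduct_zero]⟩

theorem low (hk : St_KQ) {D A : Mat n} {c : ℝ} (hD : D.PosDef) (hA : (A + c • D).PosSemidef)
    {b : (Fin ρ → Fin n) → ℂ} (hb : 0 < hq (kp ρ D) b) :
    -(ρ * c) ≤ hq (der ρ D A) b / hq (kp ρ D) b := by
  have := hq_nonneg ((hk ρ (Fin n) (Fin n) (Fin n)).2.2.2.2.2.2.1 D A c hD hA) b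
  rw [hq_add, hq_smul] at this
  rw [le_div_iff₀ hb]
  linarith

theorem un_pos (h0 : St_TEN0) (h1 : St_TEN1) (hk : St_KQ)
    (h : Ok T z) (hz : s z ≠ 0) : 0 < un ρ T s z :=
  (base (ρ := ρ) h0 h1 hk h).2.1.self_of_nhds.re_dotProduct_pos hz

theorem trace_part (h0 : St_TEN0) (h1 : St_TEN1) (hk : St_KQ)
    (h : Ok T z) (hc : ∀ᶠ w in 𝓝 z, ClM T w) (hs : HolN s z)
    (hz : s z ≠ 0) (hr : (T z - hess (ld T) z).PosSemidef) :
    -(ρ * (T z).det.re) ≤ tp (T z).adjugate (hl (un ρ T s) z) := by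
  have p0 := h.pos
  have d0 := (dm_ok h).pos
  obtain ⟨W, hW⟩ := psd_factor p0.inv.posSemidef
  set Q := hl (un ρ T s) z with hQ
  have e1 : ((T z)⁻¹ * Q).trace.re = ∑ a, nq Q (star (W a)) := by
    rw [hW, Matrix.mul_assoc, Matrix.trace_mul_comm]
    simp only [Matrix.trace, Matrix.diag, re_sum, nq, star_star, dotProduct, Matrix.mulVec,
      Matrix.mul_apply, Matrix.conjTranspose_apply, Pi.star_apply, Finset.sum_mul, Finset.mul_sum]
    refine Finset.sum_congr rfl fun a _ => ?_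
    rw [Finset.sum_comm]
    exact Finset.sum_congr rfl fun i _ => Finset.sum_congr rfl fun j _ => by rw [mul_assoc]
  have e2 : ∑ a, cv T (star (W a)) z = hess (ld T) z := by
    rw [← ric_eq h hc]
    simp only [cv_eq]
    rw [Finset.sum_comm]
    refine Finset.sum_congr rfl fun k _ => ?_
    rw [Finset.sum_comm]
    refine Finset.sum_congr rfl fun l _ => ?_
    rw [← Finset.sum_smul, hW]
    simp only [Matrix.mul_apply, Matrix.conjTranspose_apply, Pi.star_apply, star_star]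
  have e3 : ∑ a, cv (dm T) (star (W a)) z = -(dm T z * (hess (ld T) z)ᵀ * dm T z) := by
    simp only [cv_dm h, ← e2, Matrix.transpose_sum, Finset.mul_sum, Finset.sum_mul,
      Finset.sum_neg_distrib]
  have e4 : (∑ a, cv (dm T) (star (W a)) z + (1 : ℝ) • dm T z).PosSemidef := by
    have := hr.transpose.conjTranspose_mul_mul_same (dm T z)
    have u : dm T z * (T z)ᵀ = 1 := Matrix.nonsing_inv_mul _ (pd_det_ne p0.transpose).isUnit
    rw [d0.1.eq, Matrix.transpose_sub, Matrix.mul_sub, Matrix.sub_mul, u, Matrix.one_mul] at this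
    rwa [e3, one_smul, neg_add_eq_sub]
  have e5 := low hk d0 e4 (un_pos h0 h1 hk h hz)
  rw [(hk ρ (Fin n) (Fin n) (Fin n)).2.2.2.2.2.2.2.1, hq_sum, Finset.sum_div, mul_one] at e5
  have e6 := e5.trans (Finset.sum_le_sum fun a _ => gram h0 h1 hk h hs hz (star (W a)))
  have e7 : (T z).adjugate = (T z).det.re • (T z)⁻¹ := by
    rw [BLAP.rs, herm_det p0.1, Matrix.inv_def, smul_smul, Ring.mul_inverse_cancel _
      (pd_det_ne p0).isUnit, one_smul]
  rw [tp, e7, Matrix.smul_mul, Matrix.trace_smul, real_smul, re_ofReal_mul, e1]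
  have := pd_det_re p0
  nlinarith [mul_le_mul_of_nonneg_left e6 this.le]

theorem psd_of {A : Mat n} (hA : A.IsHermitian) (h : ∀ v, 0 ≤ nq A v) : A.PosSemidef := by
  refine Matrix.PosSemidef.of_dotProduct_mulVec_nonneg hA fun v => ?_
  exact Complex.nonneg_iff.2 ⟨h v, (hA.im_star_dotProduct_mulVec_self v).symm⟩

theorem nq_add (A B : Mat n) (v : E n) : nq (A + B) v = nq A v + nq B v := hq_add A B v

theorem nq_smul (c : ℝ) (A : Mat n) (v : E n) : nq (c • A) v = c * nq A v := hq_smul c A v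

theorem nq_tr (A : Mat n) (y : E n) :
    star y ⬝ᵥ Aᵀ *ᵥ y = star (star y) ⬝ᵥ A *ᵥ star y := by
  rw [star_star, Matrix.dotProduct_mulVec, Matrix.vecMul_transpose, dotProduct_comm]

theorem nq_cj {D : Mat n} (hD : D.IsHermitian) (A : Mat n) (x : E n) :
    nq (D * Aᵀ * D) x = nq A (star (D *ᵥ x)) := by
  have := BBD.nq_conj Aᵀ D x
  rw [hD.eq] at this
  rw [this, nq, nq_tr, nq]

theorem cv_rm (h : SmM T z) (h0 : (T z).det ≠ 0) (v y : E n) :
    nq (cv T v z) y = -(rm T z v v y y).re := by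
  rw [nq, cv_eq, rm]
  simp only [am_th h h0, Matrix.sum_mulVec, dotProduct_sum, Matrix.smul_mulVec, dotProduct_smul,
    smul_eq_mul, Matrix.neg_mulVec, dotProduct_neg, mul_neg, Finset.sum_neg_distrib, neg_re,
    neg_neg]

theorem bound_part (h0 : St_TEN0) (h1 : St_TEN1) (hk : St_KQ)
    (h : Ok T z) (hs : HolN s z) (hz : s z ≠ 0) {C : ℝ}
    (hC : 0 ≤ C) (hb : ∀ v y, normSq (rm T z v v y y) ≤
      C ^ 2 * (nq (T z) v * nq (T z) v * nq (T z) y * nq (T z) y)) :
    (hl (un ρ T s) z + (ρ * C) • T z).PosSemidef := by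
  have p0 : SmM T z ∧ (T z).PosDef := ⟨h.1, h.pos⟩
  have d := dm_ok h
  have d0 := d.pos
  have up := un_pos h0 h1 hk h hz
  obtain ⟨b1, b2, b3⟩ := base (ρ := ρ) h0 h1 hk h
  have sm : ContDiffAt ℝ ∞ (un ρ T s) z := (h0 n _ (fun w => kp ρ (dm T w)) s z 0 b1 b2
    fun K => ((mHOL n _ z).2.2 (hol_cd hs K)).1).1
  refine psd_of ((hess_herm (sm.log up.ne')).add (herm_rsmul p0.2.1 _)) fun v => ?_
  have a : (cv (dm T) v z + (C * nq (T z) v) • dm T z).PosSemidef := by
    refine psd_of ((cv_herm d v).add (herm_rsmul d0.1 _)) fun x => ?_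
    have u : dm T z * (T z)ᵀ * dm T z = dm T z := by
      rw [show dm T z * (T z)ᵀ = 1 from
        Matrix.nonsing_inv_mul _ (pd_det_ne p0.2.transpose).isUnit, Matrix.one_mul]
    have e1 : nq (dm T z) x = nq (T z) (star (dm T z *ᵥ x)) := by
      rw [← nq_cj d0.1, u]
    have e2 : nq (cv (dm T) v z) x = (rm T z v v (star (dm T z *ᵥ x)) (star (dm T z *ᵥ x))).re := by
      rw [cv_dm h, ← neg_one_smul ℝ, nq_smul, nq_cj d0.1, cv_rm p0.1 (pd_det_ne p0.2)]
      ring
    rw [nq_add, nq_smul, e1, e2]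
    set y := star (dm T z *ᵥ x)
    have n1 : 0 ≤ nq (T z) v := p0.2.posSemidef.re_dotProduct_nonneg v
    have n2 : 0 ≤ nq (T z) y := p0.2.posSemidef.re_dotProduct_nonneg y
    have k := hb v y
    have k2 : (rm T z v v y y).re ^ 2 ≤ (C * nq (T z) v * nq (T z) y) ^ 2 := by
      rw [normSq_apply] at k
      nlinarith [mul_self_nonneg (rm T z v v y y).im]
    have := (abs_le_of_sq_le_sq' k2 (by positivity)).1
    linarith
  have g := (low hk d0 a up).trans (gram h0 h1 hk h hs hz v)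
  rw [nq_add, nq_smul]
  linarith

theorem main_of (h0 : St_TEN0) (h1 : St_TEN1) (hk : St_KQ) : St := by
  refine ⟨fun n ρ T s z h => ?_, fun n ρ M _ H hH => ⟨?_, fun T hT => ?_⟩⟩
  · obtain ⟨b1, b2, b3⟩ := base (ρ := ρ) h0 h1 hk h
    refine ⟨fun hs => (h0 n _ (fun w => kp ρ (dm T w)) s z 0 b1 b2 hs).1,
      hq_nonneg b2.self_of_nhds.posSemidef _, ⟨fun hu => ?_, fun hz => ?_⟩,
      fun hc hs hz hr => trace_part h0 h1 hk h hc hs hz hr⟩
    · by_contra hz
      exact (un_pos h0 h1 hk h hz).ne' hu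
    · simp only [un, hq, hz, Matrix.mulVec_zero, dotProduct_zero, zero_re]
  · obtain ⟨C, hC, hb⟩ := (mBD n M H hH).2.1
    refine ⟨(ρ + 1) * √C, by positivity, fun e he z hz s hs h0' => ?_⟩
    have hp := hH.pos e he z hz
    have := bound_part h0 h1 hk ⟨hH.sm e he z hz, hH.pos.ev he hz⟩ hs h0' (Real.sqrt_nonneg C)
      fun v y => by rw [Real.sq_sqrt hC.le]; exact hb e he z hz v v y y
    have := this.add (psd_rsmul hp.posSemidef (Real.sqrt_nonneg C))
    rwa [add_assoc, ← add_smul, ← add_one_mul] at this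
  · obtain ⟨C, hC, hb, -⟩ := (mBD n M T hT).1 H hH.toForm
    refine ⟨C ^ ρ, by positivity, fun e he z hz s => ?_⟩
    have p1 := (hH.pos e he z hz).transpose
    have p2 := (hT.pos e he z hz).transpose
    have a : ((C : ℂ) • (T e z)ᵀ - (H e z)ᵀ).PosSemidef := by
      have := (hb e he z hz).transpose
      rwa [Matrix.transpose_sub, Pi.smul_apply, Pi.smul_apply, Matrix.transpose_smul,
        BLAP.rs] at this
    have b := HS76.inv_le_of_le p2 p1 a
    rw [← BLAP.rs] at b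
    have k := hk ρ (Fin n) (Fin n) (Fin n)
    have c := hq_nonneg (k.2.2.2.2.2.1 _ _ p2.inv.posSemidef b) (s z)
    rw [k.2.2.2.1, sub_eq_add_neg, hq_add, ← neg_one_smul ℝ, hq_smul, hq_smul] at c
    simp only [un, dm]
    linarith

theorem main : St := main_of st_TEN0 st_TEN1 st_KQ

end Pool.Agent.Lib.RAA.A4
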