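import Pool.Agent.Lib.RAA.Blue
import Pool.Agent.Lib.RAA.T_A4

/-! The norm of covariant tensors and its curvature. -/

open scoped Classical Topology ContDiff ComplexOrder Matrix
open Set Complex Metric Filter

noncomputable section

namespace Pool.Agent.Lib.RAA

open Pool.Agent.Lib.SV (E)
open Pool.Agent.Lib.HS32

theorem st_A4 : St_A4 := by
  intro n ρ
  refine ⟨fun T s z h1 h2 hs => ?_, fun M _ G hG => ⟨?_, fun G' hG' => ?_⟩⟩
  · obtain ⟨a, b, c, d⟩ := A4.main.1 n ρ T s z ⟨h1, h2⟩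
    exact ⟨a fun K => ((mHOL n _ z).2.2 (A4.hol_cd hs K)).1, b, c.not, fun h0 hc hr => d hc hs h0 hr⟩
  · obtain ⟨C, hC, h⟩ := (A4.main.2 n ρ M G hG).1
    exact ⟨C, hC, fun e he z hz s hs h0 => by rw [add_comm]; exact h e he z hz s hs h0⟩
  · obtain ⟨C, hC, h⟩ := (A4.main.2 n ρ M G hG).2 G' hG'
    obtain ⟨C', hC', h'⟩ := (A4.main.2 n ρ M G' hG').2 G hG
    refine ⟨|Real.log C| + |Real.log C'|, fun e he z hz s h0 => ?_⟩
    have p : ∀ T, M.Met T → 0 < un ρ (T e) s z := fun T hT =>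
      A4.un_pos st_TEN0 st_TEN1 st_KQ ⟨hT.sm e he z hz, hT.pos.ev he hz⟩ h0
    have a : Real.log (un ρ (G' e) s z) ≤ Real.log C + Real.log (un ρ (G e) s z) := by
      rw [← Real.log_mul hC.ne' (p G hG).ne']
      exact Real.log_le_log (p G' hG') (h e he z hz s)
    have b : Real.log (un ρ (G e) s z) ≤ Real.log C' + Real.log (un ρ (G' e) s z) := by
      rw [← Real.log_mul hC'.ne' (p G' hG').ne']
      exact Real.log_le_log (p G hG) (h' e he z hz s)
    rw [abs_le]
    constructor <;> linarith [le_abs_self (Real.log C), le_abs_self (Real.log C'),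
      abs_nonneg (Real.log C), abs_nonneg (Real.log C')]

end Pool.Agent.Lib.RAA
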