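import Pool.Agent.Lib.RAA.Blue
import Pool.Agent.Lib.HS32.MKit

/-! The mass depends only on the class. -/

open scoped Classical Topology ComplexOrder Matrix
open Set MeasureTheory Complex

set_option linter.unusedVariables false

noncomputable section

namespace Pool.Agent.Lib.RAA

open Pool.Agent.Lib.SV (E)
open Pool.Agent.Lib.HS32 Pool.Agent.Lib.RA

namespace A6a

theorem kae {n : ℕ} {M : Mf n} {T h : M.Fam (Mat n)} (hT : M.Kae T) (h1 : M.Kae (T + h)) {s : ℝ}
    (hs : s ∈ Icc (0 : ℝ) 1) : M.Kae (T + s • h) := by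
  have e : T + s • h = (1 - s) • T + s • (T + h) := by module
  rw [e]
  refine ⟨(hT.toClo.smul _).add (h1.toClo.smul _), fun a ha z hz => ?_⟩
  rcases hs.2.eq_or_lt with rfl | h2
  · simpa using h1.pos a ha z hz
  · exact (Mf.pd_rsmul (hT.pos a ha z hz) (sub_pos.2 h2)).add_posSemidef
      (Mf.psd_rsmul (h1.pos a ha z hz).posSemidef hs.1)

end A6a

theorem st_A6a (hM : St_A6m) (hT : St_TOP2) : St_A6a := by
  intro n M _ G T Q V ι _ σ u hG h0 hA hQ hu h1
  obtain ⟨N, s, w, hs, he⟩ := (hT n).2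
  have h2 := fun l => (hM n M G _ Q V ι σ hG (A6a.kae h0 h1 (hs l)) hA hQ).2 u hu
  have h3 : ∀ x, pa M G (aj M (T + M.hs u)) Q x = pa M G (aj M T) Q x + ∑ l, w l *
      pa M G (fun e z => cf 1 ((T + s l • M.hs u) e z) (Q e z)) (M.hs u) x := fun x => by
    have h4 := sub_eq_iff_eq_add'.1 (he (M.ev T x) (M.ev (M.hs u) x) (M.ev Q x))
    have h5 : pa M G (aj M (T + M.hs u)) Q x = (((M.ev T x + M.ev (M.hs u) x).adjugate *
      M.ev Q x).trace / (M.ev G x).det).re := rfl
    rw [h5, h4, add_div, add_re, Finset.sum_div, re_sum]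
    refine congrArg₂ _ rfl (Finset.sum_congr rfl fun l _ => ?_)
    rw [real_smul, mul_div_assoc, re_ofReal_mul]
    rfl
  simp only [h3]
  rw [integral_add (hM n M G T Q V ι σ hG h0 hA hQ).1
    (integrable_finsetSum _ fun l _ => (h2 l).1.const_mul _),
    integral_finsetSum _ fun l _ => (h2 l).1.const_mul _]
  simp only [integral_const_mul, fun l => (h2 l).2, mul_zero, Finset.sum_const_zero, add_zero]

end Pool.Agent.Lib.RAA
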