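import Pool.Agent.Lib.RAA.T_EM1

/-! Project ra1, step A: the Hessian of a bounded function has no mass on an analytic set. -/

open scoped Classical Topology ContDiff ComplexOrder Matrix
open Set MeasureTheory Complex Metric Filter

noncomputable section

namespace Pool.Agent.Lib.RAA

open Pool.Agent.Lib.SV (E nsq)
open Pool.Agent.Lib.HS32 Pool.Agent.Lib.RA Pool.Agent.Lib.RA.EM

/-- The form in which the density is only defined outside the analytic set. -/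
theorem em2' {n : ℕ} {ι : Type} [Fintype ι] {O K : Set (E n)} {g : E n → ι → ℂ}
    {A : E n → Mat n} {ψ β : E n → ℝ} {C : ℝ} (hO : IsOpen O) (hg : DifferentiableOn ℂ g O)
    (hA : ∀ z ∈ O, g z ≠ 0 → SmM A z ∧ Dvf A z ∧ (A z).PosSemidef)
    (hi : ∀ L, IsCompact L → L ⊆ O → IntegrableOn (fun z => (A z).trace.re) (L ∩ {z | g z ≠ 0}))
    (hψ : ∀ z ∈ O, g z ≠ 0 → ContDiffAt ℝ ∞ ψ z ∧ |ψ z| ≤ C) (hβ : Tst O K β)
    (hj : IntegrableOn (fun z => tp (A z) (hr ψ z)) (K ∩ {z | g z ≠ 0})) :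
    IntegrableOn (fun z => β z * tp (A z) (hr ψ z)) (O ∩ {z | g z ≠ 0}) ∧
    IntegrableOn (fun z => ψ z * tp (A z) (hr β z)) (O ∩ {z | g z ≠ 0}) ∧
    ∫ z in O ∩ {z | g z ≠ 0}, β z * tp (A z) (hr ψ z) =
      ∫ z in O ∩ {z | g z ≠ 0}, ψ z * tp (A z) (hr β z) :=
  (EM1.pl hO hg).em2 (EM1.cur hA hi) hβ.cpt hβ.sub (fun z hz => (hψ z hz.1 hz.2).1)
    (fun z hz => (hψ z hz.2.1 hz.2.2).2) (hj.mono_set fun _ hz => ⟨hz.1, hz.2.2⟩) hβ.sm
    fun z hz => hβ.zero z hz.1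

theorem st_EM2 : St_EM2 := by
  intro n ι _ O K g A ψ β C hO hg _ hA hψ hβ _ hj
  exact (em2' hO hg (fun z hz _ => hA z hz) (fun L hL hs =>
    (ContinuousOn.integrableOn_compact hL fun z hz =>
      (cd_re (hA z (hs hz)).1.trace).continuousAt.continuousWithinAt).mono_set inter_subset_left)
    hψ hβ hj).2

end Pool.Agent.Lib.RAA
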