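import Pool.Agent.Lib.RAA.Tools
import Pool.Agent.Lib.RA.T_TOP

/-! Project ra1, step A: the coefficients of determinants and cofactors along a line. -/

open scoped Classical Topology ContDiff ComplexOrder Matrix Polynomial
open Matrix Finset Polynomial

noncomputable section

namespace Pool.Agent.Lib.RAA

open Pool.Agent.Lib.SV (E)
open Pool.Agent.Lib.HS32 Pool.Agent.Lib.RA28

namespace TTop

variable {n : ℕ}

theorem rs (r : ℝ) (A : Mat n) : r • A = (r : ℂ) • A := by ext; simp

theorem pm_eval (T c : Mat n) (t : ℂ) : (evalRingHom t).mapMatrix (pm T c) = T + t • c := by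
  ext a b
  simp [pm]
  exact mul_comm _ _

theorem psd_up' (W : Mat n) (f : Fin n → ℂ) (g : Fin n → ℝ) (hg : ∀ i, 0 ≤ g i)
    (e : ∀ i, f i = g i) : (W * diagonal f * Wᴴ).PosSemidef := by
  rw [funext e]; exact psd_up W g hg

theorem det_eval (T c : Mat n) (t : ℂ) : (pm T c).det.eval t = (T + t • c).det := by
  rw [← pm_eval, ← RingHom.map_det]; rfl

theorem adj_eval (T c : Mat n) (t : ℂ) (a b : Fin n) :
    ((pm T c).adjugate a b).eval t = (T + t • c).adjugate a b := by
  rw [← pm_eval, ← RingHom.map_adjugate]; rfl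

theorem det_deg (T c : Mat n) : (pm T c).det.natDegree ≤ n := by
  have := natDegree_det_X_add_C_le c T
  rwa [add_comm, Fintype.card_fin] at this

theorem adj_deg (T c : Mat n) (a b : Fin n) : ((pm T c).adjugate a b).natDegree ≤ n := by
  have e : (pm T c).updateRow b (Pi.single a 1) =
      pm (T.updateRow b (Pi.single a 1)) (c.updateRow b 0) := by
    ext1 p q
    simp only [pm, updateRow_apply, Matrix.add_apply, Matrix.smul_apply, map_apply]
    split_ifs
    · by_cases e : q = a <;> simp [e]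
    · rfl
  rw [adjugate_apply, e]
  exact det_deg _ _

theorem quad (N : ℕ) (x : Fin (N + 1) → ℝ) (hx : Function.Injective x) (u : Fin (N + 1) → ℝ) :
    ∃ γ : Fin (N + 1) → ℝ, ∀ P : ℂ[X], P.natDegree ≤ N →
      ∑ l, γ l • P.eval (x l : ℂ) = ∑ k : Fin (N + 1), (u k : ℂ) * P.coeff k := by
  have hV : IsUnit (vandermonde x).det := (det_vandermonde_ne_zero_iff.mpr hx).isUnit
  refine ⟨u ᵥ* (vandermonde x)⁻¹, fun P hP => ?_⟩
  have e : (u ᵥ* (vandermonde x)⁻¹) ᵥ* vandermonde x = u := by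
    rw [vecMul_vecMul, nonsing_inv_mul _ hV, vecMul_one]
  generalize u ᵥ* (vandermonde x)⁻¹ = γ at e
  have e2 : ∀ k : Fin (N + 1), (u k : ℂ) = ∑ l, (γ l : ℂ) * (x l : ℂ) ^ (k : ℕ) := fun k => by
    rw [← e]; simp [vecMul, dotProduct]
  simp only [e2, Finset.sum_mul, eval_eq_sum_range' (Nat.lt_succ_of_le hP), Finset.sum_range,
    Complex.real_smul, Finset.mul_sum]
  rw [Finset.sum_comm]
  exact Finset.sum_congr rfl fun k _ => Finset.sum_congr rfl fun l _ => by ring

theorem nodes (n j : ℕ) : ∃ γ : Fin (n + 1) → ℝ, ∀ T c : Mat n,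
    cf j T c = ∑ l, γ l • (T + ((l : ℕ) : ℝ) • c).adjugate ∧
    cd j T c = ∑ l, γ l • (T + ((l : ℕ) : ℝ) • c).det := by
  obtain ⟨γ, hγ⟩ := quad n (fun l => ((l : ℕ) : ℝ)) (fun a b h => Fin.ext (Nat.cast_injective (R := ℝ) h))
    fun k => if (k : ℕ) = j then 1 else 0
  have e : ∀ P : ℂ[X], P.natDegree ≤ n → P.coeff j = ∑ l, γ l • P.eval (((l : ℕ) : ℝ) : ℂ) := by
    intro P hP
    rw [hγ P hP]
    by_cases hj : j < n + 1
    · rw [Finset.sum_eq_single ⟨j, hj⟩]
      · simp
      · intro b _ hb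
        rw [if_neg fun h => hb (Fin.ext h)]; simp
      · simp
    · rw [coeff_eq_zero_of_natDegree_lt (by omega)]
      refine (Finset.sum_eq_zero fun k _ => ?_).symm
      rw [if_neg (by have := k.2; omega)]; simp
  refine ⟨γ, fun T c => ⟨?_, ?_⟩⟩
  · ext a b
    rw [cf, of_apply, e _ (adj_deg T c a b), Matrix.sum_apply]
    simp only [adj_eval, rs, Matrix.smul_apply, Complex.real_smul]
  · rw [cd, e _ (det_deg T c)]
    simp only [det_eval, rs]

theorem normSq_det (J : Mat n) : (Complex.normSq J.det : ℂ) = Jᴴ.det * J.det := by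
  rw [det_conjTranspose, Complex.normSq_eq_conj_mul_self]; rfl

theorem conj_comb (T c J : Mat n) (r : ℝ) :
    Jᴴ * T * J + r • (Jᴴ * c * J) = Jᴴ * (T + r • c) * J := by
  rw [Matrix.mul_add, Matrix.add_mul, Matrix.mul_smul, Matrix.smul_mul]

theorem cd_one (M c : Mat n) : cd 1 M c = (M.adjugate * c).trace := by
  have h := BCOF.leib_det (δ := (derivative (R := ℂ)).toAddMonoidHom) (fun a b => derivative_mul)
    (pm M c)
  have h1 : cd 1 M c = (derivative (pm M c).det).eval 0 := by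
    rw [← coeff_zero_eq_eval_zero, coeff_derivative]; simp [cd]
  rw [h1]
  change eval 0 ((derivative (R := ℂ)).toAddMonoidHom _) = _
  rw [h]
  simp only [trace, diag_apply, Matrix.mul_apply, eval_finsetSum, eval_mul, adj_eval]
  simp [pm]

theorem cf_symm (M h c : Mat n) : (cf 1 M h * c).trace = (cf 1 M c * h).trace := by
  obtain ⟨γ, hγ⟩ := nodes n 1
  have e : ∀ h c : Mat n, (cf 1 M h * c).trace = ∑ m, ∑ l : Fin (n + 1), γ m • γ l •
      (M + ((m : ℕ) : ℝ) • h + ((l : ℕ) : ℝ) • c).det := fun h c => by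
    rw [(hγ M h).1, Matrix.sum_mul, trace_sum]
    refine Finset.sum_congr rfl fun m _ => ?_
    rw [Matrix.smul_mul, trace_smul, ← cd_one, (hγ _ c).2, Finset.smul_sum]
  rw [e, e, Finset.sum_comm]
  exact Finset.sum_congr rfl fun m _ => Finset.sum_congr rfl fun l _ => by
    rw [smul_comm, add_right_comm]

/-- The trace of the cofactors along a line against a fixed matrix. -/
def tq (T h c : Mat n) : ℂ[X] := ∑ a, ∑ b, (pm T h).adjugate a b * C (c b a)

theorem tq_eval (T h c : Mat n) (t : ℂ) :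
    (tq T h c).eval t = ((T + t • h).adjugate * c).trace := by
  simp only [tq, eval_finsetSum, eval_mul, adj_eval, eval_C, trace, diag_apply, Matrix.mul_apply]

theorem tq_coeff (T h c : Mat n) (j : ℕ) : (tq T h c).coeff j = (cf j T h * c).trace := by
  simp only [tq, finsetSum_coeff, coeff_mul_C, trace, diag_apply, Matrix.mul_apply, cf, of_apply]

theorem tq_deg (T h c : Mat n) : (tq T h c).natDegree ≤ n :=
  natDegree_sum_le_of_forall_le _ _ fun a _ => natDegree_sum_le_of_forall_le _ _ fun b _ =>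
    (natDegree_mul_C_le _ _).trans (adj_deg T h a b)

theorem tq_deriv (T h c : Mat n) (s : ℂ) :
    (derivative (tq T h c)).eval s = (cf 1 (T + s • h) c * h).trace := by
  have e : tq (T + s • h) h c = taylor s (tq T h c) := Polynomial.funext fun t => by
    rw [taylor_eval, tq_eval, tq_eval, add_smul, add_assoc, add_comm (s • h)]
  rw [← taylor_coeff_one, ← e, tq_coeff, cf_symm]

section frame

variable {G B W : Mat n} {d : Fin n → ℝ}

theorem cd_fr (h : Fr G B W d) (j : ℕ) :
    cd j G B = G.det * (pp univ fun k => (d k : ℂ)).coeff j := by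
  have e : (pm G B).det = C G.det * pp univ fun k => (d k : ℂ) := Polynomial.funext fun t => by
    have := h.det_comb 1 t
    rw [one_smul] at this
    rw [det_eval, this, eval_mul, eval_C, pp_eval]
  rw [cd, e, coeff_C_mul]

theorem cf_fr (h : Fr G B W d) (j : ℕ) : cf j G B =
    G.det • (W * diagonal (fun l => (pp (univ.erase l) fun k => (d k : ℂ)).coeff j) * Wᴴ) := by
  ext a b
  have e : (pm G B).adjugate a b = C G.det * ∑ l, C (W a l) *
      (pp (univ.erase l) fun k => (d k : ℂ)) * C (Wᴴ l b) := Polynomial.funext fun t => by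
    have := h.adj_comb 1 t
    rw [one_smul] at this
    rw [adj_eval, this, Matrix.smul_apply, Matrix.mul_apply]
    simp only [eval_mul, eval_C, eval_finsetSum, pp_eval, mul_diagonal, smul_eq_mul]
  rw [cf, of_apply, e, Matrix.smul_apply, Matrix.mul_apply]
  simp only [coeff_C_mul, finsetSum_coeff, coeff_mul_C, mul_diagonal, smul_eq_mul]

theorem cd_top (h : Fr G B W d) {j : ℕ} (hj : B.rank ≤ j) : cd j G B = topD j G B := by
  have hc : (univ.filter fun k => d k ≠ 0).card ≤ j := h.rank ▸ hj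
  rw [cd_fr h, h.topD_eq hj, pp_coeff _ _ (by rwa [filt]), filt, aa, mul_comm]
  split_ifs <;> simp

theorem cf_top (h : Fr G B W d) {j : ℕ} (hj : B.rank ≤ j) : cf j G B = topS j G B := by
  have hc : (univ.filter fun k => d k ≠ 0).card ≤ j := h.rank ▸ hj
  rw [cf_fr h, h.topS_eq hj, up_smul, up_smul]
  congr 3
  funext l
  rw [pp_coeff _ _ (by rw [filt]; exact card_er hc l), filt, mul_comm (aa j d : ℂ), mul_assoc,
    ← aa_kz hc l]
  split_ifs <;> simp

end frame

theorem cd_eq {G B : Mat n} (hG : G.PosDef) (hB : B.PosSemidef) {j : ℕ} (hj : B.rank ≤ j) :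
    cd j G B = topD j G B ∧ cf j G B = topS j G B := by
  obtain ⟨W, d, h⟩ := exists_fr hG hB
  exact ⟨cd_top h hj, cf_top h hj⟩

theorem pp_one {ι : Type} (s : Finset ι) (d : ι → ℂ) : (pp s d).coeff 1 = ∑ k ∈ s, d k := by
  have e : ∀ s : Finset ι, (∏ k ∈ s, (C (d k) * X + 1 : ℂ[X])).coeff 0 = 1 ∧
      (∏ k ∈ s, (C (d k) * X + 1 : ℂ[X])).coeff 1 = ∑ k ∈ s, d k := fun s => by
    induction s using Finset.induction_on with
    | empty => simp [coeff_one]
    | insert a s ha ih =>
      rw [prod_insert ha, sum_insert ha, add_mul, one_mul, mul_assoc, coeff_add, coeff_add,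
        coeff_C_mul, coeff_C_mul, coeff_X_mul_zero, coeff_X_mul, ih.1, ih.2]
      simp
  rw [pp, (e _).2, sum_filter_ne_zero]

theorem scal {ι : Type} [Fintype ι] (t : Finset ι) (d : ι → ℝ) (hd : ∀ k, 0 ≤ d k) {s Q : ℝ}
    (hs : 1 ≤ s) (hQ : ∏ k, (1 + d k) ≤ Q) {j : ℕ} (hc : (t.filter fun k => d k ≠ 0).card ≤ j) :
    s ^ j * (if (t.filter fun k => d k ≠ 0).card = j then ∏ k ∈ t.filter (fun k => d k ≠ 0), d k
      else 0) ≤ ∏ k ∈ t, (1 + s * d k) ∧ ∏ k ∈ t, (1 + s * d k) ≤
    s ^ j * (if (t.filter fun k => d k ≠ 0).card = j then ∏ k ∈ t.filter (fun k => d k ≠ 0), d k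
      else 0) + Q * s ^ j / s := by
  have h0 : 0 < s := by linarith
  have e : ∏ k ∈ t, (1 + s * d k) = s ^ (t.filter fun k => d k ≠ 0).card *
      ∏ k ∈ t.filter (fun k => d k ≠ 0), (s⁻¹ + d k) := by
    rw [← prod_const, ← prod_mul_distrib, prod_filter]
    refine prod_congr rfl fun k _ => ?_
    split_ifs with e
    · field_simp
    · simp [not_not.mp e]
  obtain ⟨g1, g2, g3⟩ := prod_gap (t.filter fun k => d k ≠ 0) d hd (inv_pos.mpr h0).le
    (inv_le_one_of_one_le₀ hs)
  have g4 := (prod_sub_le (t.filter fun k => d k ≠ 0) d hd).trans hQ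
  have g5 : 0 ≤ ∏ k ∈ t.filter (fun k => d k ≠ 0), d k := prod_nonneg fun k _ => hd k
  have hp : 0 < s ^ j := pow_pos h0 j
  rw [e, mul_div_assoc, div_eq_mul_inv]
  split_ifs with e2
  · rw [e2]
    refine ⟨mul_le_mul_of_nonneg_left g1 hp.le, ?_⟩
    have := mul_le_mul_of_nonneg_left g4 (inv_pos.mpr h0).le
    nlinarith [mul_le_mul_of_nonneg_left (g3.trans this) hp.le]
  · rw [mul_zero, zero_add]
    refine ⟨mul_nonneg (pow_nonneg h0.le _) (g5.trans g1), ?_⟩
    obtain ⟨i, rfl⟩ : ∃ i, j = i + 1 := ⟨j - 1, by omega⟩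
    rw [pow_succ, mul_assoc, mul_inv_cancel₀ h0.ne', mul_one, mul_comm]
    exact mul_le_mul (g2.trans g4) (pow_le_pow_right₀ hs (by omega)) (pow_nonneg h0.le _)
      ((g5.trans g1).trans (g2.trans g4))

theorem ker_zero {B Q : Mat n} (hQ : Q.IsHermitian) (h0 : ∀ v, B *ᵥ v = 0 → 0 ≤ nq Q v)
    {v : Fin n → E n} (hv : ∀ i, B *ᵥ v i = 0) (hs : ∑ i, nq Q (v i) = 0) (c : Fin n → ℂ) :
    nq Q (∑ i, c i • v i) = 0 := by
  let V : Mat n := Matrix.of fun a i => v i a
  have e : ∀ c : Fin n → ℂ, V *ᵥ c = ∑ i, c i • v i := fun c => by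
    funext a; simp [V, mulVec, dotProduct, Finset.sum_apply, mul_comm]
  have e2 : ∀ c : Fin n → ℂ, star c ⬝ᵥ (Vᴴ * Q * V) *ᵥ c = star (V *ᵥ c) ⬝ᵥ Q *ᵥ V *ᵥ c :=
    fun c => by rw [star_mulVec, ← mulVec_mulVec, ← mulVec_mulVec, dotProduct_mulVec]
  have hH : (Vᴴ * Q * V).IsHermitian := isHermitian_conjTranspose_mul_mul V hQ
  have hM : (Vᴴ * Q * V).PosSemidef := by
    refine PosSemidef.of_dotProduct_mulVec_nonneg hH fun c => Complex.nonneg_iff.mpr ⟨?_, ?_⟩
    · rw [e2]
      refine h0 _ ?_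
      rw [e, mulVec_sum]
      exact Finset.sum_eq_zero fun i _ => by rw [mulVec_smul, hv, smul_zero]
    · exact (hH.im_star_dotProduct_mulVec_self c).symm
  have ht : (Vᴴ * Q * V).trace = 0 := by
    refine Complex.ext ?_ (Complex.nonneg_iff.mp hM.trace_nonneg).2.symm
    rw [Complex.zero_re, ← hs, trace, Complex.re_sum]
    refine Finset.sum_congr rfl fun i _ => ?_
    have := e2 (Pi.single i 1)
    rw [e] at this
    simp only [Pi.single_apply, ite_smul, one_smul, zero_smul, sum_ite_eq', mem_univ,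
      if_true] at this
    rw [nq, ← this]
    simp
  rw [← e, nq, ← e2, hM.trace_eq_zero_iff.mp ht]
  simp

end TTop

open TTop

theorem st_TOP0 : St_TOP0 := fun n j => by
  refine ⟨nodes n j, fun T c J => ?_⟩
  obtain ⟨γ, hγ⟩ := nodes n j
  rw [(hγ _ _).1, (hγ _ _).2, (hγ T c).1, (hγ T c).2, normSq_det]
  simp only [conj_comb, Finset.mul_sum, Matrix.sum_mul, Finset.smul_sum]
  refine ⟨Finset.sum_congr rfl fun l _ => ?_, Finset.sum_congr rfl fun l _ => ?_⟩
  · rw [det_mul, det_mul, Complex.real_smul, Complex.real_smul]; ring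
  · rw [adjugate_mul_distrib, adjugate_mul_distrib, Matrix.mul_smul, Matrix.smul_mul, smul_comm,
      ← Matrix.mul_assoc, ← Matrix.mul_assoc, mul_adjugate, Matrix.mul_assoc, adjugate_mul]
    simp only [Matrix.smul_mul, Matrix.mul_smul, Matrix.one_mul, Matrix.mul_one, smul_smul]

theorem st_TOP1 : St_TOP1 := fun n j H β hH hβ hj => by
  obtain ⟨W, d, h⟩ := exists_fr hH hβ
  have t := top hH hβ hj
  have hg : 0 < H.det.re := HS76.det_re_pos hH
  have hr : H.det = (H.det.re : ℂ) :=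
    Complex.ext rfl (by simpa using (Complex.lt_def.mp hH.det_pos).2.symm)
  have hD : topD j H β = ((topA j H β * H.det.re : ℝ) : ℂ) := by
    rw [t.dA, Complex.ofReal_mul, ← hr]
  have hc : (univ.filter fun k => d k ≠ 0).card ≤ j := h.rank ▸ hj
  rw [cd_top h hj, cf_top h hj]
  refine ⟨?_, ?_, t.psd, t.sb, t.le, t.tr, fun Q hQ h0 => ?_, fun K hK hKB => ⟨fun e => ?_, ?_⟩⟩
  · rw [hD]; exact_mod_cast mul_nonneg t.nonneg hg.le
  · rw [← t.pos, hD, Ne, Complex.ofReal_eq_zero, mul_eq_zero, or_iff_left hg.ne']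
    exact ⟨fun e => lt_of_le_of_ne t.nonneg (Ne.symm e), fun e => e.ne'⟩
  · obtain ⟨v, v0, v1, v2⟩ := t.ker
    have e : tp (topS j H β) Q = topA j H β * H.det.re * ∑ i, nq Q (v i) := by
      rw [tp, v2, hD, Complex.re_ofReal_mul, Complex.re_sum]; rfl
    refine ⟨e ▸ mul_nonneg (mul_nonneg t.nonneg hg.le) (sum_nonneg fun i _ => h0 _ (v0 i)),
      fun e1 e2 u hu => ?_⟩
    obtain ⟨c, rfl⟩ := v1 u hu
    rw [e, mul_eq_zero, or_iff_right (mul_pos (t.pos.mpr e1) hg).ne'] at e2
    exact ker_zero hQ h0 v0 e2 c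
  · have ha := t.pos.mpr e
    refine ⟨(til j H β)⁻¹, (t.tpd e).1.inv.posSemidef, (t.tpd e).2, ?_⟩
    rw [hD, Complex.ofReal_re, mul_div_mul_right _ _ hg.ne', rs]
    refine HS76.inv_le_of_le (t.tpd e).1 hH ?_
    have := (t.tlow K hK (by rwa [← rs])).smul
      (a := (((topA j H β)⁻¹ : ℝ) : ℂ)) (by exact_mod_cast (inv_pos.mpr ha).le)
    rwa [smul_sub, smul_smul, smul_smul, ← Complex.ofReal_mul, ← Complex.ofReal_mul,
      inv_mul_cancel₀ ha.ne', Complex.ofReal_one, one_smul, mul_comm, ← div_eq_mul_inv] at this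
  · intro s hs
    have hd : ∀ i, d i ≤ K := by
      have := (h.psd_down (fun i => K - d i) (A := K • H - β) (by
        have := h.comb K (-1)
        rw [rs]
        simpa [sub_eq_add_neg] using this)).mp hKB
      exact fun i => by linarith [this i]
    have hQ : ∏ k, (1 + d k) ≤ (2 * K) ^ n := by
      have : ∏ k, (1 + d k) ≤ ∏ _k : Fin n, 2 * K :=
        prod_le_prod (fun k _ => by linarith [h.hd k]) fun k _ => by linarith [hd k]
      simpa using this
    have e1 := h.det_comb 1 s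
    have e2 := h.adj_comb 1 s
    rw [one_smul, ← rs] at e1 e2
    have e3 : ∀ u : Finset (Fin n), ∏ k ∈ u, (1 + (s : ℂ) * (d k : ℂ)) =
      ((∏ k ∈ u, (1 + s * d k) : ℝ) : ℂ) := fun u => by push_cast; rfl
    have hx := fun l => scal (univ.erase l) d h.hd hs hQ (card_er hc l)
    refine ⟨?_, ?_, ?_⟩
    · rw [e1, e3, Complex.re_mul_ofReal, mul_comm]
      refine mul_le_mul_of_nonneg_right ?_ hg.le
      have hK1 : 1 ≤ K * s := one_le_mul_of_one_le_of_one_le hK hs
      calc ∏ k, (1 + s * d k) = ∏ k ∈ univ.filter (fun k => d k ≠ 0), (1 + s * d k) :=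
            (prod_filter_of_ne (f := fun k => 1 + s * d k) (p := fun k => d k ≠ 0)
              fun k _ e e' => e (by simp [e'])).symm
        _ ≤ ∏ _k ∈ univ.filter (fun k => d k ≠ 0), 2 * K * s :=
            prod_le_prod (fun k _ => by nlinarith [h.hd k]) fun k _ => by nlinarith [hd k]
        _ ≤ _ := by rw [prod_const]; exact pow_le_pow_right₀ (by linarith) hc
    · rw [e2, h.topS_eq hj, rs, up_smul, up_smul, up_smul, ← Matrix.sub_mul, ← Matrix.mul_sub,
        diagonal_sub]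
      refine psd_up' W _ _ (fun l => mul_nonneg hg.le (sub_nonneg.mpr (hx l).1)) fun l => ?_
      rw [e3, Complex.ofReal_mul, ← hr, Complex.ofReal_sub, Complex.ofReal_mul, aa_kz hc]
      ring
    · rw [e2, h.topS_eq hj, rs, rs, h.inv, up_smul, up_smul, up_smul, add_sub_assoc, up_sub,
        ← Matrix.add_mul, ← Matrix.mul_add, diagonal_add]
      refine psd_up' W _ _ (fun l => mul_nonneg hg.le (sub_nonneg.mpr (hx l).2)) fun l => ?_
      rw [e3, Complex.ofReal_mul, Complex.ofReal_mul, ← hr, Complex.ofReal_sub, Complex.ofReal_add,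
        Complex.ofReal_mul (s ^ j), aa_kz hc]
      ring

theorem st_TOP2 : St_TOP2 := fun n => by
  refine ⟨fun T c hT hc => ?_, ?_⟩
  · obtain ⟨W, d, h⟩ := exists_fr hT hc
    have hg : 0 < T.det.re := HS76.det_re_pos hT
    have hr : T.det = (T.det.re : ℂ) :=
      Complex.ext rfl (by simpa using (Complex.lt_def.mp hT.det_pos).2.symm)
    rw [← cd_one, cd_fr h, cf_fr h, h.inv, up_smul, up_sub, hr]
    simp only [pp_one, ← Complex.ofReal_sum, ← Complex.ofReal_mul, ← Complex.ofReal_sub]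
    refine ⟨psd_up W _ fun l => mul_nonneg hg.le (sum_nonneg fun k _ => h.hd k),
      psd_up W _ fun l => sub_nonneg.mpr (mul_le_mul_of_nonneg_left ?_ hg.le)⟩
    exact sum_le_sum_of_subset_of_nonneg (subset_univ _) fun k _ _ => h.hd k
  · have hn : (0 : ℝ) < n + 1 := by positivity
    obtain ⟨w, hw⟩ := quad n (fun l => ((l : ℕ) : ℝ) / (n + 1))
      (fun a b e => Fin.ext (by exact_mod_cast (div_left_inj' hn.ne').mp e))
      fun k => 1 / (((k : ℕ) : ℝ) + 1)
    refine ⟨n + 1, fun l => ((l : ℕ) : ℝ) / (n + 1), w, fun l => ⟨by positivity, ?_⟩,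
      fun T h c => ?_⟩
    · rw [div_le_one hn]; exact_mod_cast l.2.le
    · have e := hw (derivative (tq T h c))
        ((natDegree_derivative_le _).trans ((Nat.sub_le _ _).trans (tq_deg T h c)))
      simp only [tq_deriv, ← rs] at e
      have e1 := tq_eval T h c 1
      have e0 := tq_eval T h c 0
      rw [one_smul] at e1
      rw [zero_smul, add_zero] at e0
      rw [e, ← e1, ← e0, ← coeff_zero_eq_eval_zero,
        eval_eq_sum_range' (n := n + 1 + 1) (by have := tq_deg T h c; omega), sum_range_succ',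
        Finset.sum_range]
      simp only [one_pow, mul_one, add_sub_cancel_right, coeff_derivative]
      refine Finset.sum_congr rfl fun k _ => ?_
      have : ((k : ℕ) : ℂ) + 1 ≠ 0 := by exact_mod_cast Nat.succ_ne_zero k
      push_cast
      field_simp

end Pool.Agent.Lib.RAA
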