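import Pool.Agent.Lib.RAA.Blue
import Pool.Agent.Lib.RA.T_NUL
import Pool.Agent.Lib.HS32.MAll

/-! Block CHI: integration in the charts of a covering. -/

open scoped Classical Topology ContDiff ENNReal
open Set MeasureTheory Complex Metric Filter

noncomputable section

namespace Pool.Agent.Lib.RAA

open Pool.Agent.Lib.SV (E)
open Pool.Agent.Lib.HS32 Pool.Agent.Lib.RA BMU

namespace CHI

variable {n : ℕ} {M : Mf n} {T : M.Fam (Mat n)} {μ : Measure M.X} {e : M.Ch} {B : Set (E n)}

theorem bl_sub (V : M.Cov) (a : Fin V.r) : bl M V a ⊆ (V.e a).target :=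
  ball_subset_closedBall.trans (V.sub a)

theorem cb_sub (V : M.Cov) (a : Fin V.r) : closedBall (V.c a) (2 * V.ρ a) ⊆ bl M V a :=
  closedBall_subset_ball (by linarith [V.pos a])

theorem b_sub (V : M.Cov) (a : Fin V.r) :
    ball (V.c a) (V.ρ a) ⊆ closedBall (V.c a) (2 * V.ρ a) :=
  ball_subset_closedBall.trans (closedBall_subset_closedBall (by linarith [V.pos a]))

/-- integrability in a chart -/
theorem intg (h : M.Met T) (hμ : M.IsMu T μ) (he : e ∈ M.C) (hB : MeasurableSet B)
    (hs : B ⊆ e.target) (g : M.X → ℝ) : IntegrableOn g (e.symm '' B) μ ↔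
      IntegrableOn (fun z => (T e z).det.re * g (e.symm z)) B := by
  obtain ⟨κ, h1, h2⟩ := fac e _ (res_tgt T e hs)
  have h3 : Integrable g (cm T e B) ↔
      Integrable (fun z => g (e.symm z)) ((volume.restrict B).withDensity (rho T e)) := by
    rw [cm, h2, h1, (emb e).integrable_map_iff,
      (MeasurableEmbedding.subtype_coe (tgt e)).integrable_map_iff]
    rfl
  rw [IntegrableOn, res hμ he hB hs, h3, integrable_withDensity_iff_integrable_smul₀'
    (aem h.toTen he hB hs) (ae_of_all _ fun _ => ENNReal.ofReal_lt_top)]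
  refine integrableOn_congr_fun (fun z hz => ?_) hB
  simp only [rho, ENNReal.toReal_ofReal (pos h he (hs hz)).1.le, smul_eq_mul]

/-- null sets in a chart -/
theorem null (h : M.Ten T) (hμ : M.IsMu T μ) (he : e ∈ M.C) (hs : B ⊆ e.target)
    (h0 : volume B = 0) : μ (e.symm '' B) = 0 := by
  obtain ⟨A, a1, a2, a3⟩ := exists_measurable_superset_of_null h0
  refine measure_mono_null (image_mono (subset_inter a1 hs)) ?_
  rw [val h hμ he (a2.inter (tgt e)) inter_subset_right]
  exact setLIntegral_measure_zero _ _ (measure_mono_null inter_subset_left a3)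

end CHI

open CHI in
theorem st_CHI : St_CHI := by
  intro n M _ G V hG
  obtain ⟨hμ, -, hop, -, -, hch, -⟩ := mMU n M G hG
  refine ⟨fun a => ⟨isCompact_closedBall _ _, cb_sub V a, fun z hz =>
    (V.sm a _ (V.mem a) z (bl_sub V a hz)).pow 2, fun z hz h => ?_⟩, fun N hN => ?_,
    fun ι _ σ hσ => ?_⟩
  · by_contra h0
    have := (V.supp a _ fun q => h0 (by rw [q]; simp)).2
    rw [(V.e a).right_inv (bl_sub V a hz)] at this
    exact h (ball_subset_closedBall this)
  · refine measure_mono_null (fun x hx => ?_) (measure_iUnion_null fun a =>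
      null hG.toTen hμ (V.mem a) (fun z hz => bl_sub V a hz.1) (hN a))
    obtain ⟨a, a1, a2, -⟩ := V.cov x
    exact mem_iUnion.2 ⟨a, V.e a x, ⟨cb_sub V a (b_sub V a a2), by rwa [(V.e a).left_inv a1]⟩,
      (V.e a).left_inv a1⟩
  have nul := fun a => st_NULH (E n) (ι → ℂ) volume _ (σ a) isOpen_ball
    (convex_ball _ _).isPreconnected (hσ.hol a) (hσ.nz a)
  have z0 : ∀ a, volume (bl M V a ∩ {z | σ a z = 0}) = 0 := fun a =>
    measure_eq_zero_iff_ae_notMem.2 ((nul a).1.mono fun z h hz => h hz.1 hz.2)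
  have op : ∀ a, IsOpen (bl M V a ∩ {z | σ a z ≠ 0}) := fun a =>
    (hσ.hol a).continuousOn.isOpen_inter_preimage isOpen_ball isOpen_compl_singleton
  have ae : ∀ᵐ x ∂M.mu G, ∃ a, x ∈ (V.e a).source ∧
      V.e a x ∈ closedBall (V.c a) (2 * V.ρ a) ∧ σ a (V.e a x) ≠ 0 := by
    refine measure_mono_null (fun x hx => ?_) (measure_iUnion_null fun a =>
      null hG.toTen hμ (V.mem a) (fun z hz => bl_sub V a hz.1) (z0 a))
    obtain ⟨a, a1, a2, -⟩ := V.cov x
    exact mem_iUnion.2 ⟨a, V.e a x, ⟨cb_sub V a (b_sub V a a2),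
      by_contra fun q => hx ⟨a, a1, b_sub V a a2, q⟩⟩, (V.e a).left_inv a1⟩
  have ae' : ∀ᵐ x ∂M.mu G, x ∈ gd M V σ := ae.mono fun x ⟨a, a1, a2, a3⟩ =>
    ⟨a, a1, cb_sub V a a2, a3⟩
  refine ⟨?_, ae', Measure.dense_of_ae ae', fun a => ⟨z0 a, fun z hz => ⟨(nul a).2 z hz,
    fun h => ⟨a, (V.e a).map_target (bl_sub V a hz), ?_⟩⟩⟩, fun g => ⟨fun h => ?_, fun h => ?_,
    fun a h => ?_⟩⟩
  · have := isOpen_iUnion fun a => (V.e a).isOpen_inter_preimage (op a)
    convert this using 1
    ext x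
    simp [gd]
  · rw [(V.e a).right_inv (bl_sub V a hz)]
    exact ⟨hz, h⟩
  · have ms : ∀ a, MeasurableSet (closedBall (V.c a) (2 * V.ρ a) ∩ {z | σ a z ≠ 0}) := fun a => by
      convert (measurableSet_closedBall (x := V.c a) (ε := 2 * V.ρ a)).inter (op a).measurableSet
        using 1
      rw [← inter_assoc, inter_eq_left.2 (cb_sub V a)]
    have := integrableOn_finite_iUnion.2 fun a => (intg hG hμ (V.mem a) (ms a)
      (fun z hz => bl_sub V a (cb_sub V a hz.1)) g).2 (h a)
    rw [IntegrableOn, Measure.restrict_eq_self_of_ae_mem] at this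
    exacts [this, ae.mono fun x ⟨a, a1, a2⟩ => mem_iUnion.2 ⟨a, V.e a x, a2, (V.e a).left_inv a1⟩]
  · have i1 : ∀ a, Integrable (fun x => V.χ a x ^ 2 * g x) (M.mu G) := fun a =>
      h.bdd_mul (c := 1) ((((mTR n M).2.2.2.1 ℝ _).1 (V.sm a)).pow 2).aestronglyMeasurable
        (ae_of_all _ fun x => by
          rw [Real.norm_of_nonneg (sq_nonneg _), ← V.sum x]
          exact Finset.single_le_sum (fun b _ => sq_nonneg (V.χ b x)) (Finset.mem_univ a))
    refine ⟨?_, fun a => ⟨i1 a, (intg hG hμ (V.mem a) measurableSet_ball (bl_sub V a) g).1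
      h.integrableOn⟩⟩
    rw [← integral_finsetSum _ fun a _ => i1 a]
    simp only [← Finset.sum_mul, V.sum, one_mul]
  · rw [(hch _ (V.mem a) _ measurableSet_ball (bl_sub V a)).2.2.2.2.1 g fun x hx =>
      by_contra fun q => hx ⟨_, (h x q).2, (V.e a).left_inv (h x q).1⟩]
    refine setIntegral_congr_set ?_
    filter_upwards [(nul a).1] with z hz
    exact propext ⟨fun q => ⟨q, hz q⟩, fun q => q.1⟩

end Pool.Agent.Lib.RAA
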