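import Pool.Agent.Lib.RAA.Tools
import Pool.Agent.Lib.HS32.MAll
import Pool.Agent.Lib.HS76.Pt

/-! Finite mass of the Hessian of the logarithm of a non-negative function. -/

open scoped Classical Topology ContDiff ComplexOrder Matrix ENNReal
open Set MeasureTheory Complex Metric Filter

set_option linter.unusedVariables false

noncomputable section

namespace Pool.Agent.Lib.RAA

open Pool.Agent.Lib.SV (E)
open Pool.Agent.Lib.HS32
open Pool.Agent.Lib.HS66

namespace EM3

variable {n : ℕ} {z : E n}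

theorem hess_log {V : E n → ℝ} (hV : ContDiffAt ℝ ∞ V z) (h0 : V z ≠ 0) :
    hl V z = (V z)⁻¹ • hr V z -
      ((V z)⁻¹ ^ 2) • dd (fun w => (V w : ℂ)) (fun w => (V w : ℂ)) z := by
  ext i j
  have hc := cd_ofReal hV
  have h0' : ((V z : ℝ) : ℂ) ≠ 0 := ofReal_ne_zero.2 h0
  have e : dz j (fun w => ((Real.log (V w) : ℝ) : ℂ)) =ᶠ[𝓝 z]
      fun w => ((V w : ℝ) : ℂ)⁻¹ * dz j (fun w => (V w : ℂ)) w := by
    filter_upwards [cd_ev_diff hV, hV.continuousAt.eventually_ne h0] with w h1 h2
    rw [dz_comp_real (Real.hasDerivAt_log h2) h1, ofReal_inv]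
  have h1 : DifferentiableAt ℝ (fun w => ((V w : ℝ) : ℂ)⁻¹) z := cd_diff (hc.inv h0')
  simp only [hl, hr, hess_apply, Matrix.sub_apply, Matrix.smul_apply, dd_apply, real_smul]
  rw [dzb_congr e, dzb_mul h1 (cd_diff (cd_dz hc j)), dzb_inv (cd_diff hc) h0']
  push_cast
  field_simp
  ring

theorem dd_psd {V : E n → ℝ} (hV : ContDiffAt ℝ ∞ V z) :
    (dd (fun w => (V w : ℂ)) (fun w => (V w : ℂ)) z).PosSemidef := by
  have : dd (fun w => (V w : ℂ)) (fun w => (V w : ℂ)) z =
      Matrix.vecMulVec (star fun j => dz j (fun w => (V w : ℂ)) z)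
        fun j => dz j (fun w => (V w : ℂ)) z := by
    ext i j
    simp only [dd_apply, Matrix.vecMulVec_apply, Pi.star_apply,
      star_dz_ofReal (cd_diff (cd_ofReal hV))]
  rw [this]
  exact Matrix.posSemidef_vecMulVec_star_self _

theorem shift {U : E n → ℝ} (hU : ContDiffAt ℝ ∞ U z) (ε : ℝ) :
    hr (fun w => U w + ε) z = hr U z ∧
      dd (fun w => ((U w + ε : ℝ) : ℂ)) (fun w => ((U w + ε : ℝ) : ℂ)) z =
        dd (fun w => (U w : ℂ)) (fun w => (U w : ℂ)) z := by
  have hc := cd_ofReal hU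
  simp only [hr, ofReal_add]
  refine ⟨by rw [hess_add hc contDiffAt_const, hess_const, add_zero], ?_⟩
  ext i j
  rw [dd_apply, dd_apply, dzb_add (cd_diff hc) (differentiableAt_const _),
    dz_add (cd_diff hc) (differentiableAt_const _), dz_const, dzb_const, add_zero, add_zero]

/-- The regularised logarithm is quasi-plurisubharmonic with the same constant. -/
theorem reg {U : E n → ℝ} (hU : ContDiffAt ℝ ∞ U z) (h0 : ∀ᶠ w in 𝓝 z, 0 ≤ U w) {A ε : ℝ}
    (hA : 0 ≤ A) (hε : 0 < ε) (h : U z ≠ 0 → (hl U z + A • (1 : Mat n)).PosSemidef) :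
    (hl (fun w => U w + ε) z + A • (1 : Mat n)).PosSemidef ∧ (U z ≠ 0 →
      (hl (fun w => U w + ε) z + A • (1 : Mat n) -
        (U z / (U z + ε)) • (hl U z + A • (1 : Mat n))).PosSemidef) := by
  have hz : 0 ≤ U z := h0.self_of_nhds
  have hp : 0 < U z + ε := by linarith
  obtain ⟨s1, s2⟩ := shift hU ε
  have e := hess_log (V := fun w => U w + ε) (hU.add contDiffAt_const) hp.ne'
  rw [s1, s2] at e
  have key : U z ≠ 0 → (hl (fun w => U w + ε) z + A • (1 : Mat n) -
      (U z / (U z + ε)) • (hl U z + A • (1 : Mat n))).PosSemidef := fun hne => by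
    have hpos : 0 < U z := lt_of_le_of_ne hz hne.symm
    have e2 : hl (fun w => U w + ε) z + A • (1 : Mat n) -
        (U z / (U z + ε)) • (hl U z + A • (1 : Mat n)) =
        (ε / (U z * (U z + ε) ^ 2)) • dd (fun w => (U w : ℂ)) (fun w => (U w : ℂ)) z +
          (A * ε / (U z + ε)) • (1 : Mat n) := by
      rw [e, hess_log hU hne]
      have a1 : U z / (U z + ε) * (U z)⁻¹ = (U z + ε)⁻¹ := by field_simp
      have a2 : ε / (U z * (U z + ε) ^ 2) =
        U z / (U z + ε) * (U z)⁻¹ ^ 2 - (U z + ε)⁻¹ ^ 2 := by field_simp; ring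
      have a3 : A * ε / (U z + ε) = A - U z / (U z + ε) * A := by field_simp; ring
      rw [a2, a3, smul_add, smul_sub, smul_smul, smul_smul, smul_smul, a1, sub_smul, sub_smul]
      abel
    rw [e2]
    exact ((dd_psd hU).smul (by positivity)).add (Matrix.PosSemidef.one.smul (by positivity))
  refine ⟨?_, key⟩
  by_cases hne : U z = 0
  · have hm : IsLocalMax (fun w => -U w) z := h0.mono fun w hw => by
      simp only [hne]; linarith
    obtain ⟨m1, m2⟩ := mMAXE n _ z hU.neg hm
    simp only [ofReal_neg, hess_neg, neg_neg, dz_neg, dzb_neg, neg_eq_zero] at m1 m2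
    have e3 : dd (fun w => (U w : ℂ)) (fun w => (U w : ℂ)) z = 0 := by
      ext i j
      rw [dd_apply, (m2 j).1, mul_zero, Matrix.zero_apply]
    rw [e, e3, smul_zero, sub_zero]
    exact (m1.smul (inv_nonneg.2 hp.le)).add (Matrix.PosSemidef.one.smul hA)
  · have := (key hne).add ((h hne).smul (div_nonneg hz hp.le))
    rwa [sub_add_cancel] at this

theorem exists_ker {ρ : ℝ} (hρ : 0 < ρ) : ∃ (g : E n → ℝ) (c : ℝ), 0 < c ∧ Ker g (3 * ρ) ∧
    ∀ t ∈ ball (0 : E n) (2 * ρ), c ≤ g t := by
  set q : E n → ℝ := fun t => max 0 (3 * ρ - ‖t‖) with hq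
  have hs : Continuous q := by fun_prop
  have hsupp : ∀ t, q t ≠ 0 → ‖t‖ ≤ 3 * ρ := fun t ht => by
    by_contra h
    exact ht (max_eq_left (by linarith [not_le.1 h]))
  have hc : HasCompactSupport q :=
    HasCompactSupport.intro (isCompact_closedBall 0 (3 * ρ)) fun t ht => by
      by_contra h
      exact ht (mem_closedBall_zero_iff.2 (hsupp t h))
  have hpos : 0 < ∫ t, q t :=
    hs.integral_pos_of_hasCompactSupport_nonneg_nonzero hc (fun t => le_max_left _ _) (x := 0)
      (by simp [hq, hρ])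
  refine ⟨fun t => q t / ∫ t, q t, ρ / ∫ t, q t, by positivity, ⟨hs.div_const _,
    fun t => div_nonneg (le_max_left _ _) hpos.le,
    fun t ht => hsupp t fun h => ht (by rw [h, zero_div]), fun u t hu => ?_, ?_⟩, fun t ht => ?_⟩
  · simp [hq, norm_smul, hu]
  · rw [integral_div, div_self hpos.ne']
  · refine div_le_div_of_nonneg_right (le_max_of_le_right ?_) hpos.le
    linarith [mem_ball_zero_iff.1 ht]

/-- The mean of a non-positive quasi-plurisubharmonic function is bounded by one value. -/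
theorem loc {g : E n → ℝ} {c ρ : ℝ} (hρ : 0 < ρ) (hg : Ker g (3 * ρ))
    (hc : ∀ t ∈ ball (0 : E n) (2 * ρ), c ≤ g t) {w : E n → ℝ} {A : ℝ} (hA : 0 ≤ A) {x y : E n}
    (hy : y ∈ ball x ρ) (hw : ∀ z ∈ closedBall x (4 * ρ), ContDiffAt ℝ 2 w z ∧ w z ≤ 0 ∧
      ∀ v, -(A * ‖v‖ ^ 2) ≤ lv w z v) :
    c * ∫ z in ball x ρ, -w z ≤ -w y + A * (3 * ρ) ^ 2 / 4 := by
  have hw0 : ContinuousOn w (closedBall x (4 * ρ)) := fun z hz =>
    (hw z hz).1.continuousAt.continuousWithinAt
  have h1 : ∀ z ∉ closedBall x (4 * ρ), g (y - z) = 0 := fun z hz => by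
    by_contra h
    have h2 := hg.supp _ h
    rw [← dist_eq_norm, dist_comm] at h2
    exact hz (mem_closedBall.2 (by linarith [mem_ball.1 hy, dist_triangle z y x]))
  have h2 : Integrable fun z => g (y - z) * w z :=
    IntegrableOn.integrable_of_forall_notMem_eq_zero (s := closedBall x (4 * ρ))
      (ContinuousOn.integrableOn_compact (isCompact_closedBall _ _)
        ((hg.cont.comp (continuous_const.sub continuous_id)).continuousOn.mul hw0))
      fun z hz => by rw [h1 z hz, zero_mul]
  have h3 := hg.submean (x := y) hA (by positivity) fun z hz => by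
    have : z ∈ closedBall x (4 * ρ) := by
      rw [mem_closedBall] at hz ⊢
      linarith [dist_triangle z y x, mem_ball.1 hy]
    exact ⟨(hw z this).1, (hw z this).2.2⟩
  rw [← integral_sub_left_eq_self _ volume y] at h3
  simp only [sub_sub_cancel, smul_eq_mul] at h3
  have hb : ball x ρ ⊆ closedBall x (4 * ρ) :=
    ball_subset_closedBall.trans (closedBall_subset_closedBall (by linarith))
  have h4 : ∫ z in ball x ρ, -(g (y - z) * w z) ≤ ∫ z, -(g (y - z) * w z) :=
    setIntegral_le_integral h2.neg (.of_forall fun z => by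
      by_cases hz : z ∈ closedBall x (4 * ρ)
      · exact neg_nonneg.2 (mul_nonpos_of_nonneg_of_nonpos (hg.nn _) (hw z hz).2.1)
      · simp [h1 z hz])
  have h5 : ∫ z in ball x ρ, c * -w z ≤ ∫ z in ball x ρ, -(g (y - z) * w z) := by
    refine setIntegral_mono_on
      (((hw0.integrableOn_compact (isCompact_closedBall _ _)).mono_set hb).neg.const_mul c)
      h2.neg.integrableOn measurableSet_ball fun z hz => ?_
    rw [← mul_neg]
    refine mul_le_mul_of_nonneg_right (hc _ ?_) (neg_nonneg.2 (hw z (hb hz)).2.1)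
    rw [mem_ball_zero_iff, ← dist_eq_norm]
    linarith [dist_triangle_right y z x, mem_ball.1 hy, mem_ball.1 hz]
  rw [integral_const_mul] at h5
  rw [integral_neg (μ := volume) (fun z => g (y - z) * w z)] at h4
  linarith

/-- The formula of Green on a ball. -/
theorem green {x : E n} {ρ r : ℝ} (hr : r < ρ) {β w : E n → ℂ}
    (hβ : ∀ z ∈ closedBall x ρ, ContDiffAt ℝ ∞ β z) (hw : ∀ z ∈ closedBall x ρ, ContDiffAt ℝ ∞ w z)
    (h0 : ∀ z, z ∉ closedBall x r → β z = 0) :
    ∫ z in ball x ρ, β z * (hess w z).trace = ∫ z in ball x ρ, w z * (hess β z).trace := by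
  have hI : ∀ f : E n → ℂ, (∀ z ∈ closedBall x ρ, ContDiffAt ℝ ∞ f z) →
      IntegrableOn f (ball x ρ) := fun f hf =>
    (ContinuousOn.integrableOn_compact (isCompact_closedBall x ρ) fun z hz =>
      (hf z hz).continuousAt.continuousWithinAt).mono_set ball_subset_closedBall
  have hs : closedBall x r ⊆ ball x ρ := closedBall_subset_ball hr
  have key : ∀ i, ∫ z in ball x ρ, β z * hess w z i i = ∫ z in ball x ρ, w z * hess β z i i := by
    intro i
    obtain ⟨-, a1, -, b1⟩ := mIBPE n _ _ (fun z => β z * dz i w z) isOpen_ball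
      (isCompact_closedBall x r) hs (fun z hz => (hβ z (ball_subset_closedBall hz)).mul
        (cd_dz (hw z (ball_subset_closedBall hz)) i)) (fun z _ hz => by rw [h0 z hz, zero_mul]) i
    obtain ⟨a2, -, b2, -⟩ := mIBPE n _ _ (fun z => dzb i β z * w z) isOpen_ball
      (isCompact_closedBall x r) hs (fun z hz => (cd_dzb (hβ z (ball_subset_closedBall hz)) i).mul
        (hw z (ball_subset_closedBall hz))) (fun z _ hz => by
          have : β =ᶠ[𝓝 z] fun _ => 0 :=
            (isClosed_closedBall.isOpen_compl.eventually_mem hz).mono fun y hy => h0 y hy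
          rw [dzb_congr this, dzb_const, zero_mul]) i
    rw [← sub_eq_zero, ← integral_sub (hI _ fun z hz => (hβ z hz).mul (smM_hess (hw z hz) i i))
      (hI _ fun z hz => (hw z hz).mul (smM_hess (hβ z hz) i i)), ← sub_self (0 : ℂ)]
    nth_rewrite 1 [← b1]
    rw [← b2, ← integral_sub a1 a2]
    refine setIntegral_congr_fun measurableSet_ball fun z hz => ?_
    have h1 := hβ z (ball_subset_closedBall hz)
    have h2 := hw z (ball_subset_closedBall hz)
    simp only [hess_apply]
    rw [dzb_mul (cd_diff h1) (cd_diff (cd_dz h2 i)), dz_mul (cd_diff (cd_dzb h1 i)) (cd_diff h2),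
      dz_dzb h1]
    ring
  simp only [Matrix.trace, Matrix.diag_apply, Finset.mul_sum]
  rw [integral_finsetSum _ fun i _ => hI _ fun z hz => (hβ z hz).mul (smM_hess (hw z hz) i i),
    integral_finsetSum _ fun i _ => hI _ fun z hz => (hw z hz).mul (smM_hess (hβ z hz) i i)]
  exact Finset.sum_congr rfl fun i _ => key i

theorem tr_nn {B : Mat n} (h : B.PosSemidef) : 0 ≤ B.trace.re := (Complex.le_def.1 h.trace_nonneg).1

/-- The uniform bound for the mass. -/
theorem mass {x y : E n} {ρ A : ℝ} (hρ : 0 < ρ) (hA : 0 ≤ A) (hy : y ∈ ball x ρ) :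
    ∃ C₁ C₂ : ℝ, 0 ≤ C₁ ∧ ∀ w : E n → ℝ, (∀ z ∈ closedBall x (4 * ρ), ContDiffAt ℝ ∞ w z ∧ w z ≤ 0 ∧
      (hr w z + A • (1 : Mat n)).PosSemidef) →
      ∫ z in ball x (ρ / 4), (hr w z + A • (1 : Mat n)).trace.re ≤ C₁ * -w y + C₂ := by
  obtain ⟨g, c, c0, hg, hc⟩ := exists_ker (n := n) hρ
  let b : ContDiffBump x := ⟨ρ / 4, ρ / 2, by positivity, by linarith⟩
  have hb : ∀ z, ContDiffAt ℝ ∞ (fun w => (b w : ℂ)) z := fun z => cd_ofReal b.contDiff.contDiffAt
  obtain ⟨D, hD⟩ := (isCompact_closedBall x ρ).exists_bound_of_continuousOn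
    (f := fun z => (hess (fun w => (b w : ℂ)) z).trace.re) fun z _ =>
      (cd_re (smM_hess (hb z)).trace).continuousAt.continuousWithinAt
  have D0 : 0 ≤ D := (norm_nonneg _).trans (hD x (mem_closedBall_self hρ.le))
  refine ⟨D / c, D / c * (4 * (|A| * 1 * n) * (3 * ρ) ^ 2 / 4) +
    ∫ z in ball x ρ, b z * (A • (1 : Mat n)).trace.re, by positivity, fun w hw => ?_⟩
  have h14 : closedBall x ρ ⊆ closedBall x (4 * ρ) := closedBall_subset_closedBall (by linarith)
  have hI : ∀ f : E n → ℝ, (∀ z ∈ closedBall x ρ, ContDiffAt ℝ ∞ f z) →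
      IntegrableOn f (ball x ρ) := fun f hf =>
    (ContinuousOn.integrableOn_compact (isCompact_closedBall x ρ) fun z hz =>
      (hf z hz).continuousAt.continuousWithinAt).mono_set ball_subset_closedBall
  have hI' : ∀ f : E n → ℂ, (∀ z ∈ closedBall x ρ, ContDiffAt ℝ ∞ f z) →
      IntegrableOn f (ball x ρ) := fun f hf =>
    (ContinuousOn.integrableOn_compact (isCompact_closedBall x ρ) fun z hz =>
      (hf z hz).continuousAt.continuousWithinAt).mono_set ball_subset_closedBall
  have hw1 : ∀ z ∈ closedBall x ρ, ContDiffAt ℝ ∞ (fun z => (w z : ℂ)) z := fun z hz =>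
    cd_ofReal (hw z (h14 hz)).1
  have h1 := loc hρ hg hc (w := w) (A := 4 * (|A| * 1 * n)) (by positivity) hy fun z hz =>
    ⟨cd_le (hw z hz).1 2, (hw z hz).2.1, fun v => BPSH.lv_ge (hw z hz).1 (H := 1) (C₀ := A) (K := 1)
      Matrix.PosSemidef.one zero_le_one (by simpa using Matrix.PosSemidef.zero)
      (by rw [add_comm]; exact (hw z hz).2.2) v⟩
  have h2 := green (x := x) (r := ρ / 2) (ρ := ρ) (by linarith) (fun z _ => hb z) hw1 fun z hz => by
    rw [b.zero_of_le_dist (le_of_lt (not_le.1 hz)), ofReal_zero]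
  have h3 := congrArg re h2
  rw [← RCLike.re_to_complex, ← RCLike.re_to_complex,
    ← integral_re (hI' _ fun z hz => (hb z).mul (smM_hess (hw1 z hz)).trace),
    ← integral_re (hI' _ fun z hz => (hw1 z hz).mul (smM_hess (hb z)).trace)] at h3
  simp only [RCLike.re_to_complex, re_ofReal_mul] at h3
  have i1 : IntegrableOn (fun z => b z * (hess (fun z => (w z : ℂ)) z).trace.re) (ball x ρ) :=
    hI _ fun z hz => b.contDiff.contDiffAt.mul (cd_re (smM_hess (hw1 z hz)).trace)
  have i2 : IntegrableOn (fun z => b z * (A • (1 : Mat n)).trace.re) (ball x ρ) :=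
    hI _ fun z hz => b.contDiff.contDiffAt.mul contDiffAt_const
  have h4 : ∫ z in ball x (ρ / 4), (hr w z + A • (1 : Mat n)).trace.re ≤
      ∫ z in ball x ρ, (b z * (hess (fun z => (w z : ℂ)) z).trace.re +
        b z * (A • (1 : Mat n)).trace.re) := by
    rw [setIntegral_congr_fun (g := fun z => b z * (hess (fun z => (w z : ℂ)) z).trace.re +
      b z * (A • (1 : Mat n)).trace.re) measurableSet_ball fun z hz => by
        simp only [b.one_of_mem_closedBall (ball_subset_closedBall hz), one_mul, hr,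
          Matrix.trace_add, add_re]]
    refine setIntegral_mono_set (i1.add i2) ?_ (ball_subset_ball (by linarith)).eventuallyLE
    filter_upwards [ae_restrict_mem measurableSet_ball] with z hz
    rw [← mul_add, ← add_re, ← Matrix.trace_add]
    exact mul_nonneg b.nonneg (tr_nn (hw z (h14 (ball_subset_closedBall hz))).2.2)
  rw [integral_add i1 i2, h3] at h4
  have h5 : ∫ z in ball x ρ, w z * (hess (fun w => (b w : ℂ)) z).trace.re ≤
      ∫ z in ball x ρ, D * -w z := by
    refine setIntegral_mono_on (hI _ fun z hz => (hw z (h14 hz)).1.mul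
      (cd_re (smM_hess (hb z)).trace)) (hI _ fun z hz => contDiffAt_const.mul
        (hw z (h14 hz)).1.neg) measurableSet_ball fun z hz => ?_
    have a1 := (abs_le.1 (hD z (ball_subset_closedBall hz))).1
    have a2 := (hw z (h14 (ball_subset_closedBall hz))).2.1
    nlinarith
  rw [integral_const_mul] at h5
  have h6 := mul_le_mul_of_nonneg_left h1 (div_nonneg D0 c0.le)
  rw [← mul_assoc, div_mul_cancel₀ _ c0.ne', mul_add] at h6
  linarith

/-- The local statement. -/
theorem local_int {x y : E n} {ρ A : ℝ} {U : E n → ℝ} (hρ : 0 < ρ) (hA : 0 ≤ A) (hy : y ∈ ball x ρ)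
    (hy0 : U y ≠ 0) (hU : ∀ z ∈ closedBall x (4 * ρ), ContDiffAt ℝ ∞ U z ∧ (∀ᶠ w in 𝓝 z, 0 ≤ U w) ∧
      (U z ≠ 0 → (hl U z + A • (1 : Mat n)).PosSemidef)) (i j : Fin n) :
    IntegrableOn (fun z => hl U z i j) (ball x (ρ / 4) ∩ {z | U z ≠ 0}) := by
  obtain ⟨C₁, C₂, hC, hm⟩ := mass hρ hA hy
  have hs : ball x (ρ / 4) ⊆ closedBall x (4 * ρ) :=
    ball_subset_closedBall.trans (closedBall_subset_closedBall (by linarith))
  have hy' : y ∈ closedBall x (4 * ρ) :=
    (ball_subset_closedBall.trans (closedBall_subset_closedBall (by linarith))) hy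
  have hc : ContinuousOn U (closedBall x (4 * ρ)) := fun z hz =>
    (hU z hz).1.continuousAt.continuousWithinAt
  obtain ⟨M, hM⟩ := (isCompact_closedBall x (4 * ρ)).exists_bound_of_continuousOn hc
  set S := ball x (ρ / 4) ∩ {z | U z ≠ 0} with hS
  have So : IsOpen S := (hc.mono hs).isOpen_inter_preimage isOpen_ball isOpen_ne
  have hl1 : ∀ z ∈ S, SmM (hl U) z := fun z hz =>
    smM_hess (cd_ofReal ((hU z (hs hz.1)).1.log hz.2))
  set T : E n → ℝ := fun z => (hl U z + A • (1 : Mat n)).trace.re with hT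
  have Tc : ContinuousOn T S := fun z hz =>
    (cd_re ((hl1 z hz).add (smM_const _)).trace).continuousAt.continuousWithinAt
  have T0 : ∀ z ∈ S, 0 ≤ T z := fun z hz => tr_nn ((hU z (hs hz.1)).2.2 hz.2)
  set ε : ℕ → ℝ := fun k => 1 / ((k : ℝ) + 1) with hε
  have e0 : ∀ k, 0 < ε k := fun k => Nat.one_div_pos_of_nat
  have e1 : ∀ k, ε k ≤ 1 := fun k => by
    rw [hε, div_le_one (by positivity)]
    linarith [(Nat.cast_nonneg k : (0 : ℝ) ≤ k)]
  have hpos : ∀ k, ∀ z ∈ closedBall x (4 * ρ), 0 < U z + ε k := fun k z hz => by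
    linarith [(hU z hz).2.1.self_of_nhds, e0 k]
  set C := C₁ * -(Real.log (U y) - Real.log (M + 1)) + C₂ with hCd
  have hb : ∀ k, ∫⁻ z in S, ENNReal.ofReal (U z / (U z + ε k) * T z) ≤ ENNReal.ofReal C := by
    intro k
    have hlog : ∀ z ∈ closedBall x (4 * ρ), ContDiffAt ℝ ∞ (fun w => Real.log (U w + ε k)) z :=
      fun z hz => ((hU z hz).1.add contDiffAt_const).log (hpos k z hz).ne'
    have he : ∀ z ∈ closedBall x (4 * ρ),
        hr (fun w => Real.log (U w + ε k) - Real.log (M + 1)) z = hl (fun w => U w + ε k) z :=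
      fun z hz => (shift (hlog z hz) (-Real.log (M + 1))).1
    have hr1 := fun z hz => reg (hU z hz).1 (hU z hz).2.1 hA (e0 k) (hU z hz).2.2
    have h1 := hm (fun w => Real.log (U w + ε k) - Real.log (M + 1)) fun z hz =>
      ⟨(hlog z hz).sub contDiffAt_const, sub_nonpos.2 (Real.log_le_log (hpos k z hz)
        (by linarith [(abs_le.1 (hM z hz)).2, e1 k])), by rw [he z hz]; exact (hr1 z hz).1⟩
    rw [setIntegral_congr_fun (g := fun z => (hl (fun w => U w + ε k) z +
      A • (1 : Mat n)).trace.re) measurableSet_ball fun z hz => by simp only [he z (hs hz)]] at h1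
    have i1 : IntegrableOn (fun z => (hl (fun w => U w + ε k) z + A • (1 : Mat n)).trace.re)
        (ball x (ρ / 4)) :=
      (ContinuousOn.integrableOn_compact (isCompact_closedBall x (4 * ρ)) fun z hz =>
        (cd_re ((smM_hess (cd_ofReal (hlog z hz))).add
          (smM_const _)).trace).continuousAt.continuousWithinAt).mono_set hs
    have h2 : Real.log (U y) ≤ Real.log (U y + ε k) :=
      Real.log_le_log (lt_of_le_of_ne (hU y hy').2.1.self_of_nhds hy0.symm) (by linarith [e0 k])
    have h3 := mul_le_mul_of_nonneg_left h2 hC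
    calc _ ≤ ∫⁻ z in S, ENNReal.ofReal
          (hl (fun w => U w + ε k) z + A • (1 : Mat n)).trace.re :=
        setLIntegral_mono' So.measurableSet fun z hz => ENNReal.ofReal_le_ofReal (by
          have := tr_nn ((hr1 z (hs hz.1)).2 hz.2)
          rw [Matrix.trace_sub, Matrix.trace_smul, sub_re, smul_re, smul_eq_mul] at this
          linarith)
      _ ≤ ∫⁻ z in ball x (ρ / 4), ENNReal.ofReal
          (hl (fun w => U w + ε k) z + A • (1 : Mat n)).trace.re :=
        lintegral_mono_set inter_subset_left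
      _ ≤ _ := by
        rw [← ofReal_integral_eq_lintegral_ofReal i1 (by
          filter_upwards [ae_restrict_mem measurableSet_ball] with z hz
          exact tr_nn (hr1 z (hs hz)).1)]
        exact ENNReal.ofReal_le_ofReal (by rw [hCd]; linarith)
  have hF := lintegral_liminf_le' (μ := volume.restrict S) (u := atTop)
    (f := fun k z => ENNReal.ofReal (U z / (U z + ε k) * T z)) fun k =>
      (ContinuousOn.aemeasurable (((hc.mono fun z hz => hs hz.1).div
        ((hc.mono fun z hz => hs hz.1).add continuousOn_const)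
        fun z hz => (hpos k z (hs hz.1)).ne').mul Tc) So.measurableSet).ennreal_ofReal
  have hlim : ∀ z ∈ S, liminf (fun k => ENNReal.ofReal (U z / (U z + ε k) * T z)) atTop =
      ENNReal.ofReal (T z) := fun z hz => by
    refine (ENNReal.tendsto_ofReal ?_).liminf_eq
    have := ((tendsto_const_nhds (x := U z)).div ((tendsto_const_nhds (x := U z)).add
      (tendsto_one_div_add_atTop_nhds_zero_nat (𝕜 := ℝ))) (by rw [add_zero]; exact hz.2)).mul_const (T z)
    rwa [add_zero, div_self hz.2, one_mul] at this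
  rw [setLIntegral_congr_fun So.measurableSet hlim] at hF
  have hfin : ∫⁻ z in S, ENNReal.ofReal (T z) < ⊤ :=
    (hF.trans (liminf_le_of_frequently_le' (Frequently.of_forall hb))).trans_lt ENNReal.ofReal_lt_top
  have iT : IntegrableOn T S := ⟨Tc.aestronglyMeasurable So.measurableSet,
    (hasFiniteIntegral_iff_ofReal (by
      filter_upwards [ae_restrict_mem So.measurableSet] with z hz using T0 z hz)).2 hfin⟩
  have i2 : IntegrableOn (fun z => (hl U z + A • (1 : Mat n)) i j) S := by
    refine Integrable.mono' iT (ContinuousOn.aestronglyMeasurable (fun z hz =>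
      (((hl1 z hz).add (smM_const _)) i j).continuousAt.continuousWithinAt) So.measurableSet) ?_
    filter_upwards [ae_restrict_mem So.measurableSet] with z hz
    exact HS76.entry_le_trace ((hU z (hs hz.1)).2.2 hz.2) i j
  have i3 : IntegrableOn (fun _ : E n => (A • (1 : Mat n)) i j) S :=
    integrableOn_const ((measure_mono inter_subset_left).trans_lt measure_ball_lt_top).ne
  exact (i2.sub i3).congr_fun (fun z _ => add_sub_cancel_right _ _) So.measurableSet

end EM3

open EM3 in
theorem st_EM3 : St_EM3 := by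
  intro n O U H hO h L hL hLO i j
  refine hL.induction_on (p := fun s => IntegrableOn (fun z => hl U z i j) (s ∩ {z | U z ≠ 0}))
    (by simp) (fun s t hst ht => IntegrableOn.mono_set (μ := volume) ht (inter_subset_inter_left _ hst))
    (fun s t hs ht => by rw [union_inter_distrib_right]; exact hs.union ht) fun x hx => ?_
  obtain ⟨r, r0, hr⟩ := nhds_basis_closedBall.mem_iff.1 (hO.mem_nhds (hLO hx))
  have e : 4 * (r / 4) = r := by ring
  obtain ⟨y, hy0, hy⟩ := ((h x (hLO hx)).2.2.2.2.2.and_eventually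
    (ball_mem_nhds x (show 0 < r / 4 by positivity))).exists
  obtain ⟨A, A0, hA⟩ := BBD.cmp (isCompact_closedBall x r) (H := fun _ => 1) (T := H)
    (fun _ _ => smM_const _) (fun _ _ => Matrix.PosDef.one) (fun z hz => (h z (hr hz)).2.2.1)
    fun z hz => (h z (hr hz)).2.2.2.1
  refine ⟨ball x (r / 4 / 4), mem_nhdsWithin_of_mem_nhds (ball_mem_nhds x (by positivity)),
    local_int (by positivity) A0.le hy hy0 (fun z hz => ?_) i j⟩
  rw [e] at hz
  refine ⟨(h z (hr hz)).1, (hO.eventually_mem (hr hz)).mono fun w hw => (h w hw).2.1, fun h0 => ?_⟩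
  have := ((h z (hr hz)).2.2.2.2.1 h0).add (hA A le_rfl z hz).1
  rwa [add_add_sub_cancel] at this

end Pool.Agent.Lib.RAA
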