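import Pool.Agent.Lib.RAA.Blue
import Pool.Agent.Lib.RAA.T_EM3
import Pool.Agent.Lib.RA.K_At

/-! Project ra1, step A: the curvature form of the field of lines. -/

open scoped Classical Topology ContDiff ComplexOrder Matrix Kronecker ENNReal
open Set MeasureTheory Complex Metric Filter Module

set_option linter.unusedVariables false

noncomputable section

namespace Pool.Agent.Lib.RAA

open Pool.Agent.Lib.SV (E)
open Pool.Agent.Lib.HS32 Pool.Agent.Lib.RA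

namespace CQ

variable {n ρ : ℕ} {M : Mf n} {V : M.Cov} {σ : Fin V.r → E n → (Fin ρ → Fin n) → ℂ}
  {G : M.Fam (Mat n)} {a : Fin V.r} {e e' : M.Ch} {x : M.X} {z : E n}

/-- The generator `a` does not vanish at `x`. -/
def Gd (V : M.Cov) (σ : Fin V.r → E n → (Fin ρ → Fin n) → ℂ) (a : Fin V.r) (x : M.X) : Prop :=
  x ∈ (V.e a).source ∧ V.e a x ∈ bl M V a ∧ σ a (V.e a x) ≠ 0

/-- The form of the generator `a`, in the chart `e`. -/
def qa (V : M.Cov) (σ : Fin V.r → E n → (Fin ρ → Fin n) → ℂ) (G : M.Fam (Mat n)) (a : Fin V.r)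
    (e : M.Ch) (x : M.X) : Mat n :=
  (M.J (V.e a) e x)ᴴ * hl (un ρ (G (V.e a)) (σ a)) (V.e a x) * M.J (V.e a) e x

/-- The form. -/
def qq (V : M.Cov) (σ : Fin V.r → E n → (Fin ρ → Fin n) → ℂ) (G : M.Fam (Mat n)) :
    M.Fam (Mat n) := fun e z =>
  if h : ∃ a, Gd V σ a (e.symm z) then qa V σ G h.choose e (e.symm z) else 0

theorem tgt (hz : z ∈ bl M V a) : z ∈ (V.e a).target := V.sub a (ball_subset_closedBall hz)

theorem holN (h : An M V σ) (hz : z ∈ bl M V a) : HolN (σ a) z :=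
  KA.holN_of_on isOpen_ball (h.hol a) hz

theorem coc {e'' : M.Ch} (he : e ∈ M.C) (he' : e' ∈ M.C) (he'' : e'' ∈ M.C) (hx : x ∈ e.source)
    (hx' : x ∈ e'.source) (hx'' : x ∈ e''.source) : M.J e e'' x = M.J e e' x * M.J e' e'' x :=
  ((mTR n M).2.1 e he e' he' x hx hx').2.2.2.2 e'' he'' hx''

theorem qa_tr (h : Gd V σ a x) (he : e ∈ M.C) (he' : e' ∈ M.C) (hx : x ∈ e.source)
    (hx' : x ∈ e'.source) :
    qa V σ G a e' x = (M.J e e' x)ᴴ * qa V σ G a e x * M.J e e' x := by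
  simp only [qa, coc (V.mem a) he he' h.1 hx hx', Matrix.conjTranspose_mul, Matrix.mul_assoc]

theorem qq_eq (hL : St_LNT) (hσ : Ln M V ρ σ) (hG : M.Met G) (h : Gd V σ a x) (he : e ∈ M.C)
    (hx : x ∈ e.source) : qq V σ G e (e x) = qa V σ G a e x := by
  have h0 : ∃ a, Gd V σ a x := ⟨a, h⟩
  have hb := h0.choose_spec
  simp only [qq, e.left_inv hx, dif_pos h0]
  have h1 := (hL n ρ M V σ a _ x hσ h.1 hb.1 h.2.1 hb.2.1 h.2.2 hb.2.2).2 G hG
  rw [qa, h1, qa, coc (V.mem a) (V.mem h0.choose) he h.1 hb.1 hx]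
  simp only [Matrix.conjTranspose_mul, Matrix.mul_assoc]

theorem gd_ev (hσ : An M V σ) (h : Gd V σ a x) : ∀ᶠ y in 𝓝 x, Gd V σ a y := by
  have c := (V.e a).continuousAt h.1
  filter_upwards [(V.e a).open_source.mem_nhds h.1, c.eventually (isOpen_ball.mem_nhds h.2.1),
    ((holN hσ h.2.1).self_of_nhds.continuousAt.comp c).eventually_ne h.2.2] with y h1 h2 h3
  exact ⟨h1, h2, h3⟩

theorem un_at (h4 : St_A4) (hσ : An M V σ) (hG : M.Met G) (hz : z ∈ bl M V a) :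
    ContDiffAt ℝ ∞ (un ρ (G (V.e a)) (σ a)) z ∧ 0 ≤ un ρ (G (V.e a)) (σ a) z ∧
      (un ρ (G (V.e a)) (σ a) z ≠ 0 ↔ σ a z ≠ 0) := by
  have := (h4 n ρ).1 (G (V.e a)) (σ a) z (hG.sm _ (V.mem a) z (tgt hz))
    (Mf.AllOn.ev hG.pos (V.mem a) (tgt hz)) (holN hσ hz)
  exact ⟨this.1, this.2.1, this.2.2.1⟩

theorem qq_sm (h4 : St_A4) (hL : St_LNT) (hσ : Ln M V ρ σ) (hG : M.Met G) (h : Gd V σ a x)
    (he : e ∈ M.C) (hx : x ∈ e.source) : SmM (qq V σ G e) (e x) ∧ ClM (qq V σ G e) (e x) := by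
  have t := (mTR n M).2.1 _ (V.mem a) e he x h.1 hx
  have u := un_at h4 hσ.toAn hG h.2.1
  have s : ContDiffAt ℝ ∞ (fun w => ((Real.log (un ρ (G (V.e a)) (σ a) w) : ℝ) : ℂ))
      ((V.e a ∘ e.symm) (e x)) := by
    rw [KA.tr_pt hx]
    exact cd_ofReal (u.1.log (u.2.2.2 h.2.2))
  have p := mPB n (V.e a ∘ e.symm) (e x) (hl (un ρ (G (V.e a)) (σ a))) (qq V σ G e) t.1 t.2.1
    (smM_hess s) (by
      filter_upwards [t.2.2.2.1, (KA.ev_iff hx).1 (gd_ev hσ.toAn h)] with w h1 h2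
      have := qq_eq hL hσ hG h2 he h1.2.2.1
      rw [h1.2.2.2.2.2.1, qa, h1.2.2.2.2.2.2] at this
      exact this)
  exact ⟨p.1, p.2.1 (clM_hess s)⟩

theorem qq_ten (h4 : St_A4) (hL : St_LNT) (hσ : Ln M V ρ σ) (hG : M.Met G) :
    TenOn M (gd M V σ) (qq V σ G) where
  sm := fun x ⟨a, h⟩ e he hx => (qq_sm h4 hL hσ hG h he hx).1
  cmp := fun e he e' he' x hx hx' ⟨a, h⟩ => by
    rw [qq_eq hL hσ hG h he hx, qq_eq hL hσ hG h he' hx', qa_tr h he he' hx hx']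

theorem qq_bl (hL : St_LNT) (hσ : Ln M V ρ σ) (hG : M.Met G) (hz : z ∈ bl M V a)
    (h0 : σ a z ≠ 0) : qq V σ G (V.e a) z = hl (un ρ (G (V.e a)) (σ a)) z := by
  have h1 := (V.e a).map_target (tgt hz)
  have h2 := (V.e a).right_inv (tgt hz)
  have := qq_eq hL hσ hG (a := a) ⟨h1, by rwa [h2], by rwa [h2]⟩ (V.mem a) h1
  rwa [qa, (mTR n M).2.2.1 _ (V.mem a) _ h1, h2, Matrix.conjTranspose_one, Matrix.one_mul,
    Matrix.mul_one] at this

theorem freq (hσ : An M V σ) (hz : z ∈ bl M V a) : ∃ᶠ w in 𝓝 z, σ a w ≠ 0 := by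
  intro h
  obtain ⟨z', hz', h0⟩ := hσ.nz a
  exact h0 (KA.eq_ball (g' := fun _ => 0) (fun w hw => KA.an_of_hol (holN hσ hw))
    (fun _ _ => analyticAt_const) hz (h.mono fun w hw => not_not.1 hw) hz')

end CQ

open CQ in
theorem st_CQ (h4 : St_A4) (hL : St_LNT) : St_CQ := by
  intro n ρ M _ V σ G hσ hK
  have hG := hK.toMet
  obtain ⟨C, hC, hP⟩ := ((h4 n ρ).2 M G hG).1
  have hT := qq_ten h4 hL hσ hG
  have sG : ∀ e ∈ M.C, ∀ z ∈ e.target, SmM (fun w => C • G e w) z := fun e he z hz =>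
    SmM.rsmul contDiffAt_const (hG.sm e he z hz)
  refine ⟨qq V σ G, C, hC, ⟨hT, fun a z hz h0 => qq_bl hL hσ hG hz h0⟩, ⟨?_, ?_⟩, ?_, ?_⟩
  · exact fun x hx e he hxe => (sG e he _ (e.map_source hxe)).add (hT.sm x hx e he hxe)
  · intro e he e' he' x hx hx' hg
    show C • G e' (e' x) + qq V σ G e' (e' x) = _ * (C • G e (e x) + qq V σ G e (e x)) * _
    rw [hT.cmp e he e' he' x hx hx' hg, hG.cmp e he e' he' x hx hx', Matrix.mul_add,
      Matrix.add_mul, Matrix.mul_smul, Matrix.smul_mul]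
  · rintro x ⟨a, h⟩ e he hx
    have s := qq_sm h4 hL hσ hG h he hx
    refine ⟨?_, fun i j k => ?_⟩
    · show (C • G e (e x) + qq V σ G e (e x)).PosSemidef
      have := (hP _ (V.mem a) _ (tgt h.2.1) (σ a) (holN hσ.toAn h.2.1)
        h.2.2).conjTranspose_mul_mul_same (M.J (V.e a) e x)
      rwa [qq_eq hL hσ hG h he hx, hG.cmp _ (V.mem a) e he x h.1 hx, qa, ← Matrix.smul_mul,
        ← Matrix.mul_smul, ← Matrix.add_mul, ← Matrix.mul_add]
    · have g := hG.sm e he _ (e.map_source hx)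
      have d : ∀ k, dM k ((C • G + qq V σ G) e) (e x) =
          C • dM k (G e) (e x) + dM k (qq V σ G e) (e x) := fun k =>
        (dM_add (sG e he _ (e.map_source hx)) s.1).trans (by rw [dM_rsmul C g])
      rw [d, d, Matrix.add_apply, Matrix.add_apply, Matrix.smul_apply, Matrix.smul_apply,
        hK.cl e he _ (e.map_source hx) i j k, s.2 i j k]
  · intro a L hc hs i j
    have u := fun z (hz : z ∈ bl M V a) => un_at h4 hσ.toAn hG hz
    have h1 := st_EM3 n (bl M V a) (un ρ (G (V.e a)) (σ a)) (fun w => C • G (V.e a) w) isOpen_ball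
      (fun z hz => ⟨(u z hz).1, (u z hz).2.1, sG _ (V.mem a) z (tgt hz),
        ((hG.pos _ (V.mem a) z (tgt hz)).posSemidef.smul hC.le).isHermitian, fun h0 => by
          rw [add_comm]
          exact hP _ (V.mem a) _ (tgt hz) (σ a) (holN hσ.toAn hz) ((u z hz).2.2.1 h0),
        ((freq hσ.toAn hz).and_eventually (isOpen_ball.mem_nhds hz)).mono fun w hw =>
          (u w hw.2).2.2.2 hw.1⟩) L hc hs i j
    have h2 : IntegrableOn (fun z => (C • G (V.e a) z) i j) L :=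
      ContinuousOn.integrableOn_compact hc fun z hz =>
        (sG _ (V.mem a) z (tgt (hs hz)) i j).continuousAt.continuousWithinAt
    have m : MeasurableSet (L ∩ {z | σ a z ≠ 0}) := by
      have o := (hσ.hol a).continuousOn.isOpen_inter_preimage isOpen_ball
        (isOpen_compl_singleton (x := 0))
      have q : L ∩ {z | σ a z ≠ 0} = L ∩ (bl M V a ∩ σ a ⁻¹' {0}ᶜ) :=
        Set.ext fun z => ⟨fun h => ⟨h.1, hs h.1, h.2⟩, fun h => ⟨h.1, h.2.2⟩⟩
      rw [q]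
      exact hc.measurableSet.inter o.measurableSet
    refine ((h2.mono_set inter_subset_left).add
      (h1.mono_set fun z hz => ⟨hz.1, (u z (hs hz.1)).2.2.2 hz.2⟩)).congr_fun (fun z hz => ?_) m
    show _ = (C • G (V.e a) z + qq V σ G (V.e a) z) i j
    rw [qq_bl hL hσ hG (hs hz.1) hz.2]
    rfl

end Pool.Agent.Lib.RAA
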