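import Pool.Agent.Lib.RAA.Blue
import Pool.Agent.Lib.RA.K_At
import Pool.Agent.Lib.RA.B_PZ
import Pool.Agent.Lib.RA.B_X0
import Pool.Agent.Lib.RA.B_PCOV
import Pool.Agent.Lib.RA.T_NUL

/-! Project ra1, step A: the function in the normal form, smoothness, zeros. -/

open scoped Classical Topology ContDiff ComplexOrder Matrix Kronecker ENNReal
open Set MeasureTheory Complex Metric Filter Module

set_option linter.unusedVariables false

noncomputable section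

namespace Pool.Agent.Lib.RAA

open Pool.Agent.Lib.SV (E)
open Pool.Agent.Lib.HS32 Pool.Agent.Lib.RA

namespace FB1

variable {n r ρ m : ℕ}

theorem dg_mem {c z : E n} {R : ℝ} (hz : z ∈ ball c R) : dg z ∈ ball (dg c) R := by
  rw [mem_ball, dg, dg, Prod.dist_eq, dist_star_star, max_self]
  exact hz

theorem rank_ge {A : Mat n} {J : Fin r → Fin n} (h : (A.submatrix J J).det ≠ 0) : r ≤ A.rank := by
  have h1 := Matrix.rank_of_isUnit _ ((Matrix.isUnit_iff_isUnit_det _).2 h.isUnit)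
  rw [Fintype.card_fin] at h1
  exact h1.ge.trans (Matrix.rank_submatrix_le A J J)

theorem conj_sub {A Y : Mat n} (hA : A.IsHermitian) (h : A * Y * A = A) (J : Fin r → Fin n) :
    (A.submatrix id J)ᴴ * Y * A.submatrix id J = A.submatrix J J := by
  rw [Matrix.conjTranspose_submatrix, hA.eq]
  conv_rhs => rw [← h]
  ext i l
  simp only [Matrix.mul_apply, Matrix.submatrix_apply, id]

theorem ric (hR : St_RIC) {F : E n × E n → ℂ} {c z : E n} {R : ℝ} {J : Fin r → Fin n}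
    (hL : Loc F c R r ρ m) (hz : z ∈ ball c R) (hd : (hJ F J z).det ≠ 0) :
    SmI (hJ F J) z ∧ ∀ b : E n × E r → ℂ, AnalyticAt ℂ b (pJ F J z) →
      ContDiffAt ℝ ∞ (fun w => b (pJ F J w)) z := by
  obtain ⟨h1, -, h2⟩ := hR n r F z 0 J (PK.hn_of_on isOpen_ball hL.hol (dg_mem hz))
    (mem_of_superset (isOpen_ball.mem_nhds hz) hL.real)
    (mem_of_superset (isOpen_ball.mem_nhds (dg_mem hz)) hL.rk) hd (Matrix.mulVec_zero _)
  exact ⟨h1, fun b hb => (h2 b hb).1⟩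

end FB1

theorem st_FB1 (hO : St_ORD) (hN : St_NF) (hF : St_FL) (hR : St_RIC) (hP : St_SPN) (hX : St_XI)
    (hC : St_CHI) : St_FB1 := by
  intro n r ρ m M G φ f _ hS hD hf
  obtain ⟨-, o2, o3⟩ := hO n r M G φ hS
  have ht : ∀ e ∈ M.C, ∀ z ∈ e.target, (M.hw φ e z).rank = r →
      (RA28.til r (G e z) (M.hw φ e z)).PosDef ∧
        M.hw φ e z * (RA28.til r (G e z) (M.hw φ e z))⁻¹ * M.hw φ e z = M.hw φ e z := by
    intro e he z hz hr
    have h1 : (M.hw φ e z - 0).PosSemidef := hS.psd e he z hz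
    rw [sub_zero] at h1
    exact (RA28.top (hS.kae.pos e he z hz) h1 hr.le).tpd hr
  have h1 : ∀ e c R F, Po M φ e c R F → ∀ z₀ ∈ ball c R,
      (∀ (J : Fin r → Fin n) B, (hJ F J z₀).det ≠ 0 → Nf F c R ρ m z₀ J B →
        ∀ᶠ w in 𝓝 z₀, f (e.symm w) = fl ρ m (hJ F J w) (G e w)⁻¹ (B (pJ F J w))) ∧
      ((M.hw φ e z₀).rank = r → f (e.symm z₀) = 0 → bt ρ m F (dg z₀) = 0) := by
    intro e c R F hp z₀ hz
    obtain ⟨p1, p2⟩ := o3 e c R F hp
    have hL := p2 ρ m hD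
    refine ⟨fun J B hd hB => ?_, fun hr h0 => ?_⟩
    · have c1 : ContinuousAt (hJ F J) z₀ :=
        continuousAt_pi.2 fun i => continuousAt_pi.2 fun l =>
          ((FB1.ric hR hL hz hd).1 i l).continuousAt
      have c2 : ContinuousAt (fun w => (hJ F J w).det) z₀ :=
        (continuous_id.matrix_det.continuousAt).comp c1
      filter_upwards [c2.eventually_ne hd, isOpen_ball.mem_nhds hz, hB.eq] with w a1 a2 a3
      have a4 : (M.hw φ e w).rank = r :=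
        le_antisymm (hS.le e hp.mem w (hp.sub a2)) (p1 w a2 ▸ FB1.rank_ge a1)
      have a5 := (ht e hp.mem w (hp.sub a2) a4).2
      rw [hf.rep e c R F hp w a2 a4 _ a5, a3, (hF n ρ m (Fin n) (Fin r)).1]
      rw [← p1 w a2] at a5 ⊢
      rw [FB1.conj_sub (hL.psd w a2).1 a5]
      rfl
    · obtain ⟨a1, a2⟩ := ht e hp.mem z₀ (hp.sub hz) hr
      have a3 := (hS.kae.pos e hp.mem z₀ (hp.sub hz)).inv
      rw [hf.rep e c R F hp z₀ hz hr _ a2] at h0
      exact ((hF n ρ m (Fin n) (Fin n)).2.2.1 _ _ _ a3.posSemidef a1.inv.posSemidef).2.2 a3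
        a1.inv h0
  obtain ⟨-, x2, x3⟩ := st_X0 n M φ r hS.wt hS.an hS.le
  refine ⟨h1, fun x hx => ?_, ?_⟩
  · obtain ⟨R, F, hR0, hp⟩ := o2 _ (Mf.ch_mem x) _ (Mf.ch_tgt x)
    obtain ⟨p1, p2⟩ := o3 _ _ R F hp
    have hL := p2 ρ m hD
    have hz := mem_ball_self (x := M.ch x x) hR0
    have hr : (Gm F (dg (M.ch x x))).rank = r := by
      rw [p1 _ hz]
      exact hx
    obtain ⟨J, hd⟩ := (hP n).2.1 r _ (hL.psd _ hz).1 hr
    obtain ⟨B, hB⟩ := hN n r ρ m F _ R _ J hL hz hd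
    obtain ⟨r1, r2⟩ := FB1.ric hR hL hz hd
    have s1 := ((mCOF n _ _ (hS.kae.sm _ (Mf.ch_mem x) _ (Mf.ch_tgt x))).2.2.2.2.1
      (hS.kae.toMet.ev_det x)).1
    refine KA.smAt_of (Mf.ch_mem x) (Mf.mem_ch x) ?_
    exact ((hF n ρ m (Fin r) (Fin r)).2.2.2.2 _ _ (fun w => B (pJ F J w)) _ r1 s1
      fun i K => r2 _ (hB.an i K)).congr_of_eventuallyEq ((h1 _ _ R F hp _ hz).1 J B hd hB)
  · obtain ⟨V, hV, -⟩ := st_PCOV n M φ (fun _ => univ) hS.an fun _ => univ_mem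
    have n1 := (x3 inferInstance hS.den.nonempty).2 G hS.kae.toMet
    have n2 : M.mu G {x | x ∈ X0 M (M.hw φ) r ∧ f x = 0} = 0 := by
      refine (hC n M G V hS.kae.toMet).2.1 _ fun a => ?_
      obtain ⟨Φ, hΦ⟩ := hV a
      have hp : Po M φ (V.e a) (V.c a) (4 * V.ρ a) Φ :=
        ⟨V.mem a, ball_subset_closedBall.trans (V.sub a), hΦ⟩
      obtain ⟨z₁, hz₁, hb⟩ := hD.ex _ _ _ _ hp (by linarith [V.pos a])
      obtain ⟨i, K, hb⟩ : ∃ i K, bt ρ m Φ (dg z₁) i K ≠ 0 := by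
        by_contra hn
        push Not at hn
        exact hb (Matrix.ext hn)
      have an := (st_PZ n _ _ _ ((hX n ρ Φ _ _ hΦ.hol).2.1 m i K)).1.2.2.2.2
      have n3 := (st_NUL (E n) ℂ volume _ _ isOpen_ball (convex_ball _ _).isPreconnected
        (fun z hz => (an z hz).1) ⟨z₁, hz₁, hb⟩).1
      refine measure_mono_null ?_ (ae_iff.1 n3)
      rintro z ⟨a1, a2, a3⟩ a4
      have a5 := (h1 _ _ _ _ hp z a1).2 ((x2 _ hp.mem z (hp.sub a1)).1 a2) a3
      exact a4 a1 (by simp only [Function.comp, a5, Matrix.zero_apply])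
    filter_upwards [compl_mem_ae_iff.2 n1, compl_mem_ae_iff.2 n2] with x a1 a2
    rw [compl_compl] at a1
    exact ⟨a1, fun h => a2 ⟨a1, h⟩⟩

end Pool.Agent.Lib.RAA
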