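import Pool.Agent.Lib.RAA.Blue
import Pool.Agent.Lib.RAA.T_KQ

/-! Algebra of the squared norm. -/

open scoped Classical Topology ContDiff ComplexOrder Matrix Kronecker
open Complex

set_option linter.unusedVariables false
set_option linter.unusedSectionVars false

noncomputable section

namespace Pool.Agent.Lib.RAA

open Pool.Agent.Lib.SV (E)
open Pool.Agent.Lib.HS32

namespace FL

variable {n ρ m : ℕ} {ι κ κ' : Type}

theorem kp_mul [Fintype κ] (A : Matrix ι κ ℂ) (B : Matrix κ κ' ℂ) :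
    kp m A * kp m B = kp m (A * B) := KQB.kq_mul _ _

theorem kp_ct (A : Matrix ι κ ℂ) : (kp m A)ᴴ = kp m Aᴴ := KQB.kq_ct _

theorem bk_mul [Fintype κ] (A : Matrix ι κ ℂ) (B : Matrix κ κ' ℂ) :
    bk ρ A * bk ρ B = bk ρ (A * B) := by
  rw [bk, bk, bk, ← Matrix.mul_kronecker_mul, Matrix.one_mul]

theorem bk_ct (A : Matrix ι κ ℂ) : (bk ρ A)ᴴ = bk ρ Aᴴ := by
  rw [bk, bk, Matrix.conjTranspose_kronecker, Matrix.conjTranspose_one]

theorem bk_sub (A B : Matrix ι κ ℂ) : bk ρ (A - B) = bk ρ A - bk ρ B := by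
  ext f g
  simp [bk, mul_sub]

theorem bk_smul (c : ℝ) (A : Matrix ι κ ℂ) : bk ρ (c • A) = c • bk ρ A := by
  rw [bk, bk, Matrix.kronecker_smul]

theorem kp_smul (c : ℝ) (A : Matrix ι κ ℂ) : kp m (c • A) = c ^ m • kp m A := by
  ext f g
  simp [kp, KQB.kq_apply, Finset.prod_mul_distrib]

variable [Fintype ι] [Fintype κ]

theorem bk_psd {A : Matrix ι ι ℂ} (h : A.PosSemidef) : (bk ρ A).PosSemidef :=
  Matrix.PosSemidef.one.kronecker h

theorem bk_pd {A : Matrix ι ι ℂ} (h : A.PosDef) : (bk ρ A).PosDef :=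
  Matrix.PosDef.one.kronecker h

open scoped MatrixOrder in
theorem fac {A : Matrix ι ι ℂ} (h : A.PosSemidef) : ∃ C : Matrix ι ι ℂ, A = Cᴴ * C :=
  CStarAlgebra.nonneg_iff_eq_star_mul_self.1 h.nonneg

theorem tr_eq (B : Matrix ι κ ℂ) (D : Matrix ι ι ℂ) (C : Matrix κ κ ℂ) :
    (Bᴴ * (Dᴴ * D) * B * (Cᴴ * C)).trace = ((D * B * Cᴴ)ᴴ * (D * B * Cᴴ)).trace := by
  rw [← Matrix.mul_assoc _ Cᴴ C, Matrix.trace_mul_comm _ C]
  simp only [Matrix.conjTranspose_mul, Matrix.conjTranspose_conjTranspose, Matrix.mul_assoc]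

theorem tr_nn (B : Matrix ι κ ℂ) {X : Matrix ι ι ℂ} {Z : Matrix κ κ ℂ} (hX : X.PosSemidef)
    (hZ : Z.PosSemidef) : 0 ≤ (Bᴴ * X * B * Z).trace := by
  obtain ⟨D, rfl⟩ := fac hX
  obtain ⟨C, rfl⟩ := fac hZ
  rw [tr_eq]
  exact (Matrix.posSemidef_conjTranspose_mul_self _).trace_nonneg

theorem tr_zero (B : Matrix ι κ ℂ) {X : Matrix ι ι ℂ} {Z : Matrix κ κ ℂ} (hX : X.PosDef)
    (hZ : Z.PosDef) (h : (Bᴴ * X * B * Z).trace.re = 0) : B = 0 := by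
  have h0 : (Bᴴ * X * B * Z).trace = 0 :=
    Complex.ext h (Complex.nonneg_iff.1 (tr_nn B hX.posSemidef hZ.posSemidef)).2.symm
  obtain ⟨D, rfl⟩ := fac hX.posSemidef
  obtain ⟨C, rfl⟩ := fac hZ.posSemidef
  rw [tr_eq, (Matrix.posSemidef_conjTranspose_mul_self _).trace_eq_zero_iff,
    Matrix.conjTranspose_mul_self_eq_zero] at h0
  have h1 : (Dᴴ * D)⁻¹ * Dᴴ * (D * B * Cᴴ) * C * (Cᴴ * C)⁻¹ =
      (Dᴴ * D)⁻¹ * (Dᴴ * D) * B * ((Cᴴ * C) * (Cᴴ * C)⁻¹) := by simp only [Matrix.mul_assoc]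
  rw [h0, Matrix.nonsing_inv_mul _ hX.det_pos.ne'.isUnit,
    Matrix.mul_nonsing_inv _ hZ.det_pos.ne'.isUnit] at h1
  simpa using h1.symm

theorem tr_vec (b : ι → ℂ) (s : κ → ℂ) (X : Matrix ι ι ℂ) (Z : Matrix κ κ ℂ) :
    ((Matrix.vecMulVec b s)ᴴ * X * Matrix.vecMulVec b s * Z).trace =
      (star b ⬝ᵥ X *ᵥ b) * (star s ⬝ᵥ Zᵀ *ᵥ s) := by
  rw [Matrix.conjTranspose_vecMulVec, Matrix.vecMulVec_mul, Matrix.vecMulVec_mul_vecMulVec,
    Matrix.vecMulVec_mul, Matrix.trace_vecMulVec, Matrix.smul_vecMul, dotProduct_smul,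
    Matrix.mulVec_transpose, Matrix.dotProduct_mulVec, smul_eq_mul]

variable {z : E n}

theorem sm_mul {A : E n → Matrix ι κ ℂ} {B : E n → Matrix κ κ' ℂ} (hA : SmI A z) (hB : SmI B z) :
    SmI (fun w => A w * B w) z := fun i j =>
  ContDiffAt.sum (s := Finset.univ) fun k _ => (hA i k).mul (hB k j)

theorem sm_ct {A : E n → Matrix ι κ ℂ} (hA : SmI A z) : SmI (fun w => (A w)ᴴ) z := fun i j =>
  conjCLE.contDiff.contDiffAt.comp z (hA j i)

theorem sm_kp {A : E n → Matrix ι κ ℂ} (hA : SmI A z) : SmI (fun w => kp m (A w)) z := fun f g =>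
  contDiffAt_prod (t := Finset.univ) fun a _ => hA (f a) (g a)

theorem sm_bk {A : E n → Matrix ι κ ℂ} (hA : SmI A z) : SmI (fun w => bk ρ (A w)) z := fun f g =>
  contDiffAt_const.mul (hA f.2 g.2)

end FL

open FL

theorem st_FL : St_FL := by
  intro n ρ m ι κ _ _
  refine ⟨fun Y P W B => ?_, fun Y W J B => ?_, fun Y W B hW hY => ⟨?_, fun Y' K hK h => ?_,
    fun hW' hY' h => ?_⟩, fun Y W b s hY hW => ?_, fun Y W B z hY hW hB => ?_⟩
  · simp only [fl, Matrix.conjTranspose_mul, ← bk_mul, ← kp_mul, ← bk_ct, ← kp_ct,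
      Matrix.mul_assoc]
  · simp only [fl, Matrix.conjTranspose_mul, ← kp_mul, ← kp_ct, Matrix.mul_assoc]
    rw [Matrix.trace_mul_comm]
    simp only [Matrix.mul_assoc]
  · exact (Complex.nonneg_iff.1 (tr_nn B (KQB.kq_psd fun _ => bk_psd hY)
      (KQB.kq_psd fun _ => hW))).1
  · have h1 : (kp m (bk ρ (K • Y')) - kp m (bk ρ Y)).PosSemidef :=
      KQB.kq_mono (fun _ => bk_psd hY) fun _ => bk_sub (ρ := ρ) (K • Y') Y ▸ bk_psd h
    have h2 := (Complex.nonneg_iff.1 (tr_nn B h1 (Z := kp ρ W) (KQB.kq_psd fun _ => hW))).1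
    rw [bk_smul, kp_smul, Matrix.mul_sub, Matrix.sub_mul, Matrix.sub_mul, Matrix.trace_sub,
      Matrix.mul_smul, Matrix.smul_mul, Matrix.smul_mul, Matrix.trace_smul, sub_re, smul_re,
      smul_eq_mul] at h2
    exact sub_nonneg.1 h2
  · exact tr_zero B (KQB.kq_pd fun _ => bk_pd hY') (KQB.kq_pd fun _ => hW') h
  · have h1 : (kp m (bk ρ Y)).IsHermitian := by
      rw [Matrix.IsHermitian, kp_ct, bk_ct, hY.eq]
    have h2 : (star b ⬝ᵥ kp m (bk ρ Y) *ᵥ b).im = 0 := h1.im_star_dotProduct_mulVec_self b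
    rw [fl, tr_vec, mul_re, h2, zero_mul, sub_zero]
    rfl
  · exact reCLM.contDiff.contDiffAt.comp z (ContDiffAt.sum (s := Finset.univ) fun k _ =>
      sm_mul (sm_mul (sm_mul (sm_ct hB) (sm_kp (sm_bk hY))) hB) (sm_kp (m := ρ) hW) k k)

end Pool.Agent.Lib.RAA
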