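import Pool.Agent.Lib.RAA.T_KQ
import Pool.Agent.Lib.HS32.EKit

/-! The inequality of Gram and the curvature of Kronecker powers. -/

open scoped Classical Topology ContDiff ComplexOrder Matrix Kronecker
open Set Complex Filter Function

set_option linter.unusedVariables false

noncomputable section

namespace Pool.Agent.Lib.RAA

open Pool.Agent.Lib.SV (E)
open Pool.Agent.Lib.HS32 KQB

namespace TENB

variable {n m : ℕ} {v z : E n} {f g : E n → ℂ} {ι κ : Type}

theorem dV_congr (e : f =ᶠ[𝓝 z] g) : dV v f z = dV v g z := by simp only [dV, dz_congr e]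

theorem dVb_congr (e : f =ᶠ[𝓝 z] g) : dVb v f z = dVb v g z := by simp only [dVb, dzb_congr e]

theorem hV_congr (e : f =ᶠ[𝓝 z] g) : hV v f z = hV v g z := by simp only [hV, hess_congr e]

theorem cd_dV (h : ContDiffAt ℝ ∞ f z) : ContDiffAt ℝ ∞ (dV v f) z :=
  ContDiffAt.sum fun j _ => contDiffAt_const.mul (cd_dz h j)

theorem dV_sum {s : Finset ι} {f : ι → E n → ℂ} (h : ∀ a ∈ s, DifferentiableAt ℝ (f a) z) :
    dV v (fun w => ∑ a ∈ s, f a w) z = ∑ a ∈ s, dV v (f a) z := by
  simp only [dV, dz_sum h, Finset.mul_sum]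
  exact Finset.sum_comm

theorem dVb_sum {s : Finset ι} {f : ι → E n → ℂ} (h : ∀ a ∈ s, DifferentiableAt ℝ (f a) z) :
    dVb v (fun w => ∑ a ∈ s, f a w) z = ∑ a ∈ s, dVb v (f a) z := by
  simp only [dVb, dzb_sum h, Finset.mul_sum]
  exact Finset.sum_comm

theorem dV_mul (hf : DifferentiableAt ℝ f z) (hg : DifferentiableAt ℝ g z) :
    dV v (fun w => f w * g w) z = dV v f z * g z + f z * dV v g z := by
  simp only [dV, dz_mul hf hg, Finset.mul_sum, Finset.sum_mul, ← Finset.sum_add_distrib]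
  exact Finset.sum_congr rfl fun j _ => by ring

theorem dVb_mul (hf : DifferentiableAt ℝ f z) (hg : DifferentiableAt ℝ g z) :
    dVb v (fun w => f w * g w) z = dVb v f z * g z + f z * dVb v g z := by
  simp only [dVb, dzb_mul hf hg, Finset.mul_sum, Finset.sum_mul, ← Finset.sum_add_distrib]
  exact Finset.sum_congr rfl fun j _ => by ring

theorem dV_const (c : ℂ) : dV v (fun _ => c) z = 0 := by simp [dV]

theorem dVb_const (c : ℂ) : dVb v (fun _ => c) z = 0 := by simp [dVb]

theorem dV_star (hf : DifferentiableAt ℝ f z) :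
    dV v (fun w => star (f w)) z = star (dVb v f z) := by
  simp only [dV, dVb, dz_star hf, star_sum, star_mul', star_star]

theorem dVb_star (hf : DifferentiableAt ℝ f z) :
    dVb v (fun w => star (f w)) z = star (dV v f z) := by
  simp only [dV, dVb, dzb_star hf, star_sum, star_mul']

theorem hV_eq (h : ContDiffAt ℝ ∞ f z) : hV v f z = dVb v (dV v f) z := by
  have e : ∀ i, dzb i (dV v f) z = ∑ j, v j * dzb i (dz j f) z := fun i => by
    rw [show dV v f = fun w => ∑ j, v j * dz j f w from rfl,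
      dzb_sum fun j _ => (cd_diff (cd_dz h j)).const_mul _]
    exact Finset.sum_congr rfl fun j _ => dzb_const_mul _ (cd_diff (cd_dz h j))
  simp only [hV, dVb, e, dotProduct, Matrix.mulVec, hess, Matrix.of_apply, Pi.star_apply, mul_comm]

theorem hV_star (h : ContDiffAt ℝ ∞ f z) : hV v (fun w => star (f w)) z = star (hV v f z) := by
  rw [hV, hV, hess_star h, Matrix.star_dotProduct, Matrix.star_mulVec,
    Matrix.conjTranspose_conjTranspose, Matrix.dotProduct_mulVec]

theorem hV_mul (hf : ContDiffAt ℝ ∞ f z) (hg : ContDiffAt ℝ ∞ g z) :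
    hV v (fun w => f w * g w) z =
      f z * hV v g z + g z * hV v f z + dVb v f z * dV v g z + dVb v g z * dV v f z := by
  have e : ∀ f g : E n → ℂ, star v ⬝ᵥ dd f g z *ᵥ v = dVb v f z * dV v g z := fun f g => by
    simp only [dd, dV, dVb, dotProduct, Matrix.mulVec, Matrix.of_apply, Pi.star_apply,
      Finset.mul_sum, Finset.sum_mul]
    rw [Finset.sum_comm]
    exact Finset.sum_congr rfl fun i _ => Finset.sum_congr rfl fun j _ => by ring
  simp only [hV, hess_mul hf hg, Matrix.add_mulVec, Matrix.smul_mulVec, dotProduct_add,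
    dotProduct_smul, smul_eq_mul, e]

theorem hV_sum {s : Finset ι} {f : ι → E n → ℂ} (h : ∀ a ∈ s, ContDiffAt ℝ ∞ (f a) z) :
    hV v (fun w => ∑ a ∈ s, f a w) z = ∑ a ∈ s, hV v (f a) z := by
  rw [hV_eq (ContDiffAt.sum h), Finset.sum_congr rfl fun a ha => hV_eq (h a ha),
    ← dVb_sum fun a ha => cd_diff (cd_dV (h a ha))]
  exact dVb_congr (((eventually_all_finset s).2 fun a ha => cd_ev_diff (h a ha)).mono
    fun w hw => dV_sum hw)

theorem hV_log {u : E n → ℝ} (hu : ContDiffAt ℝ ∞ u z) (h0 : u z ≠ 0) :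
    hV v (fun w => (Real.log (u w) : ℝ)) z = hV v (fun w => (u w : ℂ)) z / u z -
      dVb v (fun w => (u w : ℂ)) z * dV v (fun w => (u w : ℂ)) z / u z ^ 2 := by
  have h1 := cd_ofReal hu
  have h2 : (u z : ℂ) ≠ 0 := ofReal_ne_zero.2 h0
  have e : dV v (fun w => (Real.log (u w) : ℝ)) =ᶠ[𝓝 z]
      fun w => (u w : ℂ)⁻¹ * dV v (fun w => (u w : ℂ)) w := by
    filter_upwards [cd_ev_diff hu, hu.continuousAt.eventually_ne h0] with w k1 k2
    simp only [dV, dz_comp_real (Real.hasDerivAt_log k2) k1, Finset.mul_sum, ofReal_inv]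
    exact Finset.sum_congr rfl fun j _ => by ring
  have e2 : dVb v (fun w => (u w : ℂ)⁻¹) z = -(dVb v (fun w => (u w : ℂ)) z / u z ^ 2) := by
    simp only [dVb, dzb_inv (cd_diff h1) h2, Finset.sum_div, ← Finset.sum_neg_distrib]
    exact Finset.sum_congr rfl fun j _ => by ring
  rw [hV_eq (cd_ofReal (hu.log h0)), dVb_congr e,
    dVb_mul ((cd_diff h1).fun_inv h2) (cd_diff (cd_dV h1)), e2, hV_eq h1]
  ring

theorem dV_prod {g : Fin m → E n → ℂ} (h : ∀ a, DifferentiableAt ℝ (g a) z) :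
    dV v (fun w => ∏ a, g a w) z =
      ∑ a, (∏ a' ∈ Finset.univ.erase a, g a' z) * dV v (g a) z := by
  simp only [dV, dz, fderiv_finsetProd fun a (_ : a ∈ Finset.univ) => h a, sum_apply, smul_apply,
    smul_eq_mul, Finset.mul_sum, ← Finset.sum_sub_distrib, Finset.sum_div]
  rw [Finset.sum_comm]
  exact Finset.sum_congr rfl fun i _ => Finset.sum_congr rfl fun j _ => by ring

theorem dVb_prod {g : Fin m → E n → ℂ} (h : ∀ a, DifferentiableAt ℝ (g a) z) :
    dVb v (fun w => ∏ a, g a w) z =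
      ∑ a, (∏ a' ∈ Finset.univ.erase a, g a' z) * dVb v (g a) z := by
  simp only [dVb, dzb, fderiv_finsetProd fun a (_ : a ∈ Finset.univ) => h a, sum_apply, smul_apply,
    smul_eq_mul, Finset.mul_sum, ← Finset.sum_add_distrib, Finset.sum_div]
  rw [Finset.sum_comm]
  exact Finset.sum_congr rfl fun i _ => Finset.sum_congr rfl fun j _ => by ring

/-- Entrywise derivative of type `(1,0)`. -/
def DV (v : E n) (h : E n → Matrix ι κ ℂ) (z : E n) : Matrix ι κ ℂ :=
  Matrix.of fun i j => dV v (fun w => h w i j) z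

/-- Entrywise derivative of type `(0,1)`. -/
def DVb (v : E n) (h : E n → Matrix ι κ ℂ) (z : E n) : Matrix ι κ ℂ :=
  Matrix.of fun i j => dVb v (fun w => h w i j) z

theorem sm_DV {h : E n → Matrix ι κ ℂ} (hh : SmI h z) : SmI (DV v h) z := fun i j => cd_dV (hh i j)

theorem cv_eq [Fintype ι] [DecidableEq ι] {h : E n → Matrix ι ι ℂ} (hh : SmI h z) :
    cv h v z = DVb v (DV v h) z - DVb v h z * (h z)⁻¹ * DV v h z := by
  rw [cv]
  congr 1
  ext i j
  exact hV_eq (hh i j)

theorem sm_kq {g : Fin m → E n → Matrix ι κ ℂ} (h : ∀ a, SmI (g a) z) :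
    SmI (fun w => kq fun a => g a w) z := fun f f' =>
  contDiffAt_prod (t := Finset.univ) fun a _ => h a (f a) (f' a)

theorem DV_kq {g : Fin m → E n → Matrix ι κ ℂ}
    (h : ∀ a i j, DifferentiableAt ℝ (fun w => g a w i j) z) :
    DV v (fun w => kq fun a => g a w) z = ∑ a, kq (update (fun a => g a z) a (DV v (g a) z)) := by
  ext f f'
  simp only [Matrix.sum_apply, kq_update]
  exact dV_prod fun a => h a _ _

theorem DVb_kq {g : Fin m → E n → Matrix ι κ ℂ}
    (h : ∀ a i j, DifferentiableAt ℝ (fun w => g a w i j) z) :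
    DVb v (fun w => kq fun a => g a w) z =
      ∑ a, kq (update (fun a => g a z) a (DVb v (g a) z)) := by
  ext f f'
  simp only [Matrix.sum_apply, kq_update]
  exact dVb_prod fun a => h a _ _

theorem cv_kp [Fintype ι] [DecidableEq ι] {h : E n → Matrix ι ι ℂ} (hh : SmI h z)
    (h0 : (h z).det ≠ 0) : cv (fun w => kp m (h w)) v z = der m (h z) (cv h v z) := by
  set G : Fin m → Fin m → E n → Matrix ι ι ℂ := fun a => update (fun _ => h) a (DV v h) with hG
  have sG : ∀ a a', SmI (G a a') z := fun a a' => by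
    by_cases e : a' = a
    · rw [e, hG]; simpa using sm_DV hh
    · rw [hG]; simpa [update_of_ne e] using hh
  have eG : ∀ a w, (fun a' => G a a' w) = update (fun _ => h w) a (DV v h w) := fun a w =>
    funext fun a' => apply_update (fun _ (x : E n → Matrix ι ι ℂ) => x w) _ a _ a'
  have e1 : ∀ᶠ w in 𝓝 z, DV v (fun w => kp m (h w)) w = ∑ a, kq fun a' => G a a' w := by
    filter_upwards [eventually_all.2 fun i => eventually_all.2 fun j => cd_ev_diff (hh i j)]
      with w hw
    simp only [eG]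
    exact DV_kq (g := fun _ => h) fun _ => hw
  have e2 : DVb v (DV v fun w => kp m (h w)) z =
      ∑ a, ∑ a', kq (update (fun a' => G a a' z) a' (DVb v (G a a') z)) := by
    simp only [← DVb_kq fun a' i j => cd_diff (sG _ a' i j)]
    ext f f'
    rw [Matrix.sum_apply]
    refine Eq.trans (dVb_congr ?_) (dVb_sum fun a _ => cd_diff (sm_kq (sG a) f f'))
    filter_upwards [e1] with w hw
    rw [hw, Matrix.sum_apply]
  have e3 : (kp m (h z))⁻¹ = kp m (h z)⁻¹ := Matrix.inv_eq_right_inv (by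
    rw [kp, kp, kq_mul, Matrix.mul_nonsing_inv _ h0.isUnit, kq_one])
  have e4 : DVb v (fun w => kp m (h w)) z = _ :=
    DVb_kq (g := fun _ => h) fun _ i j => cd_diff (hh i j)
  have s0 : SmI (fun w => kp m (h w)) z := sm_kq (g := fun _ => h) fun _ => hh
  rw [cv_eq s0, e2, e3, e4, e1.self_of_nhds, der,
    Finset.mul_sum, ← Finset.sum_sub_distrib]
  refine Finset.sum_congr rfl fun a _ => ?_
  rw [Finset.sum_mul, Finset.sum_mul, ← Finset.sum_sub_distrib, Finset.sum_eq_single a _ (by simp)]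
  · rw [cv_eq hh, kq_sub, kp, kq_mul, kq_mul, eG, update_idem]
    congr 2
    · simp [hG]
    · funext k
      by_cases e : k = a
      · simp [e, hG]
      · simp [update_of_ne e, Matrix.mul_nonsing_inv _ h0.isUnit, hG]
  · intro a' _ ha
    rw [kp, kq_mul, kq_mul, sub_eq_zero]
    congr 1
    funext k
    by_cases e : k = a'
    · simp [e, hG, update_of_ne ha, Matrix.nonsing_inv_mul_cancel_right _ _ h0.isUnit]
    · simp [update_of_ne e, Matrix.mul_nonsing_inv _ h0.isUnit]

end TENB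

open TENB

theorem st_TEN1 : St_TEN1 := by
  intro n m ρ ι _ _ h z v hh h0
  have s1 : SmI (fun w => (1 : Matrix (Fin ρ) (Fin ρ) ℂ) ⊗ₖ h w) z := fun i j =>
    contDiffAt_const.mul (hh i.2 j.2)
  refine ⟨sm_kq (g := fun _ => h) fun _ => hh, cv_kp hh h0, s1, ?_⟩
  have e1 : ∀ {g : E n → Matrix ι ι ℂ} {w}, (∀ i j, DifferentiableAt ℝ (fun x => g x i j) w) →
      DV v (fun x => (1 : Matrix (Fin ρ) (Fin ρ) ℂ) ⊗ₖ g x) w = 1 ⊗ₖ DV v g w ∧
      DVb v (fun x => (1 : Matrix (Fin ρ) (Fin ρ) ℂ) ⊗ₖ g x) w = 1 ⊗ₖ DVb v g w := by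
    intro g w hg
    constructor <;> ext i j
    · exact (dV_mul (differentiableAt_const _) (hg i.2 j.2)).trans (by
        rw [dV_const, zero_mul, zero_add]; rfl)
    · exact (dVb_mul (differentiableAt_const _) (hg i.2 j.2)).trans (by
        rw [dVb_const, zero_mul, zero_add]; rfl)
  have e2 : DVb v (DV v fun x => (1 : Matrix (Fin ρ) (Fin ρ) ℂ) ⊗ₖ h x) z =
      1 ⊗ₖ DVb v (DV v h) z := by
    rw [← (e1 fun i j => cd_diff (sm_DV hh i j)).2]
    ext i j
    refine dVb_congr ?_
    filter_upwards [eventually_all.2 fun i => eventually_all.2 fun j => cd_ev_diff (hh i j)]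
      with w hw
    rw [(e1 hw).1]
  rw [cv_eq s1, cv_eq hh, e2, (e1 fun i j => cd_diff (hh i j)).1,
    (e1 fun i j => cd_diff (hh i j)).2, Matrix.inv_kronecker, inv_one, ← Matrix.mul_kronecker_mul,
    ← Matrix.mul_kronecker_mul, Matrix.one_mul, Matrix.one_mul]
  ext i j
  simp [mul_sub]

theorem st_TEN0 : St_TEN0 := by
  intro n κ _ _ H b z v hH hp hb
  set N : E n → ℂ := fun w => ∑ i, ∑ j, star (b w i) * (H w i j * b w j) with hN
  have eN : ∀ w, star (b w) ⬝ᵥ H w *ᵥ b w = N w := fun w => by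
    simp only [hN, dotProduct, Matrix.mulVec, Finset.mul_sum, Pi.star_apply]
  have s1 : ∀ i j, ContDiffAt ℝ ∞ (fun w => H w i j * b w j) z := fun i j => (hH i j).mul (hb j)
  have s2 : ∀ i j, ContDiffAt ℝ ∞ (fun w => star (b w i) * (H w i j * b w j)) z := fun i j =>
    (cd_star (hb i)).mul (s1 i j)
  have s3 : ∀ i, ContDiffAt ℝ ∞ (fun w => ∑ j, star (b w i) * (H w i j * b w j)) z := fun i =>
    ContDiffAt.sum fun j _ => s2 i j
  have sU : ContDiffAt ℝ ∞ (fun w => hq (H w) (b w)) z := by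
    simp only [hq, eN]
    exact cd_re (ContDiffAt.sum fun i _ => s3 i)
  refine ⟨sU, fun h0 hne => ?_⟩
  have hz := hp.self_of_nhds
  have re : ∀ {A : Matrix κ κ ℂ}, A.PosDef → ∀ x, (hq A x : ℂ) = star x ⬝ᵥ A *ᵥ x := fun hA x =>
    Complex.ext rfl (by simpa using (Complex.nonneg_iff.1
      (hA.posSemidef.dotProduct_mulVec_nonneg x)).2)
  have eU : (fun w => (hq (H w) (b w) : ℂ)) =ᶠ[𝓝 z] N := hp.mono fun w hw => (re hw _).trans (eN w)
  have U0 : 0 < hq (H z) (b z) := (Complex.pos_iff.1 (hz.dotProduct_mulVec_pos hne)).1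
  set β : κ → ℂ := fun i => dV v (fun w => b w i) z with hβ
  set D := DV v H z with hD
  have hDb : DVb v H z = Dᴴ := by
    ext i j
    rw [Matrix.conjTranspose_apply, hD, DV, Matrix.of_apply, ← dVb_star (cd_diff (hH j i))]
    exact dVb_congr (hp.mono fun w hw => (hw.1.apply i j).symm)
  have hDb' : ∀ i j, dVb v (fun w => H w i j) z = Dᴴ i j := fun i j => congrFun (congrFun hDb i) j
  have d1 : ∀ i j, dV v (fun w => H w i j * b w j) z = D i j * b z j + H z i j * β j := fun i j =>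
    dV_mul (cd_diff (hH i j)) (cd_diff (hb j))
  set x := β + (H z)⁻¹ *ᵥ D *ᵥ b z with hx
  have hi : H z * (H z)⁻¹ = 1 := Matrix.mul_nonsing_inv _ hz.det_pos.ne'.isUnit
  have hHx : H z *ᵥ x = H z *ᵥ β + D *ᵥ b z := by
    rw [hx, Matrix.mulVec_add, Matrix.mulVec_mulVec, hi, Matrix.one_mulVec]
  have a1 : dV v N z = star (b z) ⬝ᵥ H z *ᵥ x := by
    rw [hN, dV_sum fun i _ => cd_diff (s3 i), hHx]
    refine Finset.sum_congr rfl fun i _ => ?_
    rw [dV_sum fun j _ => cd_diff (s2 i j)]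
    simp only [dV_mul (cd_diff (cd_star (hb i))) (cd_diff (s1 i _)), dV_star (cd_diff (hb i)),
      (h0 i).1, star_zero, zero_mul, zero_add, d1, Pi.add_apply, Matrix.mulVec, dotProduct,
      Pi.star_apply, ← Finset.mul_sum, Finset.sum_add_distrib, add_comm]
  have a2 : hV v N z = star (b z) ⬝ᵥ (Matrix.of fun i j => hV v (fun w => H w i j) z) *ᵥ b z +
      star (b z) ⬝ᵥ Dᴴ *ᵥ β + star β ⬝ᵥ (H z *ᵥ β + D *ᵥ b z) := by
    rw [hN, hV_sum fun i _ => s3 i]
    simp only [dotProduct, ← Finset.sum_add_distrib]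
    refine Finset.sum_congr rfl fun i _ => ?_
    rw [hV_sum fun j _ => s2 i j]
    simp only [hV_mul (cd_star (hb i)) (s1 i _), hV_mul (hH i _) (hb _), hV_star (hb i),
      dV_star (cd_diff (hb i)), dVb_star (cd_diff (hb i)), (h0 _).1, (h0 _).2, star_zero, d1, hDb',
      Pi.add_apply, Matrix.mulVec, dotProduct, Pi.star_apply, Finset.mul_sum, Matrix.of_apply,
      ← Finset.sum_add_distrib]
    exact Finset.sum_congr rfl fun j _ => by ring
  have a3 : hV v N z = star (b z) ⬝ᵥ cv H v z *ᵥ b z + star x ⬝ᵥ H z *ᵥ x := by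
    have k1 : star ((H z)⁻¹ *ᵥ D *ᵥ b z) = star (b z) ᵥ* (Dᴴ * (H z)⁻¹) := by
      rw [Matrix.mulVec_mulVec, Matrix.star_mulVec, Matrix.conjTranspose_mul, hz.inv.1.eq]
    have k2 : (H z)⁻¹ * H z = 1 := Matrix.nonsing_inv_mul _ hz.det_pos.ne'.isUnit
    rw [a2, hHx, hx, star_add, add_dotProduct, k1, ← Matrix.dotProduct_mulVec, cv,
      show (Matrix.of fun i j => dVb v (fun w => H w i j) z) = Dᴴ from hDb,
      show (Matrix.of fun i j => dV v (fun w => H w i j) z) = D from rfl, Matrix.sub_mulVec,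
      Matrix.mulVec_add, Matrix.mulVec_mulVec, Matrix.mulVec_mulVec, Matrix.mul_assoc Dᴴ _ (H z),
      k2, Matrix.mul_one, dotProduct_sub, dotProduct_add (star (b z))]
    ring
  have a4 : dVb v (fun w => (hq (H w) (b w) : ℂ)) z = star (dV v N z) := by
    rw [← dV_congr eU, ← dVb_star (cd_diff (cd_ofReal sU))]
    simp
  set c := star (b z) ⬝ᵥ H z *ᵥ x with hc
  have cs : normSq c ≤ hq (H z) (b z) * hq (H z) x := by
    have k1 := hz.posSemidef.dotProduct_mulVec_nonneg ((hq (H z) (b z) : ℂ) • x - c • b z)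
    have k2 : star x ⬝ᵥ H z *ᵥ b z = star c := by
      rw [hc, Matrix.star_dotProduct, Matrix.star_mulVec, hz.1.eq, Matrix.dotProduct_mulVec]
    simp only [star_sub, star_smul, Matrix.mulVec_sub, Matrix.mulVec_smul, sub_dotProduct,
      dotProduct_sub, smul_dotProduct, dotProduct_smul, smul_eq_mul, k2, ← hc, ← re hz] at k1
    rw [RCLike.star_def, conj_ofReal, mul_comm (starRingEnd ℂ c) (hq _ _ : ℂ), sub_self, mul_zero,
      sub_zero, ← normSq_eq_conj_mul_self, ← ofReal_mul, ← ofReal_sub, ← ofReal_mul,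
      zero_le_real] at k1
    exact sub_nonneg.1 (nonneg_of_mul_nonneg_right k1 U0)
  have fin : nq (hl (fun w => hq (H w) (b w)) z) v =
      (hq (cv H v z) (b z) + hq (H z) x) / hq (H z) (b z) - normSq c / hq (H z) (b z) ^ 2 := by
    have k1 := hV_log (v := v) sU U0.ne'
    rw [hV_congr eU, a4, dV_congr eU, a1, a3, RCLike.star_def, ← normSq_eq_conj_mul_self,
      ← ofReal_pow] at k1
    rw [nq, show star v ⬝ᵥ hl (fun w => hq (H w) (b w)) z *ᵥ v = _ from k1, sub_re, div_ofReal_re,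
      div_ofReal_re, ofReal_re, add_re]
    rfl
  rw [fin, add_div, add_sub_assoc, le_add_iff_nonneg_right, sub_nonneg,
    div_le_div_iff₀ (by positivity) U0]
  nlinarith

end Pool.Agent.Lib.RAA
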