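import Pool.Agent.Lib.RA.T_KER
import Pool.Agent.Lib.RAA.T_KQ
import Pool.Agent.Lib.RAA.T_TEN

/-! Step A3: the Riccati identity on the diagonal and its consequence. -/

open scoped Classical Topology ContDiff ComplexOrder Matrix Kronecker
open Set Complex Metric Filter

set_option linter.unusedVariables false
set_option linter.unusedSectionVars false

noncomputable section

namespace Pool.Agent.Lib.RAA.K21

open Pool.Agent.Lib.SV (E)
open Pool.Agent.Lib.HS32 Pool.Agent.Lib.RA Pool.Agent.Lib.RA.R21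

variable {n r : ℕ} {F : E n × E n → ℂ} {z : E n}

lemma dV_dg (hF : AnalyticAt ℂ F (dg z)) (v : E n) :
    dV v (fun w => F (dg w)) z = R21.Dv (ez v) F (dg z) := by
  rw [Dv_z]
  exact Finset.sum_congr rfl fun j _ => by rw [PK.dz_dg hF.differentiableAt]

lemma dVb_dg (hF : AnalyticAt ℂ F (dg z)) (v : E n) :
    dVb v (fun w => F (dg w)) z = R21.Dv (eu (star v)) F (dg z) := by
  rw [Dv_u]
  exact Finset.sum_congr rfl fun j _ => by rw [PK.dzb_dg hF.differentiableAt]; rfl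

lemma hV_dg (hF : AnalyticAt ℂ F (dg z)) (v : E n) :
    hV v (fun w => F (dg w)) z = R21.Dv (eu (star v)) (R21.Dv (ez v) F) (dg z) := by
  rw [hV, PK.hess_dg (hn_of_an hF), Gm_form hF]

lemma herm_dg (hF : AnalyticAt ℂ F (dg z)) (hc : cj F =ᶠ[𝓝 (dg z)] F) :
    (Gm F (dg z)).IsHermitian := by
  have := PK.Gm_sw (y := dg z) (by rw [PK.sw_dg]; exact hn_of_an hF) hc
  rw [PK.sw_dg] at this
  exact this.symm

lemma left_ker (hF : AnalyticAt ℂ F (dg z)) (hc : cj F =ᶠ[𝓝 (dg z)] F) {v : E n}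
    (hv : Gm F (dg z) *ᵥ v = 0) : star v ᵥ* Gm F (dg z) = 0 := by
  rw [← (herm_dg hF hc).eq, ← Matrix.star_mulVec, hv, star_zero]

/-- The Riccati identity. -/
lemma cv_dg (J : Fin r → Fin n) (hF : AnalyticAt ℂ F (dg z)) (hc : cj F =ᶠ[𝓝 (dg z)] F)
    (hr : ∀ᶠ x in 𝓝 (dg z), (Gm F x).rank ≤ r) (hd : ((Gm F (dg z)).submatrix J J).det ≠ 0)
    {v : E n} (hv : Gm F (dg z) *ᵥ v = 0) :
    cv (fun w => (Gm F (dg w)).submatrix J J) v z = (al F (dg z) v).submatrix J J *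
      (((Gm F (dg z)).submatrix J J)⁻¹)ᵀ * ((al F (dg z) v).submatrix J J)ᴴ := by
  have h := ric_pol J J hF hr hd hv (left_ker hF hc hv)
  rw [Matrix.transpose_submatrix, al'_dg hF hc, ← Matrix.conjTranspose_submatrix] at h
  rw [← h, cv]
  simp only [Matrix.submatrix_apply, fun i j => hV_dg (Gm_an hF i j) v,
    fun i j => dVb_dg (Gm_an hF i j) v, fun i j => dV_dg (Gm_an hF i j) v]

section alg

variable {m ρ : ℕ}

/-- A tensor that vanishes on hyperplanes and on the image of a non-zero matrix is zero. -/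
lemma tensor_zero (b : (Fin m → Fin ρ × Fin r) → ℂ) (T : Mat r) (hT : T ≠ 0)
    (h1 : ∀ ξ : E r, ξ ≠ 0 → ∀ t : Fin m → Fin ρ × Fin r → ℂ,
      (∀ a k, ∑ l, ξ l * t a (k, l) = 0) → ∑ f : Fin m → Fin ρ × Fin r, b f * ∏ a, t a (f a) = 0)
    (h2 : ∀ (t : Fin m → Fin ρ × Fin r → ℂ) (a : Fin m) (s : Fin ρ × Fin r → ℂ),
      t a = s ᵥ* ((1 : Matrix (Fin ρ) (Fin ρ) ℂ) ⊗ₖ T) →
      ∑ f : Fin m → Fin ρ × Fin r, b f * ∏ a, t a (f a) = 0) : b = 0 := by
  obtain ⟨i, j, hij⟩ : ∃ i j, T i j ≠ 0 := by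
    by_contra h
    push Not at h
    exact hT (Matrix.ext h)
  have key : ∀ t : Fin m → Fin ρ × Fin r → ℂ,
      ∑ f : Fin m → Fin ρ × Fin r, b f * ∏ a, t a (f a) = 0 := by
    intro t
    set tw : Fin m → Fin ρ × Fin r → ℂ := fun a q => t a (q.1, j) / T i j * T i q.2 with htw
    set tH : Fin m → Fin ρ × Fin r → ℂ := fun a q => t a q - tw a q with htH
    have e : ∀ f : Fin m → Fin ρ × Fin r, ∏ a, t a (f a)
        = ∑ s : Finset (Fin m), ∏ a, (s.piecewise tw tH a) (f a) := fun f => by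
      have : ∀ a, t a (f a) = tw a (f a) + tH a (f a) := fun a => by simp [htH]
      simp only [this]
      rw [Fintype.prod_add]
      refine Finset.sum_congr rfl fun s _ => ?_
      rw [← Finset.prod_mul_prod_compl s fun a => (s.piecewise tw tH a) (f a)]
      congr 1
      · exact Finset.prod_congr rfl fun a ha => by rw [Finset.piecewise_eq_of_mem _ _ _ ha]
      · exact Finset.prod_congr rfl fun a ha => by
          rw [Finset.piecewise_eq_of_notMem _ _ _ (Finset.mem_compl.1 ha)]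
    simp only [e, Finset.mul_sum]
    rw [Finset.sum_comm]
    refine Finset.sum_eq_zero fun s _ => ?_
    rcases s.eq_empty_or_nonempty with rfl | ⟨a, ha⟩
    · refine h1 (Pi.single j 1) (by simp) _ fun a k => ?_
      simp only [Finset.piecewise_empty, htH, htw]
      rw [Finset.sum_eq_single j (fun l _ hl => by simp [hl]) (by simp)]
      field_simp
      simp
    · refine h2 _ a (fun q => if q.2 = i then t a (q.1, j) / T i j else 0) ?_
      rw [Finset.piecewise_eq_of_mem _ _ _ ha]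
      funext q
      simp only [htw, Matrix.vecMul, dotProduct, Fintype.sum_prod_type, Matrix.kroneckerMap_apply,
        Matrix.one_apply, ite_mul, zero_mul, one_mul, mul_ite, mul_zero]
      rw [Finset.sum_eq_single q.1 (fun k _ hk => by simp [hk]) (by simp)]
      simp
  funext f
  have := key fun a => Pi.single (f a) 1
  rw [Finset.sum_eq_single f] at this
  · simpa using this
  · intro g _ hg
    obtain ⟨a, ha⟩ := Function.ne_iff.1 hg
    rw [Finset.prod_eq_zero (Finset.mem_univ a) (by simp [ha]), mul_zero]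
  · simp

lemma der_psd {ι : Type} [Fintype ι] [DecidableEq ι] {h A : Matrix ι ι ℂ} (hh : h.PosDef)
    (hA : A.PosSemidef) : (der m h A).PosSemidef := by
  have := (st_KQ m ι ι ι).2.2.2.2.2.2.1 h A 0 hh (by simpa using hA)
  simpa using this

lemma hq_nonneg {ι : Type} [Fintype ι] {H : Matrix ι ι ℂ} (hH : H.PosSemidef) (b : ι → ℂ) :
    0 ≤ hq H b := (Complex.nonneg_iff.1 (hH.dotProduct_mulVec_nonneg b)).1

lemma hq_pos {ι : Type} [Fintype ι] {H : Matrix ι ι ℂ} (hH : H.PosDef) {b : ι → ℂ} (hb : b ≠ 0) :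
    0 < hq H b := (Complex.pos_iff.1 (hH.dotProduct_mulVec_pos hb)).1

lemma pd_of_det {ι : Type} [Fintype ι] [DecidableEq ι] {H : Matrix ι ι ℂ} (hH : H.PosSemidef)
    (hd : H.det ≠ 0) : H.PosDef :=
  hH.posDef_iff_isUnit.2 ((Matrix.isUnit_iff_isUnit_det _).2 (isUnit_iff_ne_zero.2 hd))

end alg

/-- Step A3. -/
theorem a3 {m ρ : ℕ} (J : Fin r → Fin n) (hF : AnalyticAt ℂ F (dg z)) (hc : cj F =ᶠ[𝓝 (dg z)] F)
    (hr : ∀ᶠ x in 𝓝 (dg z), (Gm F x).rank ≤ r) (hd : ((Gm F (dg z)).submatrix J J).det ≠ 0)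
    (hp : ∀ᶠ w in 𝓝 z, (Gm F (dg w)).PosSemidef)
    {b : E n × E n → (Fin m → Fin ρ × Fin r) → ℂ} (hb : ∀ L, AnalyticAt ℂ (fun x => b x L) (dg z))
    (hb0 : b (dg z) ≠ 0)
    (hH : ∀ ξ : E r, ξ ≠ 0 → ∀ t : Fin m → Fin ρ × Fin r → ℂ, (∀ a k, ∑ l, ξ l * t a (k, l) = 0) →
      ∑ f : Fin m → Fin ρ × Fin r, b (dg z) f * ∏ a, t a (f a) = 0)
    {v : E n} (hv : Gm F (dg z) *ᵥ v = 0)
    (hb1 : ∀ L, R21.Dv (eu (star v)) (fun x => b x L) (dg z) = 0 ∧
      R21.Dv (eu (star v)) (R21.Dv (ez v) fun x => b x L) (dg z) = 0) :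
    ContDiffAt ℝ ∞ (fun w => hq (kp m ((1 : Matrix (Fin ρ) (Fin ρ) ℂ) ⊗ₖ
      (Gm F (dg w)).submatrix J J)) (b (dg w))) z ∧
    0 < hq (kp m ((1 : Matrix (Fin ρ) (Fin ρ) ℂ) ⊗ₖ (Gm F (dg z)).submatrix J J)) (b (dg z)) ∧
    0 ≤ nq (hl (fun w => hq (kp m ((1 : Matrix (Fin ρ) (Fin ρ) ℂ) ⊗ₖ
      (Gm F (dg w)).submatrix J J)) (b (dg w))) z) v ∧
    (nq (hl (fun w => hq (kp m ((1 : Matrix (Fin ρ) (Fin ρ) ℂ) ⊗ₖ
      (Gm F (dg w)).submatrix J J)) (b (dg w))) z) v = 0 → al F (dg z) v = 0) := by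
  set h : E n → Mat r := fun w => (Gm F (dg w)).submatrix J J with hh
  have hs : SmI h z := fun i j => PK.cd_dg (F := fun x => Gm F x (J i) (J j))
    (hn_of_an (Gm_an hF _ _))
  have hpd : ∀ᶠ w in 𝓝 z, (h w).PosDef := by
    filter_upwards [hp, (PK.tendsto_dg z).eventually (det_ev J J hF hr hd)] with w h1 h2
    exact pd_of_det (h1.submatrix J) h2
  have hpd1 : ∀ᶠ w in 𝓝 z, ((1 : Matrix (Fin ρ) (Fin ρ) ℂ) ⊗ₖ h w).PosDef :=
    hpd.mono fun w hw => Matrix.PosDef.one.kronecker hw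
  have hpd2 : ∀ᶠ w in 𝓝 z, (kp m ((1 : Matrix (Fin ρ) (Fin ρ) ℂ) ⊗ₖ h w)).PosDef :=
    hpd1.mono fun w hw => ((st_KQ m _ (Fin r) (Fin r)).2.2.2.2.1 _).2 fun _ => hw
  obtain ⟨-, -, s1, c1⟩ := st_TEN1 n m ρ (Fin r) h z v hs hd
  obtain ⟨s2, c2, -, -⟩ := st_TEN1 n m ρ (Fin ρ × Fin r)
    (fun w => (1 : Matrix (Fin ρ) (Fin ρ) ℂ) ⊗ₖ h w) z v s1 hpd1.self_of_nhds.det_pos.ne'
  obtain ⟨t1, t2⟩ := st_TEN0 n _ _ (fun w => b (dg w)) z v s2 hpd2
    fun L => PK.cd_dg (F := fun x => b x L) (hn_of_an (hb L))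
  have t3 := t2 (fun L => ⟨(dVb_dg (hb L) v).trans (hb1 L).1, (hV_dg (hb L) v).trans (hb1 L).2⟩)
    hb0
  have hT := cv_dg J hF hc hr hd hv
  set α := (al F (dg z) v).submatrix J J with hα
  have hP : (((h z)⁻¹)ᵀ).PosDef := hpd.self_of_nhds.inv.transpose
  have hT0 : (cv h v z).PosSemidef := by
    rw [hT]; exact hP.posSemidef.mul_mul_conjTranspose_same α
  have hA : ((1 : Matrix (Fin ρ) (Fin ρ) ℂ) ⊗ₖ cv h v z).PosSemidef :=
    Matrix.PosSemidef.one.kronecker hT0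
  rw [c2, c1] at t3
  have p1 := hq_pos hpd2.self_of_nhds hb0
  have p2 := hq_nonneg (der_psd (m := m) hpd1.self_of_nhds hA) (b (dg z))
  refine ⟨t1, p1, (div_nonneg p2 p1.le).trans t3, fun h0 => ?_⟩
  have p3 : hq (der m ((1 : Matrix (Fin ρ) (Fin ρ) ℂ) ⊗ₖ h z)
      ((1 : Matrix (Fin ρ) (Fin ρ) ℂ) ⊗ₖ cv h v z)) (b (dg z)) = 0 := by
    have := t3.trans h0.le
    rw [div_le_iff₀ p1, zero_mul] at this
    exact le_antisymm this p2
  have hT1 : cv h v z = 0 := by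
    by_contra hne
    exact hb0 (tensor_zero _ _ hne hH
      ((st_KQ m _ (Fin r) (Fin r)).2.2.2.2.2.2.2.2 _ _ _ hpd1.self_of_nhds hA p3))
  refine al_zero J J hF hr hd hv ?_
  ext i j
  have e : (fun l => star (α i l)) = 0 := by
    by_contra hne
    have := hP.dotProduct_mulVec_pos hne
    have e2 := congrFun (congrFun (hT.symm.trans hT1) i) i
    refine this.ne' (Eq.trans ?_ e2)
    rw [Matrix.mul_assoc, Matrix.mul_apply]
    refine Finset.sum_congr rfl fun l _ => ?_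
    simp [Matrix.mulVec, dotProduct, Matrix.mul_apply, hh]
  exact star_eq_zero.1 (congrFun e j)

end Pool.Agent.Lib.RAA.K21
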