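import Pool.Agent.Lib.RAA.B_A4
import Pool.Agent.Lib.RAA.T_KQ
import Pool.Agent.Lib.RA.K_At
import Pool.Agent.Lib.RA.B_CH2

/-! Change of the local generator of a field of lines. -/

open scoped Classical Topology ContDiff ComplexOrder Matrix
open Set Complex Metric Filter

set_option linter.unusedVariables false

noncomputable section

namespace Pool.Agent.Lib.RAA

open Pool.Agent.Lib.SV (E)
open Pool.Agent.Lib.HS32 Pool.Agent.Lib.RA Pool.Agent.Lib.RA.KA KQB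

namespace LNT

variable {n ρ : ℕ}

theorem alg {J : Mat n} (hJ : J.det ≠ 0) (G : Mat n) (s : (Fin ρ → Fin n) → ℂ) (μ : ℂ) :
    hq (kp ρ (Jᴴ * G * J)ᵀ⁻¹) (μ • (s ᵥ* kp ρ J)) = normSq μ * hq (kp ρ Gᵀ⁻¹) s := by
  have h1 : IsUnit Jᵀ.det := by rw [Matrix.det_transpose]; exact hJ.isUnit
  have h2 : IsUnit Jᵀᴴ.det := by rw [Matrix.det_conjTranspose]; exact h1.star
  have e1 : Jᵀᴴ * (Jᴴ * G * J)ᵀ⁻¹ * Jᵀ = Gᵀ⁻¹ := by
    rw [Matrix.transpose_mul, Matrix.transpose_mul, show Jᴴᵀ = Jᵀᴴ from rfl, Matrix.mul_inv_rev,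
      Matrix.mul_inv_rev, Matrix.mul_assoc Jᵀᴴ, Matrix.nonsing_inv_mul_cancel_right _ _ h1,
      Matrix.mul_nonsing_inv_cancel_left _ _ h2]
  have e2 : (kp ρ Jᵀ)ᴴ * kp ρ (Jᴴ * G * J)ᵀ⁻¹ * kp ρ Jᵀ = kp ρ Gᵀ⁻¹ := by
    simp only [kp, kq_ct, kq_mul, e1]
  have e3 : s ᵥ* kp ρ J = kp ρ Jᵀ *ᵥ s := (Matrix.mulVec_transpose (kp ρ J) s).symm
  rw [hq, hq, ← e2, e3, star_smul, smul_dotProduct, Matrix.mulVec_smul, dotProduct_smul,
    Matrix.star_mulVec, ← Matrix.dotProduct_mulVec, Matrix.mulVec_mulVec, Matrix.mulVec_mulVec,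
    smul_smul, smul_eq_mul, RCLike.star_def, ← normSq_eq_conj_mul_self, re_ofReal_mul]

theorem hol_vm {τ : E n → E n} {s : E n → (Fin ρ → Fin n) → ℂ} {z : E n} (hτ : HolN τ z)
    (hs : HolN s z) (K : Fin ρ → Fin n) : HolN (fun w => (s w ᵥ* kp ρ (jm τ w)) K) z := by
  have h : ∀ᶠ w in 𝓝 z, ∀ i l, DifferentiableAt ℂ (fun w => jm τ w i l) w :=
    eventually_all.2 fun i => eventually_all.2 fun l => BCH2.hol_jr hτ i l
  filter_upwards [h, hs] with w h1 h2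
  simp only [Matrix.vecMul, dotProduct, kp, kq_apply]
  exact DifferentiableAt.fun_sum fun f _ => (differentiableAt_pi.1 h2 f).mul
    (HasFDerivAt.finsetProd (u := Finset.univ) (g := fun a w => jm τ w (f a) (K a))
      fun a _ => (h1 _ _).hasFDerivAt).differentiableAt

end LNT

open LNT in
theorem st_LNT : St_LNT := by
  intro n ρ M V σ a b x h ha hb ba bb sa sb
  have hτ := hol_tr (V.mem a) (V.mem b) ha hb
  set τ := V.e a ∘ (V.e b).symm with dτ
  have pt : τ (V.e b x) = V.e a x := tr_pt hb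
  have Ha : HolN (σ a) (V.e a x) := holN_of_on isOpen_ball (h.hol a) ba
  have Hb : HolN (σ b) (V.e b x) := holN_of_on isOpen_ball (h.hol b) bb
  have Ht : HolN (σ a ∘ τ) (V.e b x) := holN_comp (pt ▸ Ha) hτ
  obtain ⟨μ₀, h0⟩ := h.par a b x ha hb ba bb sa
  obtain ⟨K, hK⟩ := Function.ne_iff.1 sb
  have hD := hol_vm hτ Ht K
  have D0 : ((σ a ∘ τ) (V.e b x) ᵥ* kp ρ (jm τ (V.e b x))) K ≠ 0 := fun q => hK (by
    rw [Function.comp, pt] at q
    rw [h0, Pi.smul_apply, show M.J (V.e a) (V.e b) x = jm τ (V.e b x) from rfl, q, smul_zero]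
    rfl)
  have ev : ∀ᶠ w in 𝓝 (V.e b x), ∀ G, M.Met G → un ρ (G (V.e b)) (σ b) w =
      normSq (σ b w K / ((σ a ∘ τ) w ᵥ* kp ρ (jm τ w)) K) *
        un ρ (G (V.e a)) (σ a) (V.e a ((V.e b).symm w)) := by
    filter_upwards [(V.e b).open_target.mem_nhds ((V.e b).map_source hb),
      (ev_iff hb).1 ((V.e a).open_source.eventually_mem ha), isOpen_ball.mem_nhds bb,
      hτ.self_of_nhds.continuousAt.eventually (isOpen_ball.eventually_mem (pt ▸ ba)),
      Ht.self_of_nhds.continuousAt.eventually_ne (by rwa [Function.comp, pt]),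
      hD.self_of_nhds.continuousAt.eventually_ne D0] with w k1 k2 k3 k4 k5 k6 G hG
    have r := (V.e b).right_inv k1
    have k7 := (V.e b).map_target k1
    obtain ⟨μ, hμ⟩ := h.par a b _ k2 k7 k4 (by rwa [r]) k5
    have c := hG.cmp _ (V.mem a) _ (V.mem b) _ k2 k7
    have d := det_J (V.mem a) (V.mem b) k2 k7
    simp only [Mf.J, r] at hμ c d
    have e : σ b w K / ((σ a ∘ τ) w ᵥ* kp ρ (jm τ w)) K = μ := by
      rw [hμ, Pi.smul_apply, smul_eq_mul]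
      exact mul_div_cancel_right₀ _ k6
    rw [e, un, un, c, hμ, alg d]
  have hμ : HolN (fun w => σ b w K / ((σ a ∘ τ) w ᵥ* kp ρ (jm τ w)) K) (V.e b x) := by
    filter_upwards [Hb, hD, hD.self_of_nhds.continuousAt.eventually_ne D0] with w k1 k2 k3
    have k4 : DifferentiableAt ℂ (fun w => σ b w K) w := differentiableAt_pi.1 k1 K
    simp only [div_eq_mul_inv]
    exact k4.mul (k2.fun_inv k3)
  have μ0 := div_ne_zero hK D0
  refine ⟨⟨_, hμ, μ0, ev⟩, fun G hG => ?_⟩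
  have ta := (V.e a).map_source ha
  obtain ⟨u1, -, u2, -⟩ := (st_A4 n ρ).1 (G (V.e a)) (σ a) _ (hG.sm _ (V.mem a) _ ta)
    (((V.e a).open_target.eventually_mem ta).mono fun w hw => hG.pos _ (V.mem a) w hw) Ha
  obtain ⟨l1, l2, -⟩ := ((mHOL n _ _).2.2 hμ).2.2.2 μ0
  have u3 := cd_ofReal (u1.log (u2.2 sa))
  have u4 : ContinuousAt (fun w => un ρ (G (V.e a)) (σ a) (τ w)) (V.e b x) :=
    ContinuousAt.comp (g := un ρ (G (V.e a)) (σ a)) (pt ▸ u1.continuousAt)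
      hτ.self_of_nhds.continuousAt
  rw [← pt] at u3
  have c := mCHN n τ _ hτ
  have := c.2.2.2.2.2.2.2.2.2.2.2 _ u3
  rw [pt] at this
  rw [hl, hl, show M.J (V.e a) (V.e b) x = jm τ (V.e b x) from rfl, ← this,
    ← zero_add (hess (_ ∘ τ) _), ← l2, ← hess_add (cd_ofReal l1) (u3.comp _ c.1)]
  refine hess_congr ?_
  filter_upwards [ev, hμ.self_of_nhds.continuousAt.eventually_ne μ0,
    u4.eventually_ne (by rw [pt]; exact u2.2 sa)] with w k1 k2 k3
  rw [k1 G hG]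
  exact (congrArg _ (Real.log_mul (normSq_pos.2 k2).ne' k3)).trans (ofReal_add _ _)

end Pool.Agent.Lib.RAA
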