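import Pool.Agent.Lib.RAA.Blue
import Pool.Agent.Lib.RAA.T_TOP
import Pool.Agent.Lib.RA.B_TOP

/-! Project ra1, step A: the mixed density. -/

open scoped Classical Topology ContDiff ComplexOrder Matrix
open Set Complex Filter Matrix

noncomputable section

namespace Pool.Agent.Lib.RAA

open Pool.Agent.Lib.SV (E)
open Pool.Agent.Lib.HS32 Pool.Agent.Lib.RA Pool.Agent.Lib.RA28

namespace MIX

variable {n j : ℕ} {G B : E n → Mat n} {z : E n}

theorem cf_eq (n j : ℕ) : ∃ γ : Fin (n + 1) → ℂ, (∀ l, star (γ l) = γ l) ∧ ∀ T c : Mat n,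
    cf j T c = ∑ l, γ l • (T + ((l : ℕ) : ℂ) • c).adjugate := by
  obtain ⟨γ, h⟩ := TTop.nodes n j
  refine ⟨fun l => γ l, fun l => conj_ofReal _, fun T c => ?_⟩
  simp only [(h T c).1, TTop.rs, ofReal_natCast]

theorem herm_cf {T c : Mat n} (hT : T.IsHermitian) (hc : c.IsHermitian) :
    (cf j T c).IsHermitian := by
  obtain ⟨γ, h1, h2⟩ := cf_eq n j
  rw [IsHermitian, h2, conjTranspose_sum]
  refine Finset.sum_congr rfl fun m _ => ?_
  rw [conjTranspose_smul, adjugate_conjTranspose, conjTranspose_add, conjTranspose_smul, hT.eq,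
    hc.eq, h1, star_natCast]

theorem sm_cf (hG : SmM G z) (hB : SmM B z) : SmM (fun w => cf j (G w) (B w)) z := by
  obtain ⟨γ, -, h⟩ := cf_eq n j
  simp only [h]
  exact SmM.sum fun m _ => SmM.smul (f := fun _ => γ m) contDiffAt_const (sm_comb hG hB _).adjugate

theorem div_cf (hG : SmM G z) (hB : SmM B z) (cG : ClM G z) (cB : ClM B z) (a : Fin n) :
    ∑ i, dM i (fun w => cf j (G w) (B w)) z i a = 0 := by
  obtain ⟨γ, -, h⟩ := cf_eq n j
  have e : ∀ i, dM i (fun w => cf j (G w) (B w)) z i a = ∑ m : Fin (n + 1),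
      γ m * dM i (fun w => (G w + ((m : ℕ) : ℂ) • B w).adjugate) z i a := fun i => by
    simp only [dM, h, of_apply, Matrix.sum_apply, Matrix.smul_apply, smul_eq_mul]
    refine (dz_sum (f := fun (m : Fin (n + 1)) w => γ m * (G w + ((m : ℕ) : ℂ) • B w).adjugate i a)
      fun m _ => ((sm_comb hG hB _).adjugate.diff i a).const_mul _).trans ?_
    exact Finset.sum_congr rfl fun m _ => dz_const_mul _ ((sm_comb hG hB _).adjugate.diff i a)
  simp only [e]
  rw [Finset.sum_comm]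
  refine Finset.sum_eq_zero fun m _ => ?_
  rw [← Finset.mul_sum, (mCOF n _ z (sm_comb hG hB _)).2.2.2.1 (cl_comb hG hB cG cB _) a, mul_zero]

theorem dvf_of (hG : SmM G z) (hh : ∀ᶠ w in 𝓝 z, (G w).IsHermitian)
    (h : ∀ a, ∑ i, dM i G z i a = 0) : Dvf G z := by
  refine ⟨h, fun a => ?_⟩
  simp only [fun i => dMb_herm (k := i) hG hh, conjTranspose_apply]
  rw [← star_sum, h a, star_zero]

theorem adj_psd {T : Mat n} (h : T.PosDef) : T.adjugate.PosSemidef := by
  have e : T.adjugate = T.det • T⁻¹ := by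
    rw [Matrix.inv_def, smul_smul, Ring.mul_inverse_cancel _ h.det_pos.ne'.isUnit, one_smul]
  rw [e]
  exact h.inv.posSemidef.smul h.det_pos.le

end MIX

open MIX in
theorem st_MIX : St_MIX := by
  intro n M O T Q hO hT hQ hh
  have sm : ∀ x ∈ O, At M x fun e z => SmM (fun w => cf 1 (T e w) (Q e w)) z :=
    fun x hx e he hs => sm_cf (hT.sm.at he hs) (hQ.sm x hx e he hs)
  have hm : ∀ x ∈ O, At M x fun e z => (cf 1 (T e z) (Q e z)).IsHermitian :=
    fun x hx e he hs => herm_cf (hT.herm.at he hs) (hh x hx e he hs).1.1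
  have dv : ∀ x ∈ O, At M x fun e z => ∀ a, ∑ i, dM i (fun w => cf 1 (T e w) (Q e w)) z i a = 0 :=
    fun x hx e he hs => div_cf (hT.sm.at he hs) (hQ.sm x hx e he hs) (hT.cl.at he hs)
      (hh x hx e he hs).2
  refine ⟨⟨sm, fun e he e' he' x hs hs' hx => ?_, hm, dv⟩, fun x hx e he hs => ⟨sm x hx e he hs,
    dvf_of (sm x hx e he hs) (BTop.at_ev (p := fun _ e z => (cf 1 (T e z) (Q e z)).IsHermitian)
      hO hm hx he hs) (dv x hx e he hs),
    ((st_TOP2 n).1 _ _ (hT.pos.at he hs) (hh x hx e he hs).1).1, (hT.sm.at he hs).adjugate,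
    dvf_of (hT.sm.at he hs).adjugate ?_ ((mCOF n _ _ (hT.sm.at he hs)).2.2.2.1 (hT.cl.at he hs)),
    adj_psd (hT.pos.at he hs)⟩⟩
  · rw [hT.cmp e he e' he' x hs hs', hQ.cmp e he e' he' x hs hs' hx]
    exact ((st_TOP0 n 1).2 _ _ _).2
  · exact BTop.at_ev (p := fun _ e z => (aj M T e z).IsHermitian) hO
      (fun y _ e he hs => (adj_psd (hT.pos.at he hs)).1) hx he hs

end Pool.Agent.Lib.RAA
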