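import Pool.Agent.Lib.RAA.Tools
import Pool.Agent.Lib.RA.T_LO

/-! Derivatives of the lowest order, and dependence on parameters. -/

open scoped Topology ContDiff
open Set Filter

noncomputable section

namespace Pool.Agent.Lib.RAA

namespace LOB

variable {F G V : Type} [NormedAddCommGroup F] [NormedSpace ℂ F] [NormedAddCommGroup G]
  [NormedSpace ℂ G] [NormedAddCommGroup V] [NormedSpace ℂ V] [CompleteSpace V]

/-- Partial derivatives in terms of the total derivative. -/
theorem slice {g : F × G → V} {q : F} {x : G} (h : AnalyticAt ℂ g (q, x)) (m : ℕ) (v : Fin m → G) :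
    iteratedFDeriv ℂ m (fun y => g (q, y)) x v =
      iteratedFDeriv ℂ m g (q, x) fun a => (0, v a) := by
  set g' : F × G → V := fun w => g (w + (q, 0)) with hg'
  set L := ContinuousLinearMap.inr ℂ F G with hL
  have ho : IsOpen {w | AnalyticAt ℂ g' w} := isOpen_analyticAt ℂ g'
  have ho' := ho.preimage L.continuous
  have hx : L x ∈ {w | AnalyticAt ℂ g' w} :=
    h.comp_of_eq (analyticAt_id.add analyticAt_const) (by simp [hL])
  have h1 := L.iteratedFDerivWithin_comp_right (n := ω) (f := g') (s := {w | AnalyticAt ℂ g' w})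
    (AnalyticOnNhd.contDiffOn (fun w hw => hw) ho.uniqueDiffOn) ho.uniqueDiffOn ho'.uniqueDiffOn hx
    (i := m) le_top
  rw [iteratedFDerivWithin_of_isOpen m ho' hx, iteratedFDerivWithin_of_isOpen m ho hx, hg',
    iteratedFDeriv_comp_add_right] at h1
  have h2 : (fun y => g (q, y)) = (fun w => g (w + (q, 0))) ∘ L := funext fun y => by simp [hL]
  rw [h2, h1]
  simp [hL]

end LOB

theorem st_LO : St_LO := by
  intro F G V _ _ _ _ _ _ _ _ _ m
  refine ⟨fun θ g x hθ hg h => ?_, fun g p x v hg => ?_, fun g x hg h => ?_⟩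
  · obtain ⟨h1, h2⟩ := RA.lowest_order (M := m) hg.contDiffAt hθ.contDiffAt h
    exact ⟨h1, fun v => by rw [h2]; rfl⟩
  · have h0 : AnalyticAt ℂ (fun q : F => (q, x)) p := analyticAt_id.prod analyticAt_const
    have h1 : AnalyticAt ℂ (iteratedFDeriv ℂ m g) (p, x) :=
      AnalyticOnNhd.iteratedFDeriv (s := {w | AnalyticAt ℂ g w}) (fun w hw => hw) m _ hg
    have h2 := ((ContinuousMultilinearMap.apply ℂ (fun _ : Fin m => F × G) V
      fun a => (0, v a)).analyticAt _).comp (h1.comp_of_eq h0 rfl)
    refine h2.congr ?_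
    filter_upwards [h0.continuousAt.eventually hg.eventually_analyticAt] with q hq
    exact (LOB.slice hq m v).symm
  · obtain ⟨P, r, hP⟩ := hg
    filter_upwards [Metric.eball_mem_nhds x hP.r_pos] with y hy
    have h1 := hP.hasSum_iteratedFDeriv (y := y - x) (by simpa [edist_eq_enorm_sub] using hy)
    simp only [h, zero_apply, smul_zero, add_sub_cancel] at h1
    exact h1.unique hasSum_zero

end Pool.Agent.Lib.RAA
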