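import Pool.Agent.Lib.RAA.Blue
import Pool.Agent.Lib.RA.T_AN

/-! Project ra1, step A: change of coordinates for the differences of the gradients. -/

open scoped Classical Topology ContDiff ComplexOrder Matrix Kronecker ENNReal
open Set MeasureTheory Complex Metric Filter Module

set_option linter.unusedVariables false

noncomputable section

namespace Pool.Agent.Lib.RAA

open Pool.Agent.Lib.SV (E)
open Pool.Agent.Lib.HS32 Pool.Agent.Lib.RA

namespace PTE

open PK

variable {n : ℕ} {τ : E n → E n} {F F' : E n × E n → ℂ} {z w : E n}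

/-- The conjugate map. -/
def sg (τ : E n → E n) (u : E n) : E n := star (τ (star u))

theorem sg_star (τ : E n → E n) (w : E n) : sg τ (star w) = star (τ w) := by simp [sg]

theorem fd_jm (h : DifferentiableAt ℂ τ w) (v : E n) : fderiv ℂ τ w v = jm τ w *ᵥ v := by
  funext i
  have := clm_apply ((ContinuousLinearMap.proj i).comp (fderiv ℂ τ w)) v
  simpa [jm, Matrix.mulVec] using this

theorem hasF_sg (h : DifferentiableAt ℂ τ w) :
    ∃ L : E n →L[ℂ] E n, HasFDerivAt (sg τ) L (star w) ∧ ∀ t, L t = t ᵥ* (jm τ w)ᴴ := by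
  refine ⟨_, h.hasFDerivAt.star_star, fun t => ?_⟩
  have e : star (fderiv ℂ τ w (star t)) = t ᵥ* (jm τ w)ᴴ := by
    rw [fd_jm h, Matrix.star_mulVec, star_star]
  exact e

theorem hn_sg (h : Hn τ z) : Hn (sg τ) (star z) :=
  hn_star_star (V := τ) (u := star z) (by simpa using h)

/-- The difference of the two gradients. -/
def gdf (τ : E n → E n) (F F' : E n × E n → ℂ) (j : Fin n) (y : E n × E n) : ℂ :=
  pz F' y j - ∑ k, pz F (τ y.1, sg τ y.2) k * jm τ y.1 k j

theorem hn_jm (h : Hn τ z) (k j : Fin n) : Hn (fun w => jm τ w k j) z :=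
  hn_pi.1 (hn_fd h (Pi.single j 1)) k

theorem hn_df (h : Hn τ z) (hF : Hn F (dg (τ z))) (hF' : Hn F' (dg z)) (j : Fin n) :
    Hn (gdf τ F F' j) (dg z) := by
  have f1 : Hn (Prod.fst : E n × E n → E n) (dg z) := Eventually.of_forall fun _ =>
    differentiableAt_fst
  have f2 : Hn (Prod.snd : E n × E n → E n) (dg z) := Eventually.of_forall fun _ =>
    differentiableAt_snd
  have h1 : Hn (fun y : E n × E n => τ y.1) (dg z) := hn_comp (f := τ) h f1
  have h2 : Hn (fun y : E n × E n => sg τ y.2) (dg z) := hn_comp (f := sg τ) (hn_sg h) f2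
  have h3 : Hn (fun y : E n × E n => (τ y.1, sg τ y.2)) (dg z) :=
    (h1.and h2).mono fun y hy => hy.1.prodMk hy.2
  have h4 : ∀ k, Hn (fun y : E n × E n => pz F (τ y.1, sg τ y.2) k) (dg z) := fun k =>
    hn_comp (f := fun x => pz F x k) (k := fun y : E n × E n => (τ y.1, sg τ y.2))
      (by simp only [dg_fst, dg_snd, sg_star]; exact hn_pz hF k) h3
  have h5 : ∀ k, Hn (fun y : E n × E n => jm τ y.1 k j) (dg z) := fun k =>
    hn_comp (f := fun w => jm τ w k j) (hn_jm h k j) f1
  filter_upwards [hn_pz hF' j, eventually_all.2 h4, eventually_all.2 h5] with y a b c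
  exact a.sub (DifferentiableAt.fun_sum fun k _ => (b k).mul (c k))

theorem pu_df (h : Hn τ w) (hF : Hn F (dg (τ w))) (hF' : Hn F' (dg w)) (i j : Fin n) :
    pu (gdf τ F F' j) (dg w) i =
      (Gm F' (dg w) - (jm τ w)ᴴ * Gm F (dg (τ w)) * jm τ w) i j := by
  obtain ⟨L, hL, eL⟩ := hasF_sg (hn_at h)
  have a := hasF_u (F := fun x => pz F' x j) (z := w) (u := star w) (hn_at (hn_pz hF' j))
  have b : ∀ k, HasFDerivAt (fun u => pz F (τ w, sg τ u) k) _ (star w) := fun k =>
    HasFDerivAt.comp (g := fun u => pz F (τ w, u) k) (star w)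
      (hasF_u (F := fun x => pz F x k) (z := τ w) (u := sg τ (star w))
        (by rw [sg_star]; exact hn_at (hn_pz hF k))) hL
  have c := a.sub (HasFDerivAt.fun_sum (u := Finset.univ) fun k _ => (b k).mul_const (jm τ w k j))
  have d : pu (gdf τ F F' j) (dg w) i = _ := pu_slice (hn_at (hn_df h hF hF' j)) i
  rw [d]
  refine (congrArg (fun T : E n →L[ℂ] ℂ => T (Pi.single i 1)) c.fderiv).trans ?_
  have e : ∀ k, fderiv ℂ (fun x => pz F x k) (τ w, sg τ (star w)) (0, L (Pi.single i 1)) =
      ((jm τ w)ᴴ * Gm F (dg (τ w))) i k := fun k => by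
    rw [fd_u, eL, sg_star, Matrix.single_one_vecMul, dotProduct_comm]
    rfl
  simp only [ContinuousLinearMap.sub_apply, ContinuousLinearMap.sum_apply,
    ContinuousLinearMap.smul_apply, ContinuousLinearMap.comp_apply,
    ContinuousLinearMap.inr_apply, e, Matrix.sub_apply, smul_eq_mul]
  rw [Matrix.mul_apply]
  simp only [mul_comm]
  rfl

end PTE

open PK PTE in
theorem st_PTE : St_PTE := by
  intro n τ F F' z h hF hF' hG
  obtain ⟨L, hL, eL⟩ := hasF_sg (hn_at h)
  have ht : Tendsto (fun t : E n => star z + t) (𝓝 0) (𝓝 (star z)) := by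
    simpa using (continuous_const_add (star z)).tendsto (0 : E n)
  have hs : Hn (fun t : E n => sg τ (star z + t)) 0 :=
    hn_comp (f := sg τ) (k := fun t => star z + t) (by simpa using hn_sg h)
      (Eventually.of_forall fun _ => by fun_prop)
  refine ⟨fun t => sg τ (star z + t) - star (τ z), (ANB.analyticAt hs).sub analyticAt_const,
    by simp [sg_star], fun t => ?_, ?_⟩
  · have h1 : HasFDerivAt (fun t : E n => sg τ (star z + t)) L 0 :=
      (hasFDerivAt_comp_add_left (star z)).2 (by simpa using hL)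
    rw [(h1.sub_const _).fderiv, eL]
  have key : ∀ j, ∀ᶠ u in 𝓝 (star z), gdf τ F F' j (z, u) = gdf τ F F' j (dg z) := fun j => by
    have hd := hn_df h hF hF' j
    have h0 : ∀ i, ∀ᶠ y in 𝓝 (dg z), pu (gdf τ F F' j) y i = 0 := fun i => by
      refine id2_loc (F := fun y => pu (gdf τ F F' j) y i) (hn_pu hd i) ?_
      filter_upwards [hG, hn_ev h, (tendsto_dg z).eventually (hn_ev hF'),
        ((tendsto_dg (τ z)).comp (hn_at h).continuousAt).eventually (hn_ev hF)] with w a b c d
      rw [pu_df b d c, a, sub_self]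
      rfl
    have h1 : Tendsto (fun u : E n => (z, u)) (𝓝 (star z)) (𝓝 (dg z)) :=
      (Continuous.prodMk_right z).tendsto _
    obtain ⟨ε, hε, hb⟩ := Metric.mem_nhds_iff.1 (h1.eventually (hd.and (eventually_all.2 h0)))
    filter_upwards [ball_mem_nhds (star z) hε] with u hu
    refine isOpen_ball.is_const_of_fderiv_eq_zero (𝕜 := ℂ) (f := fun u => gdf τ F F' j (z, u))
      (convex_ball _ _).isPreconnected
      (fun x hx => (hasF_u (hb hx).1).differentiableAt.differentiableWithinAt) (fun x hx => ?_)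
      hu (mem_ball_self hε)
    refine ContinuousLinearMap.ext fun v => ?_
    rw [slice_u (hb hx).1, show pu (gdf τ F F' j) (z, x) = 0 from funext (hb hx).2]
    simp
  filter_upwards [ht.eventually (eventually_all.2 key)] with t e
  funext j
  have := e j
  simp only [gdf, dg_fst, dg_snd, sg_star] at this
  simp only [add_sub_cancel, Pi.sub_apply, Matrix.vecMul, dotProduct, sub_mul,
    Finset.sum_sub_distrib]
  rw [show dg (τ z) = (τ z, star (τ z)) from rfl]
  linear_combination this

end Pool.Agent.Lib.RAA
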