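import Pool.Agent.Lib.RAA.K21
import Pool.Agent.Lib.RAA.T_LO
import Pool.Agent.Lib.RA.T_FIB

/-! Step A2: the normal form along the fibres of the gradient. -/

open scoped Classical Topology ContDiff ComplexOrder Matrix Kronecker
open Set Complex Metric Filter

set_option linter.unusedVariables false
set_option linter.unusedSectionVars false

noncomputable section

namespace Pool.Agent.Lib.RAA.K21

open Pool.Agent.Lib.SV (E)
open Pool.Agent.Lib.HS32 Pool.Agent.Lib.RA Pool.Agent.Lib.RA.R21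

variable {n r ρ : ℕ}

/-- A component of the wedge product of `ρ` covectors. -/
def wd (ξ : Fin ρ → E n) (K : Fin ρ → Fin n) : ℂ := (Matrix.of fun a b => ξ a (K b)).det

lemma wd_li {ξ : Fin ρ → E n} {K : Fin ρ → Fin n} (h : wd ξ K ≠ 0) : LinearIndependent ℂ ξ := by
  have h1 : LinearIndependent ℂ (Matrix.of fun a b => ξ a (K b)).row :=
    Matrix.linearIndependent_rows_iff_isUnit.mpr
      ((Matrix.isUnit_iff_isUnit_det _).mpr (isUnit_iff_ne_zero.2 h))
  exact LinearIndependent.of_comp (LinearMap.funLeft ℂ ℂ K) h1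

lemma wd_zero {W : Submodule ℂ (E n)} (hW : Module.finrank ℂ W < ρ) {ξ : Fin ρ → E n}
    (h : ∀ a, ξ a ∈ W) (K : Fin ρ → Fin n) : wd ξ K = 0 := by
  by_contra hne
  have h1 := Submodule.finrank_mono
    (Submodule.span_le.2 (by rintro _ ⟨a, rfl⟩; exact h a) : Submodule.span ℂ (range ξ) ≤ W)
  rw [finrank_span_eq_card (wd_li hne), Fintype.card_fin] at h1
  exact absurd hW (not_lt.2 h1)

lemma wd_line {W : Submodule ℂ (E n)} (hW : Module.finrank ℂ W ≤ ρ) {ξ η : Fin ρ → E n}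
    (h : ∀ a, ξ a ∈ W) (h' : ∀ a, η a ∈ W) {K₀ : Fin ρ → Fin n} (h0 : wd η K₀ ≠ 0)
    (K : Fin ρ → Fin n) : wd ξ K * wd η K₀ = wd ξ K₀ * wd η K := by
  have hs : Submodule.span ℂ (range η) = W :=
    Submodule.eq_of_le_of_finrank_le (Submodule.span_le.2 (by rintro _ ⟨a, rfl⟩; exact h' a))
      (by rw [finrank_span_eq_card (wd_li h0), Fintype.card_fin]; exact hW)
  choose c hc using fun a => (Submodule.mem_span_range_iff_exists_fun ℂ).1 (hs.ge (h a))
  have e : ∀ K : Fin ρ → Fin n, wd ξ K = (Matrix.of c).det * wd η K := fun K => by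
    rw [wd, wd, ← Matrix.det_mul]
    congr 1
    ext a b
    rw [Matrix.of_apply, ← hc a]
    simp [Matrix.mul_apply, Finset.sum_apply]
  rw [e K, e K₀]; ring

lemma wd_an {Y : Type} [NormedAddCommGroup Y] [NormedSpace ℂ Y] {ξ : Y → Fin ρ → E n} {y : Y}
    (h : ∀ a j, AnalyticAt ℂ (fun x => ξ x a j) y) (K : Fin ρ → Fin n) :
    AnalyticAt ℂ (fun x => wd (ξ x) K) y :=
  det_an (G := fun x => Matrix.of fun a b => ξ x a (K b)) fun a b => h a (K b)

variable {F : E n × E n → ℂ} {x₀ : E n × E n}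

/-- The point and the `J` components of the gradient. -/
def HJ (F : E n × E n → ℂ) (J : Fin r → Fin n) (x : E n × E n) : E n × E r :=
  (x.1, fun l => pz F x (J l))

lemma HJ_an (J : Fin r → Fin n) (hF : AnalyticAt ℂ F x₀) : AnalyticAt ℂ (HJ F J) x₀ :=
  analyticAt_fst.prod (analyticAt_pi_iff.2 fun l => pz_an hF (J l))

lemma pzv_an (hF : AnalyticAt ℂ F x₀) : AnalyticAt ℂ (pz F) x₀ :=
  analyticAt_pi_iff.2 fun l => pz_an hF l

lemma fd_pz (hF : AnalyticAt ℂ F x₀) (a : E n × E n) (j : Fin n) :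
    fderiv ℂ (pz F) x₀ a j = R21.Dv a (fun x => pz F x j) x₀ := by
  rw [fderiv_pi fun l => (pz_an hF l).differentiableAt]; rfl

lemma fd_pz_u (hF : AnalyticAt ℂ F x₀) (w : E n) :
    fderiv ℂ (pz F) x₀ (0, w) = w ᵥ* Gm F x₀ := by
  funext j
  rw [fd_pz hF, Dv_u]; rfl

lemma fd_HJ (J : Fin r → Fin n) (hF : AnalyticAt ℂ F x₀) (a : E n × E n) :
    fderiv ℂ (HJ F J) x₀ a = (a.1, fun l => fderiv ℂ (pz F) x₀ a (J l)) := by
  have h1 : HasFDerivAt (fun x => fun l => pz F x (J l))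
      ((ContinuousLinearMap.pi fun l => ContinuousLinearMap.proj (R := ℂ) (φ := fun _ => ℂ) (J l)).comp
        (fderiv ℂ (pz F) x₀)) x₀ :=
    (ContinuousLinearMap.pi fun l => ContinuousLinearMap.proj (R := ℂ) (φ := fun _ => ℂ)
      (J l)).hasFDerivAt.comp x₀ (pzv_an hF).differentiableAt.hasFDerivAt
  have h2 := (hasFDerivAt_fst (𝕜 := ℂ) (p := x₀)).prodMk h1
  exact congrFun (congrArg DFunLike.coe h2.fderiv) a

/-- Every vector of `ℂ ^ r` is the `J` part of a combination of rows. -/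
lemma onto (I J : Fin r → Fin n) {G : Mat n} (hd : (G.submatrix I J).det ≠ 0) (t : E r) :
    ∃ w : E n, ∀ l, (w ᵥ* G) (J l) = t l := by
  refine ⟨∑ i, (t ᵥ* (G.submatrix I J)⁻¹) i • (Pi.single (I i) 1 : E n), fun l => ?_⟩
  have h : (t ᵥ* (G.submatrix I J)⁻¹) ᵥ* G.submatrix I J = t := by
    rw [Matrix.vecMul_vecMul, Matrix.nonsing_inv_mul _ (isUnit_iff_ne_zero.2 hd), Matrix.vecMul_one]
  rw [← congrFun h l, Matrix.sum_vecMul]
  simp only [Matrix.smul_vecMul, Matrix.single_one_vecMul, Finset.sum_apply, Pi.smul_apply,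
    smul_eq_mul, Matrix.row_apply]
  rfl

/-- The gradient factors through its `J` components. -/
lemma fib (I J : Fin r → Fin n) (hF : AnalyticAt ℂ F x₀) (hr : ∀ᶠ x in 𝓝 x₀, (Gm F x).rank ≤ r)
    (hd : ((Gm F x₀).submatrix I J).det ≠ 0) {O : Set (E n)} (hO : O ∈ 𝓝 x₀.2) :
    ∃ P : E n × E r → E n, AnalyticAt ℂ P (HJ F J x₀) ∧ (∀ᶠ x in 𝓝 x₀, pz F x = P (HJ F J x)) ∧
      ∀ᶠ a in 𝓝 (HJ F J x₀), (∀ l, P a (J l) = a.2 l) ∧ ∃ u ∈ O, P a = pz F (a.1, u) := by
  have hs : Function.Surjective (fderiv ℂ (HJ F J) x₀) := by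
    rintro ⟨v, t⟩
    obtain ⟨w, hw⟩ := onto I J hd (t - fun l => fderiv ℂ (pz F) x₀ (v, 0) (J l))
    refine ⟨(v, w), ?_⟩
    rw [fd_HJ J hF]
    refine Prod.ext rfl (funext fun l => ?_)
    have : ((v, w) : E n × E n) = (v, 0) + (0, w) := by simp
    show fderiv ℂ (pz F) x₀ (v, w) (J l) = t l
    rw [this, map_add, fd_pz_u hF, Pi.add_apply, hw]
    simp
  obtain ⟨s, s1, s2, s3, -, s4⟩ := st_FIB _ _ (HJ F J) x₀ (HJ_an J hF) hs
  refine ⟨fun a => pz F (s a), (pzv_an hF).comp_of_eq s1 s2, s4 _ (pz F) ?_, ?_⟩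
  · filter_upwards [hF.eventually_analyticAt, hr, det_ev I J hF hr hd] with x h1 h2 h3
    refine ⟨(pzv_an h1).differentiableAt, ?_⟩
    rintro ⟨v, w⟩ hv
    rw [fd_HJ J h1] at hv
    obtain rfl : v = 0 := congrArg Prod.fst hv
    have h4 : w ᵥ* (Gm F x).submatrix id J = 0 := by
      have := congrArg Prod.snd hv
      rw [fd_pz_u h1] at this
      exact this
    rw [fd_pz_u h1, schur (Gm F x) I J h2 h3, ← Matrix.vecMul_vecMul, ← Matrix.vecMul_vecMul, h4]
    simp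
  · have hc : ∀ᶠ a in 𝓝 (HJ F J x₀), (s a).2 ∈ O := by
      have : ContinuousAt (fun a => (s a).2) (HJ F J x₀) := continuousAt_snd.comp s1.continuousAt
      exact this.eventually (p := fun u => u ∈ O) (by show O ∈ 𝓝 (s (HJ F J x₀)).2; rw [s2]; exact hO)
    filter_upwards [s3, hc] with a h1 h2
    refine ⟨fun l => congrFun (congrArg Prod.snd h1) l, (s a).2, h2, ?_⟩
    rw [← show (s a).1 = a.1 from congrArg Prod.fst h1]

/-- The wedge product of the increments of the gradient. -/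
def Xi (F : E n × E n → ℂ) (x : E n × E n) (K : Fin ρ → Fin n) (y : Fin ρ → E n) : ℂ :=
  wd (fun k => pz F (x.1, x.2 + y k) - pz F x) K

/-- The same in the variables of the quotient. -/
def XP (P : E n × E r → E n) (a : E n × E r) (K : Fin ρ → Fin n) (t : Fin ρ → E r) : ℂ :=
  wd (fun k => P (a.1, a.2 + t k) - P a) K

/-- The increments of the `J` components. -/
def th (F : E n × E n → ℂ) (J : Fin r → Fin n) (x : E n × E n) (y : Fin ρ → E n) : Fin ρ → E r :=
  fun k l => pz F (x.1, x.2 + y k) (J l) - pz F x (J l)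

lemma th_zero (J : Fin r → Fin n) (x : E n × E n) : th (ρ := ρ) F J x 0 = 0 := by
  funext k l; simp [th]

lemma shift_an {V W : Type} [NormedAddCommGroup V] [NormedSpace ℂ V] [NormedAddCommGroup W]
    [NormedSpace ℂ W] (x : V × W) (k : Fin ρ) :
    AnalyticAt ℂ (fun y : Fin ρ → W => (x.1, x.2 + y k)) 0 :=
  analyticAt_const.prod (analyticAt_const.add
    ((ContinuousLinearMap.proj (R := ℂ) (φ := fun _ : Fin ρ => W) k).analyticAt _))

lemma shift_tendsto {V W : Type} [NormedAddCommGroup V] [NormedSpace ℂ V] [NormedAddCommGroup W]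
    [NormedSpace ℂ W] (x : V × W) (k : Fin ρ) :
    Tendsto (fun y : Fin ρ → W => (x.1, x.2 + y k)) (𝓝 0) (𝓝 x) := by
  simpa [ContinuousAt] using (shift_an x k).continuousAt

lemma th_an (J : Fin r → Fin n) (hF : AnalyticAt ℂ F x₀) : AnalyticAt ℂ (th (ρ := ρ) F J x₀) 0 :=
  analyticAt_pi_iff.2 fun k => analyticAt_pi_iff.2 fun l =>
    ((pz_an hF (J l)).comp_of_eq (shift_an x₀ k) (by simp)).sub analyticAt_const

lemma th_fd (J : Fin r → Fin n) (hF : AnalyticAt ℂ F x₀) (y : Fin ρ → E n) :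
    fderiv ℂ (th F J x₀) 0 y = fun k l => (y k ᵥ* Gm F x₀) (J l) := by
  have h0 : ∀ k : Fin ρ, HasFDerivAt (fun y : Fin ρ → E n => (x₀.1, x₀.2 + y k))
      ((ContinuousLinearMap.inr ℂ (E n) (E n)).comp
        (ContinuousLinearMap.proj (R := ℂ) (φ := fun _ : Fin ρ => E n) k)) 0 := fun k =>
    (hasFDerivAt_prodMk_right x₀.1 _).comp 0
      ((ContinuousLinearMap.proj (R := ℂ) (φ := fun _ : Fin ρ => E n) k).hasFDerivAt.const_add _)
  have h1 : ∀ (k : Fin ρ) (l : Fin r), HasFDerivAt (fun y : Fin ρ → E n => th F J x₀ y k l)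
      ((fderiv ℂ (fun x => pz F x (J l)) x₀).comp ((ContinuousLinearMap.inr ℂ (E n) (E n)).comp
        (ContinuousLinearMap.proj (R := ℂ) (φ := fun _ : Fin ρ => E n) k))) 0 := fun k l => by
    have h4 : HasFDerivAt (fun x => pz F x (J l)) (fderiv ℂ (fun x => pz F x (J l)) x₀)
        ((fun y : Fin ρ → E n => (x₀.1, x₀.2 + y k)) 0) := by
      simpa using (pz_an hF (J l)).differentiableAt.hasFDerivAt
    exact (h4.comp 0 (h0 k)).sub_const _
  have h2 := (hasFDerivAt_pi.2 fun k => hasFDerivAt_pi.2 fun l => h1 k l).fderiv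
  funext k l
  have h3 : fderiv ℂ (th F J x₀) 0 y k l = R21.Dv (eu (y k)) (fun x => pz F x (J l)) x₀ :=
    congrFun (congrFun (congrFun (congrArg DFunLike.coe h2) y) k) l
  rw [h3, Dv_u]; rfl

lemma XP_an {P : E n × E r → E n} {a : E n × E r} (hP : AnalyticAt ℂ P a) (K : Fin ρ → Fin n) :
    AnalyticAt ℂ (fun q : (E n × E r) × (Fin ρ → E r) => XP P q.1 K q.2) (a, 0) := by
  refine wd_an (fun k j => ?_) K
  have h1 : AnalyticAt ℂ (fun q : (E n × E r) × (Fin ρ → E r) => (q.1.1, q.1.2 + q.2 k)) (a, 0) :=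
    (analyticAt_fst.comp analyticAt_fst).prod ((analyticAt_snd.comp analyticAt_fst).add
      (((ContinuousLinearMap.proj (R := ℂ) (φ := fun _ : Fin ρ => E r) k).analyticAt _).comp
        analyticAt_snd))
  exact analyticAt_pi_iff.1 ((hP.comp_of_eq h1 (by simp)).sub
    (hP.comp_of_eq analyticAt_fst rfl)) j

lemma XP_an' {P : E n × E r → E n} {a : E n × E r} (hP : AnalyticAt ℂ P a) (K : Fin ρ → Fin n) :
    AnalyticAt ℂ (XP P a K) 0 :=
  (XP_an hP K).comp_of_eq (analyticAt_const.prod analyticAt_id) rfl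

lemma Xi_an (hF : AnalyticAt ℂ F x₀) (K : Fin ρ → Fin n) : AnalyticAt ℂ (Xi F x₀ K) 0 :=
  wd_an (fun k j => ((pz_an hF j).comp_of_eq (shift_an x₀ k) (by simp)).sub analyticAt_const) K

lemma Xi_eq (J : Fin r → Fin n) {P : E n × E r → E n}
    (h : ∀ᶠ x in 𝓝 x₀, pz F x = P (HJ F J x)) (K : Fin ρ → Fin n) :
    Xi F x₀ K =ᶠ[𝓝 0] XP P (HJ F J x₀) K ∘ th F J x₀ := by
  filter_upwards [eventually_all.2 fun k => (shift_tendsto x₀ k).eventually h] with y hy
  simp only [Xi, XP, Function.comp]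
  congr 1
  funext k
  rw [hy k, h.self_of_nhds]
  congr 2
  refine Prod.ext rfl (funext fun l => ?_)
  simp [HJ, th]

lemma low_of_comp {V W : Type} [NormedAddCommGroup V] [NormedSpace ℂ V] [CompleteSpace V]
    [NormedAddCommGroup W] [NormedSpace ℂ W] [CompleteSpace W] {θ : V → W} {g : W → ℂ} {x : V}
    (hθ : AnalyticAt ℂ θ x) (hg : AnalyticAt ℂ g (θ x)) (hs : Function.Surjective (fderiv ℂ θ x))
    {m : ℕ} (h : ∀ k < m, iteratedFDeriv ℂ k (g ∘ θ) x = 0) :
    ∀ k < m, iteratedFDeriv ℂ k g (θ x) = 0 := by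
  intro k
  induction k using Nat.strong_induction_on with
  | _ k ih =>
    intro hk
    have h1 := ((st_LO V W ℂ k).1 θ g x hθ hg fun j hj => ih j hj (hj.trans hk)).2
    ext w
    choose v hv using fun a => hs (w a)
    have h2 := h1 v
    simp only [hv, h k hk] at h2
    exact h2.symm

/-- Expansion of a multilinear form in the standard basis. -/
lemma expand {m : ℕ} (D : ContinuousMultilinearMap ℂ (fun _ : Fin m => Fin ρ → E r) ℂ)
    (t : Fin m → Fin ρ × Fin r → ℂ) : D (fun a k l => t a (k, l)) =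
      ∑ L : Fin m → Fin ρ × Fin r,
        D (fun a => Pi.single (L a).1 (Pi.single (L a).2 1)) * ∏ a, t a (L a) := by
  have e : (fun a k l => t a (k, l)) = fun a => ∑ q : Fin ρ × Fin r,
      t a q • (Pi.single q.1 (Pi.single q.2 1) : Fin ρ → E r) := by
    funext a k l
    simp only [Finset.sum_apply, Pi.smul_apply, smul_eq_mul]
    rw [Finset.sum_eq_single (k, l)]
    · simp
    · rintro ⟨k', l'⟩ _ hq
      by_cases h1 : k = k'
      · subst h1
        have : l ≠ l' := fun h => hq (by rw [h])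
        simp [this]
      · simp [h1]
    · simp
  rw [e, D.map_sum]
  refine Finset.sum_congr rfl fun L _ => ?_
  rw [D.map_smul_univ, smul_eq_mul, mul_comm]

/-- The span of the increments of the gradient. -/
def Ee (F : E n × E n → ℂ) (O : Set (E n)) (z : E n) : Submodule ℂ (E n) :=
  Submodule.span ℂ {ξ | ∃ u ∈ O, ∃ u' ∈ O, ξ = pz F (z, u) - pz F (z, u')}

/-- The direction with one non-zero slot. -/
abbrev sl {m : ℕ} (q : Fin ρ × Fin m) : Fin ρ → E m := Pi.single q.1 (Pi.single q.2 1)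

lemma iter_mul_const {V : Type} [NormedAddCommGroup V] [NormedSpace ℂ V] {g : V → ℂ} {x : V}
    (hg : AnalyticAt ℂ g x) (c : ℂ) (m : ℕ) (v : Fin m → V) :
    iteratedFDeriv ℂ m (fun y => g y * c) x v = iteratedFDeriv ℂ m g x v * c := by
  have : (fun y => g y * c) = c • g := funext fun y => mul_comm _ _
  rw [this, iteratedFDeriv_const_smul_apply (hg.contDiffAt (n := m)), mul_comm]
  rfl

/-- Step A2. -/
theorem nf {m : ℕ} (I J : Fin r → Fin n) (hF : AnalyticAt ℂ F x₀)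
    (hr : ∀ᶠ x in 𝓝 x₀, (Gm F x).rank ≤ r) (hd : ((Gm F x₀).submatrix I J).det ≠ 0)
    {O : Set (E n)} (hO : O ∈ 𝓝 x₀.2)
    (hE : ∀ᶠ z in 𝓝 x₀.1, Module.finrank ℂ (Ee F O z) ≤ ρ)
    {η : E n → Fin ρ → E n} (hη : ∀ k j, AnalyticAt ℂ (fun z => η z k j) x₀.1)
    (hη' : ∀ᶠ z in 𝓝 x₀.1, ∀ k, η z k ∈ Ee F O z) {K₀ : Fin ρ → Fin n} (h0 : wd (η x₀.1) K₀ ≠ 0)
    (hlow : ∀ᶠ x in 𝓝 x₀, ∀ k < m, iteratedFDeriv ℂ k (Xi F x K₀) 0 = 0) :
    ∃ b : E n × E n → (Fin m → Fin ρ × Fin r) → ℂ, (∀ L, AnalyticAt ℂ (fun x => b x L) x₀) ∧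
      (∀ᶠ x in 𝓝 x₀, ∀ (K : Fin ρ → Fin n) (y : Fin m → Fin ρ → E n),
        iteratedFDeriv ℂ m (Xi F x K) 0 y = (∑ L : Fin m → Fin ρ × Fin r,
          b x L * ∏ a, (y a (L a).1 ᵥ* Gm F x) (J (L a).2)) * wd (η x.1) K) ∧
      (∀ ξ : E r, ξ ≠ 0 → ∀ t : Fin m → Fin ρ × Fin r → ℂ, (∀ a k, ∑ l, ξ l * t a (k, l) = 0) →
        ∑ L : Fin m → Fin ρ × Fin r, b x₀ L * ∏ a, t a (L a) = 0) ∧
      ∀ v w, Gm F x₀ *ᵥ v = 0 → w ᵥ* Gm F x₀ = 0 → ∀ L, R21.Dv (eu w) (fun x => b x L) x₀ = 0 ∧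
        R21.Dv (eu w) (R21.Dv (ez v) fun x => b x L) x₀ = 0 := by
  obtain ⟨P, P1, P2, P3⟩ := fib I J hF hr hd hO
  set a₀ := HJ F J x₀ with ha₀
  set β : (Fin m → Fin ρ × Fin r) → E n × E r → ℂ := fun L a =>
    iteratedFDeriv ℂ m (XP P a K₀) 0 (fun k => sl (L k)) * (wd (η a.1) K₀)⁻¹ with hβ
  have hβa : ∀ L, AnalyticAt ℂ (β L) a₀ := fun L =>
    ((st_LO _ _ ℂ m).2.1 (fun q => XP P q.1 K₀ q.2) a₀ 0 _ (XP_an P1 K₀)).fun_mul
      (((wd_an hη K₀).fun_inv h0).comp_of_eq analyticAt_fst rfl)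
  have hH := HJ_an J hF
  have hba : ∀ L, AnalyticAt ℂ (fun x => β L (HJ F J x)) x₀ := fun L => (hβa L).comp_of_eq hH rfl
  have hlowP : ∀ᶠ x in 𝓝 x₀, (∀ k < m, iteratedFDeriv ℂ k (XP P (HJ F J x) K₀) 0 = 0) ∧
      ∀ y : Fin m → Fin ρ → E n, iteratedFDeriv ℂ m (Xi F x K₀) 0 y
        = iteratedFDeriv ℂ m (XP P (HJ F J x) K₀) 0 fun a k l => (y a k ᵥ* Gm F x) (J l) := by
    filter_upwards [hF.eventually_analyticAt, P2.eventually_nhds, hlow, det_ev I J hF hr hd,
      hH.continuousAt.eventually P1.eventually_analyticAt] with x h1 h2 h3 h4 h5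
    have e := Xi_eq J h2 K₀
    have g1 : AnalyticAt ℂ (XP P (HJ F J x) K₀) (th F J x 0) := by
      rw [th_zero]; exact XP_an' h5 K₀
    have hs : Function.Surjective (fderiv ℂ (th (ρ := ρ) F J x) 0) := fun t => by
      choose w hw using fun k => onto I J h4 (t k)
      exact ⟨w, by rw [th_fd J h1]; funext k l; exact hw k l⟩
    have l1 := low_of_comp (th_an J h1) g1 hs (m := m) fun k hk => by
      rw [← (e.iteratedFDeriv ℂ k).self_of_nhds]; exact h3 k hk
    have l2 := ((st_LO _ _ ℂ m).1 _ _ _ (th_an J h1) g1 l1).2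
    rw [th_zero] at l1 l2
    refine ⟨l1, fun y => ?_⟩
    rw [(e.iteratedFDeriv ℂ m).self_of_nhds, l2]
    simp only [th_fd J h1]
  refine ⟨fun x L => β L (HJ F J x), hba, ?_, ?_, ?_⟩
  · have t1 : Tendsto Prod.fst (𝓝 x₀) (𝓝 x₀.1) := continuous_fst.tendsto x₀
    have t2 : ∀ᶠ x in 𝓝 x₀, x.2 ∈ O := (continuous_snd.tendsto x₀).eventually hO
    filter_upwards [hlowP, hF.eventually_analyticAt, t1.eventually hE, t1.eventually hη',
      t1.eventually ((wd_an hη K₀).continuousAt.eventually_ne h0), t2.eventually_nhds]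
      with x h1 h2 h3 h4 h5 h6 K y
    have e : (fun y => Xi F x K y * wd (η x.1) K₀) =ᶠ[𝓝 0]
        fun y => Xi F x K₀ y * wd (η x.1) K := by
      filter_upwards [eventually_all.2 fun k => (shift_tendsto x k).eventually h6] with y hy
      exact wd_line h3 (fun k => Submodule.subset_span ⟨_, hy k, _, h6.self_of_nhds, rfl⟩) h4 h5 K
    have e2 := congrFun (congrArg DFunLike.coe (e.iteratedFDeriv ℂ m).self_of_nhds) y
    rw [iter_mul_const (Xi_an h2 K), iter_mul_const (Xi_an h2 K₀), h1.2,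
      expand _ fun a q => (y a q.1 ᵥ* Gm F x) (J q.2)] at e2
    rw [eq_mul_inv_iff_mul_eq₀ h5 |>.2 e2, mul_right_comm, Finset.sum_mul]
    congr 1
    exact Finset.sum_congr rfl fun L _ => mul_right_comm _ _ _
  · intro ξ hξ t ht
    set φ : E n →ₗ[ℂ] ℂ := (dotProductEquiv ℂ (Fin r) ξ).comp (LinearMap.funLeft ℂ ℂ J) with hφ
    have hφ' : ∀ g : E n, φ g = ∑ l, ξ l * g (J l) := fun g => rfl
    have hP0 := P3.self_of_nhds
    have hmem : ∀ a : E n × E r, a.1 = x₀.1 → (∃ u ∈ O, P a = pz F (a.1, u)) →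
        P a - P a₀ ∈ Ee F O x₀.1 := by
      rintro a h1 ⟨u, hu, h2⟩
      obtain ⟨u', hu', h3⟩ := hP0.2
      exact Submodule.subset_span ⟨u, hu, u', hu', by rw [h2, h3, h1]; rfl⟩
    have hlt : Module.finrank ℂ ↥(Ee F O x₀.1 ⊓ LinearMap.ker φ) < ρ := by
      refine lt_of_lt_of_le (Submodule.finrank_lt_finrank_of_lt
        (lt_of_le_of_ne inf_le_left fun heq => ?_)) hE.self_of_nhds
      obtain ⟨l, hl⟩ := Function.ne_iff.1 hξ
      have c1 : Tendsto (fun s : ℂ => (a₀.1, a₀.2 + s • (Pi.single l 1 : E r))) (𝓝[≠] 0)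
          (𝓝 a₀) := by
        have : Continuous fun s : ℂ => (a₀.1, a₀.2 + s • (Pi.single l 1 : E r)) := by fun_prop
        simpa using (this.tendsto 0).mono_left nhdsWithin_le_nhds
      obtain ⟨s, hs, hs0⟩ := ((c1.eventually P3).and self_mem_nhdsWithin).exists
      have h2 := (heq.ge (hmem _ rfl hs.2)).2
      rw [SetLike.mem_coe, LinearMap.mem_ker, hφ'] at h2
      simp only [Pi.sub_apply, hs.1, hP0.1, Pi.add_apply, add_sub_cancel_left, Pi.smul_apply,
        smul_eq_mul] at h2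
      rw [Finset.sum_eq_single l (fun j _ hj => by simp [hj]) (by simp)] at h2
      simp only [Pi.single_eq_same, mul_one] at h2
      exact mul_ne_zero hl hs0 h2
    set θ : (Fin m → ℂ) →L[ℂ] (Fin ρ → E r) := ∑ a, (ContinuousLinearMap.proj (R := ℂ)
      (φ := fun _ : Fin m => ℂ) a).smulRight (fun k l => t a (k, l)) with hθ
    have hθ' : ∀ c k l, θ c k l = ∑ a, c a * t a (k, l) := fun c k l => by
      simp [hθ, Finset.sum_apply]
    have e : XP P a₀ K₀ ∘ θ =ᶠ[𝓝 0] fun _ => 0 := by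
      have c1 : Tendsto θ (𝓝 0) (𝓝 0) := by simpa using θ.continuous.tendsto 0
      filter_upwards [c1.eventually
        (eventually_all.2 fun k => (shift_tendsto a₀ k).eventually P3)] with c hc
      refine wd_zero hlt (fun k => ⟨hmem _ rfl (hc k).2, ?_⟩) K₀
      rw [SetLike.mem_coe, LinearMap.mem_ker, hφ']
      simp only [Pi.sub_apply, (hc k).1, hP0.1, Pi.add_apply, add_sub_cancel_left, hθ',
        Finset.mul_sum]
      rw [Finset.sum_comm]
      refine Finset.sum_eq_zero fun a _ => ?_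
      rw [← mul_zero (c a), ← ht a k, Finset.mul_sum]
      exact Finset.sum_congr rfl fun l _ => by ring
    have l2 := ((st_LO _ _ ℂ m).1 θ (XP P a₀ K₀) 0 (θ.analyticAt 0)
      (by rw [map_zero]; exact XP_an' P1 K₀)
      (by rw [map_zero]; exact hlowP.self_of_nhds.1)).2 fun a => Pi.single a 1
    have e3 : (fun a => fderiv ℂ θ 0 (Pi.single a 1)) = fun a k l => t a (k, l) := by
      funext a k l
      rw [θ.fderiv, hθ', Finset.sum_eq_single a (fun j _ hj => by simp [hj]) (by simp)]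
      simp
    rw [(e.iteratedFDeriv ℂ m).self_of_nhds, map_zero, e3, expand] at l2
    simp only [hβ, mul_right_comm _ (wd (η _) K₀)⁻¹, ← Finset.sum_mul]
    rw [← ha₀, ← l2]
    simp
  · intro v w hv hw L
    have d1 : ∀ᶠ x in 𝓝 x₀, R21.Dv (eu w) (fun x => β L (HJ F J x)) x = ∑ l,
        R21.Dv ((0 : E n), (Pi.single l 1 : E r)) (β L) (HJ F J x) * (w ᵥ* Gm F x) (J l) := by
      filter_upwards [hF.eventually_analyticAt,
        hH.continuousAt.eventually (hβa L).eventually_analyticAt] with x h1 h2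
      have := fderiv_comp x h2.differentiableAt (HJ_an J h1).differentiableAt
      show fderiv ℂ (β L ∘ HJ F J) x (0, w) = _
      rw [this, ContinuousLinearMap.comp_apply, fd_HJ J h1, fd_pz_u h1]
      have e : (((0, w) : E n × E n).1, fun l => (w ᵥ* Gm F x) (J l))
          = ∑ l, (w ᵥ* Gm F x) (J l) • (((0 : E n), (Pi.single l 1 : E r)) : E n × E r) := by
        ext k
        · simp [Prod.fst_sum]
        · simp [Prod.snd_sum, Finset.sum_apply, Pi.single_apply]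
      rw [e, map_sum]
      exact Finset.sum_congr rfl fun l _ => by rw [map_smul, smul_eq_mul, mul_comm]; rfl
    refine ⟨by rw [d1.self_of_nhds, hw]; simp, ?_⟩
    have a1 : ∀ l, AnalyticAt ℂ
        (fun x => R21.Dv ((0 : E n), (Pi.single l 1 : E r)) (β L) (HJ F J x)) x₀ := fun l =>
      (Dv_an _ (hβa L)).comp_of_eq hH rfl
    rw [Dv_comm _ _ (hba L), (Dv_congr (ez v) d1).self_of_nhds,
      Dv_sum _ _ fun l _ => (a1 l).fun_mul (col_an hF w _)]
    refine Finset.sum_eq_zero fun l _ => ?_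
    rw [Dv_mul _ (a1 l) (col_an hF w _), hw, (Dv_congr (ez v) (col_ev hF w _)).self_of_nhds]
    have f1 := first I J hF hr hd hv hw (ez (Pi.single (J l) 1))
    rw [Dv_comm _ _ (Dv_an _ hF), Dv3_inner _ _ _ hF, ← Dv_comm _ _ (Dv_an _ hF)] at f1
    rw [f1]; simp

end Pool.Agent.Lib.RAA.K21
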