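import Pool.Agent.Lib.RAA.Blue
import Pool.Agent.Lib.RAA.K21b

/-! Step A: the rows RIC and KER. -/

open scoped Classical Topology ContDiff ComplexOrder Matrix Kronecker
open Set Complex Metric Filter

set_option linter.unusedVariables false
set_option linter.unusedSectionVars false

noncomputable section

namespace Pool.Agent.Lib.RAA

open Pool.Agent.Lib.SV (E)
open Pool.Agent.Lib.HS32 Pool.Agent.Lib.RA Pool.Agent.Lib.RA.R21 Pool.Agent.Lib.RAA.K21

namespace RIC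

variable {n r : ℕ} {F : E n × E n → ℂ} {x₀ : E n × E n}

lemma al_eq' (F : E n × E n → ℂ) (J : Fin r → Fin n) (z v : E n) :
    RAA.al F J z v = (R21.al F (dg z) v).submatrix J J := by
  ext i l
  simp only [RAA.al, R21.al, Matrix.of_apply, Matrix.submatrix_apply, mul_comm]

/-- A function of the point and of the `J` part of the gradient is holomorphic to second order
along the kernel. -/
lemma comp_ker (I J : Fin r → Fin n) (hF : AnalyticAt ℂ F x₀)
    (hr : ∀ᶠ x in 𝓝 x₀, (Gm F x).rank ≤ r) (hd : ((Gm F x₀).submatrix I J).det ≠ 0)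
    {β : E n × E r → ℂ} (hβ : AnalyticAt ℂ β (HJ F J x₀)) {v w : E n} (hv : Gm F x₀ *ᵥ v = 0)
    (hw : w ᵥ* Gm F x₀ = 0) : R21.Dv (eu w) (fun x => β (HJ F J x)) x₀ = 0 ∧
      R21.Dv (eu w) (R21.Dv (ez v) fun x => β (HJ F J x)) x₀ = 0 := by
  have hH := HJ_an J hF
  have d1 : ∀ᶠ x in 𝓝 x₀, R21.Dv (eu w) (fun x => β (HJ F J x)) x = ∑ l,
      R21.Dv ((0 : E n), (Pi.single l 1 : E r)) β (HJ F J x) * (w ᵥ* Gm F x) (J l) := by
    filter_upwards [hF.eventually_analyticAt,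
      hH.continuousAt.eventually hβ.eventually_analyticAt] with x h1 h2
    have := fderiv_comp x h2.differentiableAt (HJ_an J h1).differentiableAt
    show fderiv ℂ (β ∘ HJ F J) x (0, w) = _
    rw [this, ContinuousLinearMap.comp_apply, fd_HJ J h1, fd_pz_u h1]
    have e : (((0, w) : E n × E n).1, fun l => (w ᵥ* Gm F x) (J l))
        = ∑ l, (w ᵥ* Gm F x) (J l) • (((0 : E n), (Pi.single l 1 : E r)) : E n × E r) := by
      ext k
      · simp [Prod.fst_sum]
      · simp [Prod.snd_sum, Finset.sum_apply, Pi.single_apply]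
    rw [e, map_sum]
    exact Finset.sum_congr rfl fun l _ => by rw [map_smul, smul_eq_mul, mul_comm]; rfl
  refine ⟨by rw [d1.self_of_nhds, hw]; simp, ?_⟩
  have a1 : ∀ l, AnalyticAt ℂ
      (fun x => R21.Dv ((0 : E n), (Pi.single l 1 : E r)) β (HJ F J x)) x₀ := fun l =>
    (Dv_an _ hβ).comp_of_eq hH rfl
  have hba : AnalyticAt ℂ (fun x => β (HJ F J x)) x₀ := hβ.comp_of_eq hH rfl
  rw [Dv_comm _ _ hba, (Dv_congr (ez v) d1).self_of_nhds,
    Dv_sum _ _ fun l _ => (a1 l).fun_mul (col_an hF w _)]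
  refine Finset.sum_eq_zero fun l _ => ?_
  rw [Dv_mul _ (a1 l) (col_an hF w _), hw, (Dv_congr (ez v) (col_ev hF w _)).self_of_nhds]
  have f1 := first I J hF hr hd hv hw (ez (Pi.single (J l) 1))
  rw [Dv_comm _ _ (Dv_an _ hF), Dv3_inner _ _ _ hF, ← Dv_comm _ _ (Dv_an _ hF)] at f1
  rw [f1]; simp

end RIC

theorem st_RIC : St_RIC := by
  intro n r F z v J hF hre hr hd hv
  have ha := an_of_hn hF
  have hc := PK.cj_eq_loc hF hre
  refine ⟨fun i j => PK.cd_dg (F := fun x => Gm F x (J i) (J j)) (hn_of_an (Gm_an ha _ _)), ?_,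
    fun b hb => ?_⟩
  · rw [RIC.al_eq']
    exact cv_dg J ha hc hr hd hv
  · have hb' : AnalyticAt ℂ (fun x => b (HJ F J x)) (dg z) := hb.comp_of_eq (HJ_an J ha) rfl
    obtain ⟨h1, h2⟩ := RIC.comp_ker J J ha hr hd (β := b) hb hv (left_ker ha hc hv)
    exact ⟨PK.cd_dg (hn_of_an hb'), (dVb_dg hb' v).trans h1, (hV_dg hb' v).trans h2⟩

theorem st_KER : St_KER := by
  intro n r F c R z₀ J hF hr hz hd h
  have han : ∀ x ∈ ball (dg c) R, AnalyticAt ℂ F x := fun x hx =>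
    an_of_hn (PK.hn_of_on isOpen_ball hF hx)
  have hz' : dg z₀ ∈ ball (dg c) R := PK.dg_mem_ball.2 hz
  have hr' : ∀ x ∈ ball (dg c) R, ∀ᶠ x' in 𝓝 x, (Gm F x').rank ≤ r := fun x hx =>
    (isOpen_ball.eventually_mem hx).mono hr
  have hck : CK F c R r := by
    refine ck_of_al J J hF hr hz hd ?_
    filter_upwards [h, (PK.tendsto_dg z₀).eventually ((isOpen_ball.eventually_mem hz').and
      (det_ev J J (han _ hz') (hr' _ hz') hd))] with w h1 h2 v hv
    exact al_zero J J (han _ h2.1) (hr' _ h2.1) h2.2 hv (by rw [← RIC.al_eq']; exact h1 v hv)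
  obtain ⟨K, hK, hK'⟩ := hck z₀ hz
  have e : RAA.Ee F c R z₀ = Submodule.span ℂ (range fun s : ball (star c) R × ball (star c) R =>
      pz F (z₀, s.1) - pz F (z₀, s.2)) := by
    unfold RAA.Ee
    congr 1
    ext w
    exact ⟨fun ⟨u, hu, u', hu', h⟩ => ⟨(⟨u, hu⟩, ⟨u', hu'⟩), h.symm⟩,
      fun ⟨s, h⟩ => ⟨s.1, s.1.2, s.2, s.2.2, h.symm⟩⟩
  rw [e, span_le_iff]
  refine ⟨K, hK, fun v hv s => ?_⟩
  have hdf : ∀ u ∈ ball (star c) R, DifferentiableAt ℂ (R21.Dv (ez v) F) (z₀, u) := fun u hu =>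
    (Dv_an _ (han _ (PK.mk_mem_ball.2 ⟨hz, hu⟩))).differentiableAt
  have h1 := isOpen_ball.is_const_of_fderiv_eq_zero (𝕜 := ℂ)
    (f := fun u => R21.Dv (ez v) F (z₀, u)) (convex_ball _ _).isPreconnected
    (fun u hu => (PK.hasF_u (hdf u hu)).differentiableAt.differentiableWithinAt) ?_ s.1.2 s.2.2
  · rw [sub_dotProduct, ← PK.fd_z, ← PK.fd_z]
    exact sub_eq_zero.2 h1
  · intro u hu
    ext w
    rw [PK.slice_u (hdf u hu), ← PK.fd_u]
    have := Gm_form (han _ (PK.mk_mem_ball.2 ⟨hz, hu⟩)) v w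
    rw [hK' v hv u hu, dotProduct_zero] at this
    exact this.symm

end Pool.Agent.Lib.RAA
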