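import Pool.Agent.Lib.HS32.MBlue

/-! Project ra1, step A: definitions and statements of the tools. -/

open scoped Classical Topology ContDiff ComplexOrder Matrix Kronecker Polynomial
open Set MeasureTheory Complex Metric Filter

set_option linter.unusedVariables false

noncomputable section

namespace Pool.Agent.Lib.RAA

open Pool.Agent.Lib.SV (E)
open Pool.Agent.Lib.HS32

section defs
variable {n m : ℕ} {ι κ : Type}

/-- The line of matrices `T + X c`. -/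
def pm (T c : Mat n) : Matrix (Fin n) (Fin n) ℂ[X] :=
  T.map Polynomial.C + (Polynomial.X : ℂ[X]) • c.map Polynomial.C

/-- The coefficient of `X ^ j` in the determinant of `T + X c`. -/
def cd (j : ℕ) (T c : Mat n) : ℂ := (pm T c).det.coeff j

/-- The coefficient of `X ^ j` in the adjugate of `T + X c`. -/
def cf (j : ℕ) (T c : Mat n) : Mat n := Matrix.of fun a b => ((pm T c).adjugate a b).coeff j

/-- The real part of the trace of a product. -/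
def tp (A Q : Mat n) : ℝ := (A * Q).trace.re

/-- Kronecker product of a family of matrices. -/
def kq (A : Fin m → Matrix ι κ ℂ) : Matrix (Fin m → ι) (Fin m → κ) ℂ :=
  Matrix.of fun f g => ∏ a, A a (f a) (g a)

/-- Kronecker power. -/
def kp (m : ℕ) (A : Matrix ι κ ℂ) : Matrix (Fin m → ι) (Fin m → κ) ℂ := kq fun _ => A

/-- The derivative of the Kronecker power at `h` in the direction `A`. -/
def der (m : ℕ) (h A : Matrix ι ι ℂ) : Matrix (Fin m → ι) (Fin m → ι) ℂ :=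
  ∑ a : Fin m, kq (Function.update (fun _ => h) a A)

/-- The value of a Hermitian matrix on a vector. -/
def hq [Fintype ι] (H : Matrix ι ι ℂ) (b : ι → ℂ) : ℝ := (star b ⬝ᵥ H *ᵥ b).re

/-- Derivative of type `(1,0)` in the direction `v`. -/
def dV (v : E n) (f : E n → ℂ) (z : E n) : ℂ := ∑ j, v j * dz j f z

/-- Derivative of type `(0,1)` in the direction `v`. -/
def dVb (v : E n) (f : E n → ℂ) (z : E n) : ℂ := ∑ i, star (v i) * dzb i f z

/-- The Levi form in the direction `v`, with complex values. -/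
def hV (v : E n) (f : E n → ℂ) (z : E n) : ℂ := star v ⬝ᵥ hess f z *ᵥ v

/-- Minus the curvature of the metric `h` in the direction `v`. -/
def cv [Fintype ι] [DecidableEq ι] (h : E n → Matrix ι ι ℂ) (v z : E n) : Matrix ι ι ℂ :=
  (Matrix.of fun i j => hV v (fun w => h w i j) z) -
    (Matrix.of fun i j => dVb v (fun w => h w i j) z) * (h z)⁻¹ *
      Matrix.of fun i j => dV v (fun w => h w i j) z

/-- All entries are smooth at `z`. -/
def SmI (h : E n → Matrix ι κ ℂ) (z : E n) : Prop := ∀ i j, ContDiffAt ℝ ∞ (fun w => h w i j) z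

/-- The Hessian of the logarithm of a real function. -/
def hl (U : E n → ℝ) : E n → Mat n := hess fun w => (Real.log (U w) : ℝ)

/-- The Hessian of a real function. -/
def hr (U : E n → ℝ) : E n → Mat n := hess fun w => (U w : ℝ)

/-- Divergence free at `z`, in both indices. -/
def Dvf (A : E n → Mat n) (z : E n) : Prop :=
  (∀ a, ∑ j, dM j A z j a = 0) ∧ ∀ a, ∑ i, dMb i A z a i = 0

/-- A smooth function on `O` with support in the compact set `K`. -/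
structure Tst {F : Type} [NormedAddCommGroup F] [NormedSpace ℝ F] (O K : Set (E n))
    (f : E n → F) : Prop where
  cpt : IsCompact K
  sub : K ⊆ O
  sm : ∀ z ∈ O, ContDiffAt ℝ ∞ f z
  zero : ∀ z ∈ O, z ∉ K → f z = 0

end defs

/-! ### Linear algebra -/

/-- The coefficients are finite combinations of values, and transform as densities. -/
def St_TOP0 : Prop := ∀ n j : ℕ,
  (∃ γ : Fin (n + 1) → ℝ, ∀ T c : Mat n,
    cf j T c = ∑ l, γ l • (T + ((l : ℕ) : ℝ) • c).adjugate ∧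
    cd j T c = ∑ l, γ l • (T + ((l : ℕ) : ℝ) • c).det) ∧
  ∀ T c J : Mat n, cd j (Jᴴ * T * J) (Jᴴ * c * J) = (normSq J.det : ℂ) * cd j T c ∧
    J * cf j (Jᴴ * T * J) (Jᴴ * c * J) * Jᴴ = (normSq J.det : ℂ) • cf j T c

/-- The top coefficients for a semi-positive matrix of rank at most `j`. -/
def St_TOP1 : Prop := ∀ (n j : ℕ) (H β : Mat n), H.PosDef → β.PosSemidef → β.rank ≤ j →
  0 ≤ cd j H β ∧ (cd j H β ≠ 0 ↔ β.rank = j) ∧ (cf j H β).PosSemidef ∧ cf j H β * β = 0 ∧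
  (cd j H β • H⁻¹ - cf j H β).PosSemidef ∧
  (cf j H β * H).trace = ((n - j : ℕ) : ℂ) * cd j H β ∧
  (∀ Q : Mat n, Q.IsHermitian → (∀ v, β *ᵥ v = 0 → 0 ≤ nq Q v) → 0 ≤ tp (cf j H β) Q ∧
    (β.rank = j → tp (cf j H β) Q = 0 → ∀ v, β *ᵥ v = 0 → nq Q v = 0)) ∧
  ∀ K : ℝ, 1 ≤ K → (K • H - β).PosSemidef →
    (β.rank = j → ∃ Y : Mat n, Y.PosSemidef ∧ β * Y * β = β ∧
      ((K ^ j * H.det.re / (cd j H β).re) • H⁻¹ - Y).PosSemidef) ∧
    ∀ s : ℝ, 1 ≤ s → (H + s • β).det.re ≤ (2 * K * s) ^ j * H.det.re ∧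
      ((H + s • β).adjugate - s ^ j • cf j H β).PosSemidef ∧
      (s ^ j • cf j H β + ((2 * K) ^ n * s ^ j / s * H.det.re) • H⁻¹ -
        (H + s • β).adjugate).PosSemidef

/-- The mixed term, and a quadrature formula along a segment. -/
def St_TOP2 : Prop := ∀ n : ℕ,
  (∀ T c : Mat n, T.PosDef → c.PosSemidef → (cf 1 T c).PosSemidef ∧
    ((T.adjugate * c).trace • T⁻¹ - cf 1 T c).PosSemidef) ∧
  ∃ (N : ℕ) (s w : Fin N → ℝ), (∀ l, s l ∈ Icc (0 : ℝ) 1) ∧ ∀ T h c : Mat n,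
    ((T + h).adjugate * c).trace - (T.adjugate * c).trace =
      ∑ l, w l • (cf 1 (T + s l • h) c * h).trace

/-- Algebra of Kronecker products. -/
def St_KQ : Prop := ∀ (m : ℕ) (ι κ κ' : Type) [Fintype ι] [DecidableEq ι] [Fintype κ] [Fintype κ'],
  (∀ (A : Fin m → Matrix ι κ ℂ) (B : Fin m → Matrix κ κ' ℂ), kq A * kq B = kq fun a => A a * B a) ∧
  (∀ A : Fin m → Matrix ι κ ℂ, (kq A)ᴴ = kq (fun a => (A a)ᴴ) ∧ (kq A)ᵀ = kq fun a => (A a)ᵀ) ∧
  kp m (1 : Matrix ι ι ℂ) = 1 ∧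
  (∀ (c : ℝ) (A : Matrix ι κ ℂ), kp m (c • A) = c ^ m • kp m A) ∧
  (∀ A : Fin m → Matrix ι ι ℂ, ((∀ a, (A a).PosSemidef) → (kq A).PosSemidef) ∧
    ((∀ a, (A a).PosDef) → (kq A).PosDef)) ∧
  (∀ A B : Matrix ι ι ℂ, A.PosSemidef → (B - A).PosSemidef → (kp m B - kp m A).PosSemidef) ∧
  (∀ (h A : Matrix ι ι ℂ) (c : ℝ), h.PosDef → (A + c • h).PosSemidef →
    (der m h A + (m * c) • kp m h).PosSemidef) ∧
  (∀ (h : Matrix ι ι ℂ) (κ₁ : Type) [Fintype κ₁] (A : κ₁ → Matrix ι ι ℂ),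
    der m h (∑ k, A k) = ∑ k, der m h (A k)) ∧
  ∀ (h A : Matrix ι ι ℂ) (b : (Fin m → ι) → ℂ), h.PosDef → A.PosSemidef →
    hq (der m h A) b = 0 → ∀ (t : Fin m → ι → ℂ) (a : Fin m) (s : ι → ℂ), t a = s ᵥ* A →
      ∑ f : Fin m → ι, b f * ∏ a', t a' (f a') = 0

/-! ### Calculus -/

/-- The inequality of Gram for the norm of a section that is holomorphic at one point in one
direction. -/
def St_TEN0 : Prop := ∀ (n : ℕ) (κ : Type) [Fintype κ] [DecidableEq κ] (H : E n → Matrix κ κ ℂ)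
  (b : E n → κ → ℂ) (z v : E n), SmI H z → (∀ᶠ w in 𝓝 z, (H w).PosDef) → (∀ i, ContDiffAt ℝ ∞ (fun w => b w i) z) →
  ContDiffAt ℝ ∞ (fun w => hq (H w) (b w)) z ∧
  ((∀ i, dVb v (fun w => b w i) z = 0 ∧ hV v (fun w => b w i) z = 0) → b z ≠ 0 →
    hq (cv H v z) (b z) / hq (H z) (b z) ≤ nq (hl (fun w => hq (H w) (b w)) z) v)

/-- The curvature of a Kronecker power. -/
def St_TEN1 : Prop := ∀ (n m ρ : ℕ) (ι : Type) [Fintype ι] [DecidableEq ι]
  (h : E n → Matrix ι ι ℂ) (z v : E n), SmI h z → (h z).det ≠ 0 →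
  SmI (fun w => kp m (h w)) z ∧ cv (fun w => kp m (h w)) v z = der m (h z) (cv h v z) ∧
  SmI (fun w => (1 : Matrix (Fin ρ) (Fin ρ) ℂ) ⊗ₖ h w) z ∧
  cv (fun w => (1 : Matrix (Fin ρ) (Fin ρ) ℂ) ⊗ₖ h w) v z =
    (1 : Matrix (Fin ρ) (Fin ρ) ℂ) ⊗ₖ cv h v z

/-- Derivatives of the lowest order of a composition, and dependence on parameters. -/
def St_LO : Prop := ∀ (F G V : Type) [NormedAddCommGroup F] [NormedSpace ℂ F] [CompleteSpace F]
  [NormedAddCommGroup G] [NormedSpace ℂ G] [CompleteSpace G] [NormedAddCommGroup V]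
  [NormedSpace ℂ V] [CompleteSpace V] (m : ℕ),
  (∀ (θ : F → G) (g : G → V) (x : F), AnalyticAt ℂ θ x → AnalyticAt ℂ g (θ x) →
    (∀ k < m, iteratedFDeriv ℂ k g (θ x) = 0) →
    (∀ k < m, iteratedFDeriv ℂ k (g ∘ θ) x = 0) ∧ ∀ v : Fin m → F,
      iteratedFDeriv ℂ m (g ∘ θ) x v = iteratedFDeriv ℂ m g (θ x) fun a => fderiv ℂ θ x (v a)) ∧
  (∀ (g : F × G → V) (p : F) (x : G) (v : Fin m → G), AnalyticAt ℂ g (p, x) →
    AnalyticAt ℂ (fun q => iteratedFDeriv ℂ m (fun y => g (q, y)) x v) p) ∧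
  ∀ (g : G → V) (x : G), AnalyticAt ℂ g x → (∀ k, iteratedFDeriv ℂ k g x = 0) →
    ∀ᶠ y in 𝓝 x, g y = 0

/-- The inequality of Glaeser. -/
def St_GLA : Prop := ∀ (n : ℕ) (M : Mf n) [M.Cpt] (H : M.Fam (Mat n)) (a : M.X → ℝ), M.Met H →
  M.Sm a → (∀ x, 0 ≤ a x) → ∃ C : ℝ, 0 < C ∧ M.Le (M.ds a a) fun e z => (C * a (e.symm z)) • H e z

/-- Integration by parts against a divergence free density. -/
def St_EGI : Prop := ∀ (n : ℕ) (O K : Set (E n)) (A : E n → Mat n), IsOpen O →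
  (∀ z ∈ O, SmM A z ∧ Dvf A z) →
  (∀ W : E n → E n, Tst O K W →
    IntegrableOn (fun z => ∑ j, ∑ i, A z j i * dzb i (fun w => W w j) z) O ∧
    ∫ z in O, ∑ j, ∑ i, A z j i * dzb i (fun w => W w j) z = 0) ∧
  ∀ ψ w : E n → ℂ, (∀ z ∈ O, ContDiffAt ℝ ∞ ψ z ∧ ContDiffAt ℝ ∞ w z) →
    (∀ z ∈ O, z ∉ K → (∀ᶠ y in 𝓝 z, ψ y = 0) ∨ ∀ᶠ y in 𝓝 z, w y = 0) → IsCompact K → K ⊆ O →
    IntegrableOn (fun z => ψ z * (A z * hess w z).trace) O ∧
    IntegrableOn (fun z => (A z * dd ψ w z).trace) O ∧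
    IntegrableOn (fun z => (A z * dd w ψ z).trace) O ∧
    IntegrableOn (fun z => w z * (A z * hess ψ z).trace) O ∧
    ∫ z in O, ψ z * (A z * hess w z).trace = -∫ z in O, (A z * dd ψ w z).trace ∧
    ∫ z in O, ψ z * (A z * hess w z).trace = -∫ z in O, (A z * dd w ψ z).trace ∧
    ∫ z in O, ψ z * (A z * hess w z).trace = ∫ z in O, w z * (A z * hess ψ z).trace

/-- The extension by zero of a closed positive form of finite mass is closed. -/
def St_EM1 : Prop := ∀ (n : ℕ) (ι : Type) [Fintype ι] (O K : Set (E n)) (g : E n → ι → ℂ)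
  (A : E n → Mat n) (W : E n → E n), IsOpen O → DifferentiableOn ℂ g O →
  (∀ z ∈ O, g z ≠ 0 → SmM A z ∧ Dvf A z ∧ (A z).PosSemidef) →
  (∀ L, IsCompact L → L ⊆ O → IntegrableOn (fun z => (A z).trace.re) (L ∩ {z | g z ≠ 0})) →
  Tst O K W →
    IntegrableOn (fun z => ∑ j, ∑ i, A z j i * dzb i (fun w => W w j) z) (O ∩ {z | g z ≠ 0}) ∧
    ∫ z in O ∩ {z | g z ≠ 0}, ∑ j, ∑ i, A z j i * dzb i (fun w => W w j) z = 0

/-- The Hessian of a bounded function has no mass on an analytic set. -/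
def St_EM2 : Prop := ∀ (n : ℕ) (ι : Type) [Fintype ι] (O K : Set (E n)) (g : E n → ι → ℂ)
  (A : E n → Mat n) (ψ β : E n → ℝ) (C : ℝ), IsOpen O → DifferentiableOn ℂ g O →
  volume (O ∩ {z | g z = 0}) = 0 → (∀ z ∈ O, SmM A z ∧ Dvf A z ∧ (A z).PosSemidef) →
  (∀ z ∈ O, g z ≠ 0 → ContDiffAt ℝ ∞ ψ z ∧ |ψ z| ≤ C) → Tst O K β → (∀ z ∈ O, 0 ≤ β z) →
  IntegrableOn (fun z => tp (A z) (hr ψ z)) (K ∩ {z | g z ≠ 0}) →
    IntegrableOn (fun z => ψ z * tp (A z) (hr β z)) (O ∩ {z | g z ≠ 0}) ∧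
    ∫ z in O ∩ {z | g z ≠ 0}, β z * tp (A z) (hr ψ z) =
      ∫ z in O ∩ {z | g z ≠ 0}, ψ z * tp (A z) (hr β z)

/-- Finite mass. -/
def St_EM3 : Prop := ∀ (n : ℕ) (O : Set (E n)) (U : E n → ℝ) (H : E n → Mat n), IsOpen O →
  (∀ z ∈ O, ContDiffAt ℝ ∞ U z ∧ 0 ≤ U z ∧ SmM H z ∧ (H z).IsHermitian ∧
    (U z ≠ 0 → (hl U z + H z).PosSemidef) ∧ ∃ᶠ w in 𝓝 z, U w ≠ 0) →
  ∀ L, IsCompact L → L ⊆ O → ∀ i j, IntegrableOn (fun z => hl U z i j) (L ∩ {z | U z ≠ 0})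

end Pool.Agent.Lib.RAA
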