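import Pool.Agent.Lib.RAA.Blue
import Pool.Agent.Lib.RA.K_At

/-! Project ra1, step A: the key inequality on the manifold. -/

open scoped Classical Topology ContDiff ComplexOrder Matrix
open Set MeasureTheory Complex Metric Filter

set_option linter.unusedVariables false

noncomputable section

namespace Pool.Agent.Lib.RAA

open Pool.Agent.Lib.SV (E)
open Pool.Agent.Lib.HS32 Pool.Agent.Lib.RA

namespace POS

variable {n r : ℕ}

theorem nq_conj (J T : Mat n) (v : E n) : nq (Jᴴ * T * J) v = nq T (J *ᵥ v) := by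
  unfold nq
  rw [← Matrix.mulVec_mulVec, ← Matrix.mulVec_mulVec, Matrix.dotProduct_mulVec,
    ← Matrix.star_mulVec]

theorem ker_conj {J B : Mat n} (hJ : J.det ≠ 0) (v : E n) :
    (Jᴴ * B * J) *ᵥ v = 0 ↔ B *ᵥ (J *ᵥ v) = 0 := by
  rw [← Matrix.mulVec_mulVec, ← Matrix.mulVec_mulVec]
  refine ⟨fun h => ?_, fun h => by rw [h, Matrix.mulVec_zero]⟩
  exact Matrix.eq_zero_of_mulVec_eq_zero
    (by rw [Matrix.det_conjTranspose]; exact star_ne_zero.2 hJ) h

theorem al_sum (F : E n × E n → ℂ) (J : Fin r → Fin n) (w : E n) (c : Fin n → ℂ)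
    (u : Fin n → E n) (h : ∀ i, al F J w (u i) = 0) : al F J w (∑ i, c i • u i) = 0 := by
  ext i l
  have h' : ∀ b, ∑ a, u b a * pu (fun x => Gm F x (J l) a) (dg w) (J i) = 0 := fun b =>
    congrFun (congrFun (h b) i) l
  simp only [al, Matrix.of_apply, Finset.sum_apply, Pi.smul_apply, smul_eq_mul, Finset.sum_mul,
    Matrix.zero_apply]
  rw [Finset.sum_comm]
  refine Finset.sum_eq_zero fun b _ => ?_
  simp only [mul_assoc]
  rw [← Finset.mul_sum, h' b, mul_zero]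

theorem lin {G B J B' D : Mat n} (hG : G.PosDef) (hB : B.PosSemidef) (hr : B.rank = r)
    (hJ : J.det ≠ 0) (e : B = Jᴴ * B' * J) : ∃ (κ : ℝ) (u : Fin n → E n), 0 < κ ∧
      (∀ i, B' *ᵥ u i = 0) ∧ (∀ v, B' *ᵥ v = 0 → ∃ c : Fin n → ℂ, v = ∑ i, c i • u i) ∧
      ((RA28.topS r G B * (Jᴴ * D * J)).trace / G.det).re = κ * ∑ i, nq D (u i) := by
  have t := RA28.top hG hB hr.le
  obtain ⟨v, v1, v2, v3⟩ := t.ker
  refine ⟨RA28.topA r G B, fun i => J *ᵥ v i, t.pos.2 hr,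
    fun i => (ker_conj hJ _).1 (e ▸ v1 i), fun w hw => ?_, ?_⟩
  · have h1 : J *ᵥ (J⁻¹ *ᵥ w) = w := by
      rw [Matrix.mulVec_mulVec, Matrix.mul_nonsing_inv _ hJ.isUnit, Matrix.one_mulVec]
    obtain ⟨c, hc⟩ := v2 (J⁻¹ *ᵥ w) (by rw [e, ker_conj hJ, h1, hw])
    refine ⟨c, ?_⟩
    rw [← h1, hc, Matrix.mulVec_sum]
    simp only [Matrix.mulVec_smul]
  · rw [v3, t.dA, mul_right_comm, mul_div_assoc, div_self hG.det_pos.ne', mul_one,
      re_ofReal_mul, re_sum]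
    congr 1
    exact Finset.sum_congr rfl fun i _ => nq_conj J D (v i)

end POS

open POS in
theorem st_POS (hO : St_ORD) (hN : St_NF) (hF : St_FB1) (hK : St_KEY) (hS : St_SPN) :
    St_POS := by
  intro n r ρ m M _ G q φ f V F σ hSu hOd hFn hHl hCq a z hz hσ hX hf
  have he := V.mem a
  have po := hHl.po a
  have hzt : z ∈ (V.e a).target := po.sub hz
  set e := V.e a with hee
  set x := e.symm z with hx
  have hxs : x ∈ e.source := e.map_target hzt
  have hez : e x = z := e.right_inv hzt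
  obtain ⟨o1, o2⟩ := (hO n r M G φ hSu).2.2 e _ _ (F a) po
  have loc := o2 ρ m hOd
  obtain ⟨f1, f2, -⟩ := hF n r ρ m M G φ f hSu hOd hFn
  have hbl : bl M V a ∈ 𝓝 z := isOpen_ball.mem_nhds hz
  have key : ∀ J : Fin r → Fin n, (hJ (F a) J z).det ≠ 0 → ∀ v, M.hw φ e z *ᵥ v = 0 →
      0 ≤ nq ((hg M f - q) e z) v ∧ (nq ((hg M f - q) e z) v = 0 → al (F a) J z v = 0) := by
    intro J hJ v hv
    obtain ⟨B, hB⟩ := hN n r ρ m (F a) _ _ z J loc hz hJ
    have k := (hK n r ρ m (F a) _ _ z J B (G e) (σ a) (fun w => f (e.symm w)) loc hz hJ hB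
      (hSu.kae.sm e he z hzt)
      (by filter_upwards [e.open_target.mem_nhds hzt] with w hw using hSu.kae.pos e he w hw)
      (KA.holN_of_on isOpen_ball (hHl.hol a) hz) hσ
      (by filter_upwards [hbl] with w hw using hHl.mem a w hw)
      ((f1 e _ _ (F a) po z hz).1 J B hJ hB) hf).2 v (by rw [o1 z hz, hv])
    have e1 : (hg M f - q) e z = hl (fun w => f (e.symm w)) z - hl (un ρ (G e) (σ a)) z := by
      rw [← hCq.eq a z hz hσ]
      rfl
    rwa [e1]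
  have hc := Mf.ch_mem (M := M) x
  have hxc := Mf.mem_ch (M := M) x
  have hgd : x ∈ gd M V σ := ⟨a, hxs, by rw [hez]; exact hz, by rw [hez]; exact hσ⟩
  have hlog : SmAt M (fun y => Real.log (f y)) x :=
    KA.smAt_comp (K := Real.log) (Real.contDiffAt_log.2 hf) (f2 x hX)
  have t1 : M.ev (hg M f - q) x = (M.J e (M.ch x) x)ᴴ * (hg M f - q) e z * M.J e (M.ch x) x := by
    have a1 := KA.hs_cmp hlog he hc hxs hxc
    have a2 := hCq.ten.cmp e he _ hc x hxs hxc hgd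
    rw [hez] at a1 a2
    show hg M f (M.ch x) (M.ch x x) - q (M.ch x) (M.ch x x) = _ * (hg M f e z - q e z) * _
    rw [Matrix.mul_sub, Matrix.sub_mul, ← a2]
    exact congrArg (· - _) a1
  have t2 : M.ev (M.hw φ) x = (M.J e (M.ch x) x)ᴴ * M.hw φ e z * M.J e (M.ch x) x := by
    have a1 := KA.hw_cmp hSu.wt he hc hxs hxc
    rwa [hez] at a1
  have psd : ∀ e' ∈ M.C, ∀ w ∈ e'.target, (M.hw φ e' w).PosSemidef := fun e' he' w hw => by
    simpa using hSu.psd e' he' w hw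
  obtain ⟨κ, u, hκ, u1, u2, u3⟩ := lin (D := (hg M f - q) e z)
    (hSu.kae.pos _ hc _ (Mf.ch_tgt x)) (psd _ hc _ (Mf.ch_tgt x)) hX (KA.det_J he hc hxs hxc) t2
  have hpa : pa M G (tA M r G (M.hw φ)) (hg M f - q) x =
      κ * ∑ i, nq ((hg M f - q) e z) (u i) := by
    rw [← u3, pa, t1]
    rfl
  have hrk : (M.hw φ e z).rank = r := by
    rw [← hez, ← KA.rank_ev (KA.ten_hw hSu.wt) he hxs]
    exact hX
  obtain ⟨J₀, hJ₀⟩ := (hS n).2.1 r _ (psd e he z hzt).1 hrk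
  have hJ₀' : (hJ (F a) J₀ z).det ≠ 0 := by rwa [hJ, o1 z hz]
  have nn : ∀ i, 0 ≤ nq ((hg M f - q) e z) (u i) := fun i => (key J₀ hJ₀' _ (u1 i)).1
  rw [hpa]
  refine ⟨mul_nonneg hκ.le (Finset.sum_nonneg fun i _ => nn i), fun h0 J hJ' v hv => ?_⟩
  have h1 := (Finset.sum_eq_zero_iff_of_nonneg fun i _ => nn i).1
    ((mul_eq_zero.1 h0).resolve_left hκ.ne')
  obtain ⟨c, rfl⟩ := u2 v (by rw [← o1 z hz, hv])
  exact al_sum _ _ _ _ _ fun i => (key J hJ' _ (u1 i)).2 (h1 i (Finset.mem_univ i))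

end Pool.Agent.Lib.RAA
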