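import Pool.Agent.Lib.RAA.Top
import Pool.Agent.Lib.RAA.B_A4
import Pool.Agent.Lib.RAA.B_A5
import Pool.Agent.Lib.RAA.B_A6a
import Pool.Agent.Lib.RAA.B_A6b
import Pool.Agent.Lib.RAA.B_A6c
import Pool.Agent.Lib.RAA.B_A6d
import Pool.Agent.Lib.RAA.B_A6m
import Pool.Agent.Lib.RAA.B_A6r
import Pool.Agent.Lib.RAA.B_CHI
import Pool.Agent.Lib.RAA.B_CQ
import Pool.Agent.Lib.RAA.B_FB1
import Pool.Agent.Lib.RAA.B_FB2
import Pool.Agent.Lib.RAA.B_FG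
import Pool.Agent.Lib.RAA.B_FL
import Pool.Agent.Lib.RAA.B_KEY
import Pool.Agent.Lib.RAA.B_LNT
import Pool.Agent.Lib.RAA.B_LN
import Pool.Agent.Lib.RAA.B_MIX
import Pool.Agent.Lib.RAA.B_NF
import Pool.Agent.Lib.RAA.B_ORD
import Pool.Agent.Lib.RAA.B_POS
import Pool.Agent.Lib.RAA.B_PSI
import Pool.Agent.Lib.RAA.B_PT
import Pool.Agent.Lib.RAA.B_PTE
import Pool.Agent.Lib.RAA.B_RIC
import Pool.Agent.Lib.RAA.B_SPN
import Pool.Agent.Lib.RAA.B_XI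
import Pool.Agent.Lib.RAA.T_LO
import Pool.Agent.Lib.RAA.T_TOP
import Pool.Agent.Lib.RA.B_PZ
import Pool.Agent.Lib.HS21.All

/-! Project ra1, step A: all blocks together. -/

namespace Pool.Agent.Lib.RAA

open Pool.Agent.Lib.RA

theorem aXI : St_XI := st_XI st_SPN
theorem aPT : St_PT := st_PT st_PTE st_SPN aXI st_LO st_PZ
theorem aORD : St_ORD := st_ORD aXI aPT
theorem aLN : St_LN := st_LN aXI aPT st_SPN
theorem aNF : St_NF := st_NF st_SPN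
theorem aFB1 : St_FB1 := st_FB1 aORD aNF st_FL st_RIC st_SPN aXI st_CHI
theorem aFB2 : St_FB2 := st_FB2 aXI st_FL
theorem aTOP : St_TOP := st_TOP st_CH2
theorem aA6m : St_A6m := st_A6m st_MIX st_CHI
theorem aA6a : St_A6a := st_A6a aA6m st_TOP2
theorem aA6b : St_A6b := st_A6b aTOP st_CHI st_MIX
theorem aCQ : St_CQ := st_CQ st_A4 st_LNT
theorem aA6r : St_A6r := st_A6r aTOP st_CHI st_A4 aCQ (st_PSI st_LNT st_A4) aA6m aA6b
theorem aA6d : St_A6d := st_A6d (st_A6c HS21.st_AUBIN aA6r aA6a) aA6m st_CHI aTOP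
theorem aPOS : St_POS := st_POS aORD aNF aFB1 (st_KEY st_RIC st_FL st_A4) st_SPN
theorem aEQ : St_EQ := st_EQ aPOS st_A5b aA6d aFB1 aFB2 st_CHI

/-- Step A. -/
theorem st_A : St_A :=
  a_of aORD aLN aCQ (st_FG aORD aNF aPT st_FL st_SPN) aFB1 aPOS aEQ st_KER st_SPN st_CHI st_RIC

end Pool.Agent.Lib.RAA
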