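import Pool.Agent.Lib.RAA.Tools
import Pool.Agent.Lib.RA.T_GIBE

/-! Project ra1, step A: integration by parts against a divergence free density. -/

open scoped Classical Topology ContDiff ComplexOrder Matrix
open Set MeasureTheory Complex Metric Filter

noncomputable section

namespace Pool.Agent.Lib.RAA

open Pool.Agent.Lib.SV (E)
open Pool.Agent.Lib.HS32 Pool.Agent.Lib.RA

theorem st_EGI : St_EGI := by
  intro n O K A hO hA
  have hA' : ∀ z ∈ O, DvF A z := fun z hz => ⟨(hA z hz).1, (hA z hz).2.1, (hA z hz).2.2⟩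
  refine ⟨fun W hW => ?_, fun ψ w hs h0 hK hO' => ?_⟩
  · have := (st_GIBE n O K A hO hW.cpt hW.sub hA').1 W hW.sm hW.zero
    simpa only [GIBE.tr_eq, dW, Matrix.of_apply] using this
  · obtain ⟨a1, a2, a3, a4, a5⟩ := (st_GIBE n O K A hO hK hO' hA').2 ψ w (fun z hz => (hs z hz).1)
      (fun z hz => (hs z hz).2) h0
    obtain ⟨-, b2, -, b4, -⟩ := (st_GIBE n O K A hO hK hO' hA').2 w ψ (fun z hz => (hs z hz).2)
      (fun z hz => (hs z hz).1) fun z hz hz' => (h0 z hz hz').symm
    exact ⟨a1, b2, a2, a3, a5.trans b4, a4, a5⟩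

end Pool.Agent.Lib.RAA
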