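import Pool.Agent.Lib.RAA.Tools
import Pool.Agent.Lib.RA.K_EM2
import Pool.Agent.Lib.PN.B_LG

/-! Project ra1, step A: extension of closed positive forms across analytic sets. -/

open scoped Classical Topology ContDiff ComplexOrder Matrix
open Set MeasureTheory Complex Metric Filter

noncomputable section

namespace Pool.Agent.Lib.RAA

open Pool.Agent.Lib.SV (E nsq)
open Pool.Agent.Lib.HS32 Pool.Agent.Lib.RA Pool.Agent.Lib.RA.EM Pool.Agent.Lib.PN

namespace EM1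

variable {n : ℕ} {ι : Type} [Fintype ι]

theorem cs (a b : ι → ℂ) : normSq (∑ i, a i * star (b i)) ≤ nsq b * nsq a := by
  rw [normSq_eq_norm_sq, mul_comm]
  refine (pow_le_pow_left₀ (norm_nonneg _) (norm_sum_le _ _) 2).trans ?_
  simp only [norm_mul, norm_star, nsq, normSq_eq_norm_sq]
  exact Finset.sum_mul_sq_le_sq_mul_sq _ _ _

theorem lg_psd {g : E n → ι → ℂ} {z : E n} (h : HolN g z) (h0 : g z ≠ 0) :
    ContDiffAt ℝ ∞ (fun w => Real.log (nsq (g w))) z ∧ (hess (lg g) z).PosSemidef := by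
  obtain ⟨h1, -, h2⟩ := st_LG n ι g z h
  have h3 := h1.log (nsq_pos h0).ne'
  refine ⟨h3, ?_⟩
  have := BBD.psd (hess_herm h3) (hess_herm h3) (s := 1) (t := 0) fun v => by
    rw [one_mul, zero_mul, add_zero]
    exact ((h2 h0).2 v).ge.trans' (div_nonneg (sub_nonneg.2 (cs _ _)) (sq_nonneg _))
  rwa [one_smul, zero_smul, add_zero] at this

theorem pl {O : Set (E n)} {g : E n → ι → ℂ} (hO : IsOpen O) (hg : DifferentiableOn ℂ g O) :
    Pl O (O ∩ {z | g z ≠ 0}) fun z => Real.log (nsq (g z)) := by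
  have hH : ∀ z ∈ O, HolN g z := fun z hz =>
    (hO.eventually_mem hz).mono fun w hw => hg.differentiableAt (hO.mem_nhds hw)
  refine ⟨hO, hg.continuousOn.isOpen_inter_preimage hO isOpen_compl_singleton, inter_subset_left,
    fun z hz => (lg_psd (hH z hz.1) hz.2).1, fun z hz => (lg_psd (hH z hz.1) hz.2).2,
    fun K hK hs t => ?_⟩
  have e : {z ∈ K ∩ (O ∩ {z | g z ≠ 0}) | t ≤ Real.log (nsq (g z))} =
      K ∩ (fun z => nsq (g z)) ⁻¹' Ici (Real.exp t) := by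
    ext z
    refine ⟨fun h => ⟨h.1.1, (Real.le_log_iff_exp_le (nsq_pos h.1.2.2)).1 h.2⟩, fun h => ?_⟩
    have h1 : 0 < nsq (g z) := (Real.exp_pos t).trans_le h.2
    exact ⟨⟨h.1, hs h.1, fun h0 => h1.ne' (nsq_eq_zero.2 h0)⟩, (Real.le_log_iff_exp_le h1).2 h.2⟩
  rw [e]
  exact hK.of_isClosed_subset (ContinuousOn.preimage_isClosed_of_isClosed
    (fun z hz => (st_LG n ι g z (hH z (hs hz))).1.continuousAt.continuousWithinAt) hK.isClosed
    isClosed_Ici) inter_subset_left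

theorem cur {O : Set (E n)} {g : E n → ι → ℂ} {A : E n → Mat n}
    (hA : ∀ z ∈ O, g z ≠ 0 → SmM A z ∧ Dvf A z ∧ (A z).PosSemidef)
    (hi : ∀ L, IsCompact L → L ⊆ O → IntegrableOn (fun z => (A z).trace.re) (L ∩ {z | g z ≠ 0})) :
    Cur O (O ∩ {z | g z ≠ 0}) A :=
  ⟨fun z hz => ⟨(hA z hz.1 hz.2).1, (hA z hz.1 hz.2).2.1.1, (hA z hz.1 hz.2).2.1.2⟩,
    fun z hz => (hA z hz.1 hz.2).2.2,
    fun K hK hs => (hi K hK hs).mono_set fun _ hz => ⟨hz.1, hz.2.2⟩⟩

end EM1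

theorem st_EM1 : St_EM1 := by
  intro n ι _ O K g A W hO hg hA hi hW
  have := (EM1.pl hO hg).em1 (EM1.cur hA hi) hW.cpt hW.sub hW.sm fun z hz => hW.zero z hz.1
  simpa only [GIBE.tr_eq, dW, Matrix.of_apply] using this

end Pool.Agent.Lib.RAA
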